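import Pool.Agent.Work.MP_bf98aa_gt.Ki.AW

/-!
Pointwise algebra of 2-forms on `ℂ³`.
PLAN. `PPf_sw1`, `PPf_sw2` give the symmetry of `Pf`. `Pf_arC`, `Pf_BB`: if `α, β` are independent (`crs α β ≠ 0`) take the complex linear map `U = (γ, α, β)` with `γ (crs α β) = det U ≠ 0`
(for instance `γ` = the conjugate coordinates of `e = crs α β`), so `U e = (det U, 0, 0)`, and reduce to `α = d z₁`, `β = d z₂` by `Pf_comp` (real determinant = `normSq` of the complex one, or avoid it: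
both sides are polynomial, so one may also expand with `PPf_blk`, `PPf_split`, `PPf_one`, `PPf_two`); if `crs α β = 0` there is a complex plane in the common kernel and both sides vanish
(`Pf_comp` with a map of determinant `≠ 1`, or continuity / density). An alternative: `Pf D (wedge a b) (wedge c d)` is alternating in the four linear forms `a, b, c, d`.
`Pf_B`: `Pf_comp` with `mulI E3`, whose determinant is 1 (its square is `det (-1) = 1`, and it is positive because `mulI` preserves `plus ar (plus ar ar)`, `Pf_plus`).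
`nondeg_of_Pf`: if `D (u, ·) = 0`, `u ≠ 0`, the map `v ↦ v + φ v • u` with `φ u = 1` preserves `D` and has determinant 2.
`Tm.Pf_pos`: the segment to the standard form consists of tamed, hence nondegenerate forms, `pf_ne_zero`, intermediate value theorem. `Tm.Pf_arC`: `0 < Pf (D + x arC α)³ = Pf D³ + 3 x Pf (arC α) D D` for all `x ≥ 0`.
-/

set_option autoImplicit false

open scoped ContDiff Topology
open Set Filter MeasureTheory

namespace Pool.Agent.Work.MP_bf98aa_gt.Ki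

open Pool.Agent.Work.MP_bf98aa_gt.Th Pool.Agent.Work.MP_bf98aa_gt.Cp

section
variable {V : Type} [NormedAddCommGroup V] [NormedSpace ℝ V]

theorem lin1_apply (a : Alt V 1) (v : V) : lin1 a v = a ![v] := by
  exact congrArg (fun b : Alt V 1 => b ![v])
    ((ContinuousAlternatingMap.ofSubsingletonLIE (0 : Fin 1)).apply_symm_apply a)

theorem wd_apply (a b : Alt V 1) (u v : V) :
    wd a b ![u, v] = a ![u] * b ![v] - a ![v] * b ![u] := by
  rw [wd, wedge_apply, lin1_apply, lin1_apply, lin1_apply, lin1_apply]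
  rfl

variable [NormedSpace ℂ V] [IsScalarTower ℝ ℂ V]

theorem arC_apply (α : V →L[ℂ] ℂ) (u v : V) :
    arC α ![u, v] = (α u).re * (α v).im - (α v).re * (α u).im := by
  rw [arC, IPf_comp, ar_apply]
  rfl

theorem inv11_arC (α : V →L[ℂ] ℂ) : Inv11 (arC α) := by
  intro u v
  rw [arC_apply, arC_apply, map_smul, map_smul]
  simp only [smul_eq_mul, Complex.I_mul_re, Complex.I_mul_im]
  ring

theorem Qf_arC (α : V →L[ℂ] ℂ) (v : V) : Qf (arC α) v = ‖α v‖ ^ 2 := by
  rw [Qf, arC_apply, map_smul, Complex.sq_norm, Complex.normSq_apply]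
  simp only [smul_eq_mul, Complex.I_mul_re, Complex.I_mul_im]
  ring

theorem sqF_eq (l : V →L[ℝ] ℝ) : ∃ γ : V →L[ℂ] ℂ, sqF l = arC γ ∧ ∀ v, (γ v).re = l v := by
  have h1 : ∀ v, (StrongDual.extendRCLike (𝕜 := ℂ) l v).re = l v :=
    StrongDual.re_extendRCLike_apply (𝕜 := ℂ) l
  have h2 : ∀ v, (StrongDual.extendRCLike (𝕜 := ℂ) l v).im = -l (Complex.I • v) :=
    StrongDual.im_extendRCLike_apply (𝕜 := ℂ) l
  refine ⟨StrongDual.extendRCLike (𝕜 := ℂ) l, alt_ext_two fun u v => ?_, h1⟩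
  rw [sqF, wedge_apply, arC_apply, h1, h1, h2, h2]
  rfl

theorem Inv11.add {D D' : Alt V 2} (h : Inv11 D) (h' : Inv11 D') : Inv11 (D + D') := by
  exact fun u v => congrArg₂ (· + ·) (h u v) (h' u v)

theorem Inv11.smul {D : Alt V 2} (h : Inv11 D) (c : ℝ) : Inv11 (c • D) := by
  exact fun u v => congrArg (c * ·) (h u v)

theorem Qf_add (D D' : Alt V 2) (v : V) : Qf (D + D') v = Qf D v + Qf D' v := by
  rfl

theorem Qf_sub (D D' : Alt V 2) (v : V) : Qf (D - D') v = Qf D v - Qf D' v := by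
  rfl

theorem Qf_smul (c : ℝ) (D : Alt V 2) (v : V) : Qf (c • D) v = c * Qf D v := by
  rfl

theorem Qf_zero (D : Alt V 2) : Qf D 0 = 0 := by
  exact IPf_zero D (Or.inl rfl)

theorem Qf_rsmul (D : Alt V 2) (c : ℝ) (v : V) : Qf D (c • v) = c ^ 2 * Qf D v := by
  obtain ⟨B, hB⟩ := exists_bilin D
  rw [Qf, Qf, hB, hB, smul_comm Complex.I c v, map_smul, B.map_smul, smul_apply, smul_eq_mul,
    smul_eq_mul, sq, mul_assoc]

end

theorem Pf_add2 (a b b' c : Alt E3 2) : Pf a (b + b') c = Pf a b c + Pf a b' c := by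
  rw [PPf_sw1, Pf_add, PPf_sw1 b, PPf_sw1 b']

theorem Pf_add3 (a b c c' : Alt E3 2) : Pf a b (c + c') = Pf a b c + Pf a b c' := by
  rw [PPf_sw2, Pf_add, PPf_sw2 c, PPf_sw2 c']

theorem Pf_smul2 (t : ℝ) (a b c : Alt E3 2) : Pf a (t • b) c = t * Pf a b c := by
  rw [PPf_sw1, Pf_smul, PPf_sw1 b]

theorem Pf_smul3 (t : ℝ) (a b c : Alt E3 2) : Pf a b (t • c) = t * Pf a b c := by
  rw [PPf_sw2, Pf_smul, PPf_sw2 c]

theorem Pf_sw3 (a b c : Alt E3 2) : Pf a b c = Pf a c b := by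
  rw [PPf_sw1 a b, PPf_sw2 b, PPf_sw1 c]

variable {α β : E3 →L[ℂ] ℂ} {B D D' : Alt E3 2}

theorem AAlg_exp (α : E3 →L[ℂ] ℂ) (v : E3) :
    α v = v.1 * α (1, 0, 0) + v.2.1 * α (0, 1, 0) + v.2.2 * α (0, 0, 1) := by
  rw [← smul_eq_mul, ← smul_eq_mul, ← smul_eq_mul, ← map_smul, ← map_smul, ← map_smul, ← map_add,
    ← map_add]
  simp

theorem crs_ker (α β : E3 →L[ℂ] ℂ) : α (crs α β) = 0 ∧ β (crs α β) = 0 := by
  rw [AAlg_exp α, AAlg_exp β]
  simp only [crs]
  constructor <;> ring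

theorem crs_self (α : E3 →L[ℂ] ℂ) : crs α α = 0 := by
  simp only [crs, mul_comm, sub_self]
  rfl

theorem AAlg_lin (α : E3 →L[ℂ] ℂ) (x y z : ℂ) :
    α (x, y, z) = x * α (1, 0, 0) + y * α (0, 1, 0) + z * α (0, 0, 1) := by
  have e : ((x, y, z) : E3) =
      x • ((1, 0, 0) : E3) + y • ((0, 1, 0) : E3) + z • ((0, 0, 1) : E3) := by simp
  rw [e, map_add, map_add, map_smul, map_smul, map_smul]
  rfl

theorem AAlg_Qf (D : Alt E3 2) (l : ℂ) (v : E3) : Qf D (l • v) = Complex.normSq l * Qf D v := by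
  obtain ⟨B, hB⟩ := exists_bilin D
  have s : ∀ u u', B u u' = -B u' u := fun u u' => by rw [← hB, ← hB, alt2_swap]
  have z : ∀ u, B u u = 0 := fun u => by linarith [s u u]
  have h1 : ∀ x : ℂ, l * x = l.re • x + l.im • (Complex.I * x) := fun x => by
    apply Complex.ext <;> simp <;> ring
  have h2 : ∀ x : ℂ, Complex.I * (l * x) = l.re • (Complex.I * x) - l.im • x := fun x => by
    apply Complex.ext <;> simp <;> ring
  have e1 : l • v = l.re • v + l.im • (Complex.I • v) :=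
    Prod.ext (h1 _) (Prod.ext (h1 _) (h1 _))
  have e2 : Complex.I • l • v = l.re • (Complex.I • v) - l.im • v :=
    Prod.ext (h2 _) (Prod.ext (h2 _) (h2 _))
  rw [Qf, Qf, hB, hB, e2, e1, Complex.normSq_apply]
  simp only [map_add, map_sub, map_smul, ContinuousLinearMap.add_apply,
    ContinuousLinearMap.smul_apply, smul_eq_mul, z, s (Complex.I • v) v]
  ring

/-- The shear which sends the first basis vector to `w`. -/
noncomputable def AAlg_V (w : E3) : E3 →L[ℝ] E3 :=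
  ((ContinuousLinearMap.fst ℂ ℂ F2).smulRight w +
    (ContinuousLinearMap.inr ℂ ℂ F2).comp (ContinuousLinearMap.snd ℂ ℂ F2)).restrictScalars ℝ

theorem AAlg_V_apply (w : E3) (u : ℂ) (x : F2) : AAlg_V w (u, x) = u • w + (0, x) := rfl

theorem AAlg_V_fst (w : E3) (u : ℂ) : AAlg_V w (u, 0) = u • w := add_zero _

theorem AAlg_V_inr (w : E3) (b : Alt E3 2) :
    (b.compContinuousLinearMap (AAlg_V w)).compContinuousLinearMap
      (ContinuousLinearMap.inr ℝ ℂ F2) =
      b.compContinuousLinearMap (ContinuousLinearMap.inr ℝ ℂ F2) :=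
  alt_ext_two fun u v => by
    simp only [IPf_comp, ContinuousLinearMap.inr_apply, AAlg_V_apply, zero_smul, zero_add]

theorem AAlg_V_det (w : E3) : (AAlg_V w).det = Complex.normSq w.1 := by
  have h := Pf_comp (plus ar (0 : Alt F2 2)) (plus 0 (plus ((1 : ℝ) • ar) ((1 : ℝ) • ar)))
    (plus 0 (plus ((1 : ℝ) • ar) ((1 : ℝ) • ar))) (AAlg_V w)
  rw [PPf_blk _ _ _ (Or.inl fun u v => by
      rw [IPf_comp, AAlg_V_apply]; simp [plus_apply, ar_apply]),
    PPf_blk _ _ _ (Or.inl fun u v => by simp [plus_apply, ar_apply]), AAlg_V_inr, PPf_inr,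
    pf2_plus, IPf_comp, AAlg_V_fst, AAlg_V_fst] at h
  simp [plus_apply, ar_apply] at h
  rw [← h, Complex.normSq_apply]

/-- The cyclic permutation of the coordinates. -/
noncomputable def AAlg_S : E3 →L[ℂ] E3 :=
  ((ContinuousLinearMap.snd ℂ ℂ ℂ).comp (ContinuousLinearMap.snd ℂ ℂ F2)).prod
    ((ContinuousLinearMap.fst ℂ ℂ F2).prod
      ((ContinuousLinearMap.fst ℂ ℂ ℂ).comp (ContinuousLinearMap.snd ℂ ℂ F2)))

theorem AAlg_S_det : (AAlg_S.restrictScalars ℝ).det = 1 := by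
  have e : (plus ((1 : ℝ) • ar) (plus ((1 : ℝ) • ar) ((1 : ℝ) • ar))).compContinuousLinearMap
      (AAlg_S.restrictScalars ℝ) = plus ((1 : ℝ) • ar) (plus ((1 : ℝ) • ar) ((1 : ℝ) • ar)) :=
    alt_ext_two fun u v => by
      rw [IPf_comp, plus_apply, plus_apply, plus_apply, plus_apply, add_comm, add_assoc]
      rfl
  have h := Pf_comp (plus ((1 : ℝ) • ar) (plus ((1 : ℝ) • ar) ((1 : ℝ) • ar)))
    (plus ((1 : ℝ) • ar) (plus ((1 : ℝ) • ar) ((1 : ℝ) • ar)))
    (plus ((1 : ℝ) • ar) (plus ((1 : ℝ) • ar) ((1 : ℝ) • ar))) (AAlg_S.restrictScalars ℝ)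
  rw [e, Pf_plus, pf2_plus] at h
  linarith

theorem AAlg_main (κ : ℝ) (R : (E3 →L[ℂ] ℂ) → (E3 →L[ℂ] ℂ) → Alt E3 2 → Alt E3 2 → Prop)
    (hS : ∀ α β b c, R α β b c → R (α.comp AAlg_S) (β.comp AAlg_S)
      (b.compContinuousLinearMap (AAlg_S.restrictScalars ℝ))
      (c.compContinuousLinearMap (AAlg_S.restrictScalars ℝ)))
    (hk : ∀ α β b c, R α β b c → ∀ u v, α u = 0 → β u = 0 → b ![u, v] = 0 ∧ c ![u, v] = 0)
    (hp : ∀ α β b c, R α β b c →
      pf2 (b.compContinuousLinearMap (ContinuousLinearMap.inr ℝ ℂ F2))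
        (c.compContinuousLinearMap (ContinuousLinearMap.inr ℝ ℂ F2)) =
        κ * Complex.normSq (crs α β).1)
    {α β : E3 →L[ℂ] ℂ} {b c : Alt E3 2} (h : R α β b c) (D : Alt E3 2) :
    Pf D b c = κ * Qf D (crs α β) := by
  have s1 : ∀ α β b c (D : Alt E3 2) (w : E3), R α β b c → α w = 0 → β w = 0 → w.1 ≠ 0 →
      Pf D b c = κ * Qf D (crs α β) := by
    intro α β b c D w h ha hb hw
    have k := fun (u : ℂ) v => hk α β b c h (u • w) v (by rw [map_smul, ha, smul_zero])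
      (by rw [map_smul, hb, smul_zero])
    have h1 := Pf_comp D b c (AAlg_V w)
    rw [PPf_blk _ _ _ (Or.inr ⟨fun u v => by rw [IPf_comp, AAlg_V_fst]; exact (k u _).1,
        fun u v => by rw [IPf_comp, AAlg_V_fst]; exact (k u _).2⟩), AAlg_V_inr, AAlg_V_inr,
      hp α β b c h, IPf_comp, AAlg_V_fst, AAlg_V_fst, one_smul, AAlg_V_det] at h1
    have h2 : w.1 • crs α β = (crs α β).1 • w := by
      obtain ⟨x, y, z⟩ := w
      rw [AAlg_lin] at ha hb
      refine Prod.ext (mul_comm _ _) (Prod.ext ?_ ?_)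
      · show x * (_ - _) = (_ - _) * y
        linear_combination α (0, 0, 1) * hb - β (0, 0, 1) * ha
      · show x * (_ - _) = (_ - _) * z
        linear_combination β (0, 1, 0) * ha - α (0, 1, 0) * hb
    have h3 := congrArg (Qf D) h2
    rw [AAlg_Qf, AAlg_Qf] at h3
    refine mul_left_cancel₀ (Complex.normSq_pos.2 hw).ne' ?_
    rw [← h1, mul_left_comm _ κ, mul_left_comm _ κ, h3, mul_comm (Complex.normSq _)]
    rfl
  have s2 : ∀ (α β : E3 →L[ℂ] ℂ) (b c D : Alt E3 2),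
      Pf (D.compContinuousLinearMap (AAlg_S.restrictScalars ℝ))
        (b.compContinuousLinearMap (AAlg_S.restrictScalars ℝ))
        (c.compContinuousLinearMap (AAlg_S.restrictScalars ℝ)) =
        κ * Qf (D.compContinuousLinearMap (AAlg_S.restrictScalars ℝ))
          (crs (α.comp AAlg_S) (β.comp AAlg_S)) → Pf D b c = κ * Qf D (crs α β) := by
    intro α β b c D h
    rw [Pf_comp, AAlg_S_det, one_mul, Qf, IPf_comp] at h
    exact h
  obtain ⟨w, hw, hw0⟩ := Submodule.exists_mem_ne_zero_of_ne_bot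
    (LinearMap.ker_ne_bot_of_finrank_lt (f := (α.prod β).toLinearMap) (by simp))
  have ha : α w = 0 := congrArg Prod.fst hw
  have hb : β w = 0 := congrArg Prod.snd hw
  obtain ⟨x, y, z⟩ := w
  by_cases hx : x = 0
  · by_cases hy : y = 0
    · refine s2 _ _ _ _ _ (s2 _ _ _ _ _
        (s1 _ _ _ _ _ (z, x, y) (hS _ _ _ _ (hS _ _ _ _ h)) ha hb fun hz => hw0 ?_))
      exact Prod.ext hx (Prod.ext hy hz)
    · exact s2 _ _ _ _ _ (s1 _ _ _ _ _ (y, z, x) (hS _ _ _ _ h) ha hb hy)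
  · exact s1 _ _ _ _ _ _ h ha hb hx

theorem AAlg_inr (α : E3 →L[ℂ] ℂ) (y z : ℂ) :
    α (ContinuousLinearMap.inr ℝ ℂ F2 (y, z)) = y * α (0, 1, 0) + z * α (0, 0, 1) := by
  rw [ContinuousLinearMap.inr_apply, AAlg_lin, zero_mul, zero_add]

theorem Pf_arC (D : Alt E3 2) (α β : E3 →L[ℂ] ℂ) : Pf D (arC α) (arC β) = Qf D (crs α β) := by
  refine (AAlg_main 1 (fun α β b c => b = arC α ∧ c = arC β) ?_ ?_ ?_ ⟨rfl, rfl⟩ D).trans
    (one_mul _)
  · rintro α β b c ⟨rfl, rfl⟩
    exact ⟨rfl, rfl⟩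
  · rintro α β b c ⟨rfl, rfl⟩ u v ha hb
    simp [arC_apply, ha, hb]
  · rintro α β b c ⟨rfl, rfl⟩
    simp only [pf2, IPf_comp, arC_apply, AAlg_inr, crs]
    generalize α (0, 1, 0) = a
    generalize α (0, 0, 1) = a'
    generalize β (0, 1, 0) = d
    generalize β (0, 0, 1) = d'
    simp [Complex.normSq_apply]
    ring

theorem IsB.Pf_BB (h : IsB B α β) (D : Alt E3 2) : Pf D B B = 2 * Qf D (crs α β) := by
  refine AAlg_main 2 (fun α β b c => IsB b α β ∧ IsB c α β) ?_ ?_ ?_ ⟨h, h⟩ D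
  · rintro α β b c ⟨h1, h2⟩
    exact ⟨fun u v => (IPf_comp _ _ _ _).trans (h1 _ _),
      fun u v => (IPf_comp _ _ _ _).trans (h2 _ _)⟩
  · rintro α β b c ⟨h1, h2⟩ u v ha hb
    simp [h1 u v, h2 u v, ha, hb]
  · rintro α β b c ⟨h1, h2⟩
    unfold IsB at h1 h2
    simp only [pf2, IPf_comp, h1, h2, AAlg_inr, crs]
    generalize α (0, 1, 0) = a
    generalize α (0, 0, 1) = a'
    generalize β (0, 1, 0) = d
    generalize β (0, 0, 1) = d'
    simp [Complex.normSq_apply]
    ring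

/-- The standard form. -/
noncomputable def AAlg_std : Alt E3 2 := plus ar (plus ar ar)

theorem AAlg_six : Pf AAlg_std AAlg_std AAlg_std = 6 := by
  have h1 := Pf_plus 1 1 1 (plus ar ar) (plus ar ar) (plus ar ar)
  have h2 := pf2_plus 1 1 1 1
  simp only [one_smul] at h1 h2
  rw [AAlg_std, h1, h2]
  norm_num

theorem IsB.Pf_B (h : IsB B α β) (hD : Inv11 D) (hD' : Inv11 D') : Pf D D' B = 0 := by
  have e : ∀ w : Alt E3 2, Inv11 w → w.compContinuousLinearMap (mulI E3) = w := fun w hw =>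
    alt_ext_two fun u v => (IPf_comp _ _ u v).trans (hw u v)
  have h1 := Pf_comp AAlg_std AAlg_std AAlg_std (mulI E3)
  rw [e _ fun u v => by
    simp only [AAlg_std, plus_apply, ar_apply, Prod.smul_fst, Prod.smul_snd, smul_eq_mul,
      Complex.I_mul_re, Complex.I_mul_im]
    ring, AAlg_six] at h1
  have h2 := Pf_comp D D' B (mulI E3)
  have h3 : B.compContinuousLinearMap (mulI E3) = (-1 : ℝ) • B := alt_ext_two fun u v => by
    refine (IPf_comp _ _ u v).trans ((h (Complex.I • u) (Complex.I • v)).trans ?_)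
    rw [ContinuousAlternatingMap.smul_apply, h u v]
    simp only [map_smul, smul_eq_mul, Complex.sub_re, Complex.mul_re, Complex.mul_im, Complex.I_re,
      Complex.I_im]
    ring
  rw [e D hD, e D' hD', h3, Pf_smul3, show (mulI E3).det = 1 by linarith] at h2
  linarith

theorem IsB.Qf_crs (h : IsB B α β) : Qf B (crs α β) = 0 := by
  rw [Qf, h, (crs_ker α β).1, (crs_ker α β).2, zero_mul, mul_zero, sub_zero, Complex.zero_re]

theorem nondeg_of_Pf (h : Pf D D D ≠ 0) (u : E3) (hu : ∀ v, D ![u, v] = 0) : u = 0 := by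
  by_contra h0
  obtain ⟨φ, hφ⟩ := SeparatingDual.exists_eq_one (R := ℝ) h0
  obtain ⟨L, hL⟩ := exists_bilin D
  have h1 := Pf_comp D D D (ContinuousLinearMap.id ℝ E3 - φ.smulRight u)
  have h2 : D.compContinuousLinearMap (ContinuousLinearMap.id ℝ E3 - φ.smulRight u) = D :=
    alt_ext_two fun a b => by
      have e1 : L u = 0 := ContinuousLinearMap.ext fun v => (hL u v).symm.trans (hu v)
      have e2 : L a u = 0 := by rw [← hL, alt2_swap, hu, neg_zero]
      rw [IPf_comp, hL, hL]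
      simp [e1, e2]
  have h3 : (ContinuousLinearMap.id ℝ E3 - φ.smulRight u).det = 0 :=
    LinearMap.det_eq_zero_iff_ker_ne_bot.2 ((Submodule.ne_bot_iff _).2 ⟨u, by simp [hφ], h0⟩)
  rw [h2, h3, zero_mul] at h1
  exact h h1

theorem AAlg_ne (h : Tm D) : Pf D D D ≠ 0 := by
  have h1 := pf_ne_zero (D.compContinuousLinearMap (LL.symm : Sp (Fin 3) →L[ℝ] E3)) fun u hu => by
    by_contra h0
    have h2 := hu (LL (Complex.I • LL.symm u))
    rw [IPf_comp, ContinuousLinearEquiv.coe_coe, LL.symm_apply_apply] at h2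
    exact (h _ fun e => h0 (LL.symm.map_eq_zero_iff.1 e)).ne' h2
  refine div_ne_zero (fun e => h1 (Eq.trans (congrArg pf (funext fun s => ?_)) e)) (by norm_num)
  fin_cases s <;> rfl

theorem Tm.Pf_pos (h : Tm D) : 0 < Pf D D D := by
  have h0 : Tm AAlg_std := fun v hv => by
    have e : Qf AAlg_std v = Complex.normSq v.1 + (Complex.normSq v.2.1 + Complex.normSq v.2.2) := by
      simp only [Qf, AAlg_std, plus_apply, ar_apply, Prod.smul_fst, Prod.smul_snd, smul_eq_mul,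
        Complex.I_mul_re, Complex.I_mul_im, Complex.normSq_apply]
      ring
    have a1 := Complex.normSq_nonneg v.1
    have a2 := Complex.normSq_nonneg v.2.1
    have a3 := Complex.normSq_nonneg v.2.2
    rw [e]
    by_contra hc
    exact hv (Prod.ext (Complex.normSq_eq_zero.1 (by linarith)) (Prod.ext
      (Complex.normSq_eq_zero.1 (by linarith)) (Complex.normSq_eq_zero.1 (by linarith))))
  have hc : Continuous fun t : ℝ => (1 - t) • AAlg_std + t • D := by fun_prop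
  have hg := continuous_Pf.comp (hc.prodMk (hc.prodMk hc))
  by_contra hn
  obtain ⟨t, ht, e⟩ := intermediate_value_Icc' zero_le_one hg.continuousOn (a := 0) ⟨by
    simpa using hn, by simp [AAlg_six]⟩
  refine AAlg_ne (D := (1 - t) • AAlg_std + t • D) (fun v hv => ?_) e
  rw [Qf_add, Qf_smul, Qf_smul]
  have a1 := h0 v hv
  have a2 := h v hv
  rcases ht.1.eq_or_lt with rfl | h1
  · simpa using a1
  · exact add_pos_of_nonneg_of_pos (mul_nonneg (sub_nonneg.2 ht.2) a1.le) (mul_pos h1 a2)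

theorem Tm.Pf_arC (h : Tm D) (α : E3 →L[ℂ] ℂ) : 0 ≤ Pf (arC α) D D := by
  by_contra hn
  have hp := neg_pos.2 (not_le.1 hn)
  have h0 := h.Pf_pos
  have hz : ∀ c, Pf c (arC α) (arC α) = 0 := fun c => by rw [Ki.Pf_arC, crs_self, Qf_zero]
  have h1 := Tm.Pf_pos (D := D + (Pf D D D / (3 * -Pf (arC α) D D)) • arC α) fun v hv => by
    rw [Qf_add, Qf_smul, Qf_arC]
    exact add_pos_of_pos_of_nonneg (h v hv) (by positivity)
  simp only [Pf_add, Pf_add2, Pf_add3, Pf_smul, Pf_smul2, Pf_smul3, hz] at h1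
  rw [PPf_sw2 D D (arC α), PPf_sw1 D (arC α) D, PPf_sw1 (arC α) D (arC α), PPf_sw2 (arC α) (arC α) D,
    hz] at h1
  have h2 := div_mul_cancel₀ (Pf D D D) (show 3 * -Pf (arC α) D D ≠ 0 by positivity)
  linarith

end Pool.Agent.Work.MP_bf98aa_gt.Ki
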