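import Pool.Agent.Work.MP_bf98aa_gt.Ki.AAlg

/-!
From a presentation with holomorphic charts to the manifold.
PLAN. `exists_J_hol`: as in `Man.exists_J` of `Cp/PBr3.lean`, but build `PBr3_Dat` directly with `O m = P.W (X.i m)`, `F = id`, `A m = A (X.i m)`; then `PBr3_Dat.GJ` says that `PBr3_D LL.symm m x` intertwines `J x`
with `i` for every `x` in the source of the chart at `m` (`PBr3_mem`, `X.sub`); `PBr3_rep` gives the invariance of `w`; for `J.loc` use `(mdifferentiable_chart p).comp_symm_deriv`.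
`Rep` lemmas: `PBr3_rep` with `m = x` evaluates a form at `x`; `Man.Rep.closed` of `Cp/PBr1.lean` is the model for `exact`.
-/

set_option autoImplicit false

open scoped ContDiff Topology Manifold
open Set Filter MeasureTheory

namespace Pool.Agent.Work.MP_bf98aa_gt.Ki

open Pool.Agent.Work.MP_bf98aa_gt.Th Pool.Agent.Work.MP_bf98aa_gt.Cp

variable {P : Pres E3} {M : Type} [TopologicalSpace M] [ChartedSpace (Sp (Fin 3)) M]
  [IsManifold 𝓘(ℝ, Sp (Fin 3)) ∞ M]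

theorem ABr_two {X : Man P M} {w : Form (Sp (Fin 3)) M 2} {a : P.ι → Fm E3 2} (h : X.Rep w a)
    (x : M) (u v : Sp (Fin 3)) : w x ![u, v] =
      a (X.i x) (PBr3_c LL.symm x x) ![PBr3_D LL.symm x x u, PBr3_D LL.symm x x v] :=
  (PBr3_rep h x x (mem_chart_source _ x) _).trans
    (congrArg (a _ _) (funext fun i => by fin_cases i <;> rfl))

theorem ABr_one {X : Man P M} {w : Form (Sp (Fin 3)) M 1} {a : P.ι → Fm E3 1} (h : X.Rep w a)
    (x : M) (u : Sp (Fin 3)) : w x ![u] = a (X.i x) (PBr3_c LL.symm x x) ![PBr3_D LL.symm x x u] :=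
  (PBr3_rep h x x (mem_chart_source _ x) _).trans
    (congrArg (a _ _) (funext fun i => by fin_cases i; rfl))

omit [IsManifold 𝓘(ℝ, Sp (Fin 3)) ∞ M] in
theorem ABr_mem (X : Man P M) {m x : M} (hx : x ∈ (chartAt (Sp (Fin 3)) m).source) :
    PBr3_c LL.symm m x ∈ P.W (X.i m) := X.sub m (PBr3_mem X hx).1

theorem exists_J_hol (X : Man P M) (hP : P.Good) {w ρ : Form (Sp (Fin 3)) M 2}
    {a b : P.ι → Fm E3 2} (hw : X.Rep w a) (hρ : X.Rep ρ b) (hb : P.GC b) {A : P.ι → Fm E3 1}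
    (dA : ∀ i, IsD (A i) (fun y => (2 * Real.pi) • b i y) (P.W i))
    (cmp : ∀ i j y γ, Lift (sl P.r i j) y γ →
      Cmp γ (fun _ => ContinuousLinearMap.id ℝ E3) (A i) (fun _ => ContinuousLinearMap.id ℝ E3)
        (A j) y) (ha : ∀ i, ∀ y ∈ P.W i, Inv11 (a i y) ∧ Tm (a i y)) :
    ∃ J : Endo (Sp (Fin 3)) M, Tamed w J ∧ (∀ x u v, w x ![J x u, J x v] = w x ![u, v]) ∧
      (∃ J₀, ∀ p, ∀ y ∈ (chartAt (Sp (Fin 3)) p).target, J.loc p y = J₀) ∧ RepC1 J ρ := by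
  obtain ⟨D, hD, hD'⟩ := exists_detC
  have hid : (ContinuousLinearMap.id ℝ E3).IsInvertible := ⟨ContinuousLinearEquiv.refl ℝ E3, rfl⟩
  have hJ : ∀ v : E3, Jof (ContinuousLinearMap.id ℝ E3) v = Complex.I • v := fun v => Jof_spec hid v
  have H : PBr3_Dat LL.symm w ρ (fun m => a (X.i m)) (fun m => b (X.i m)) (fun m => P.W (X.i m))
      (fun _ _ => ContinuousLinearMap.id ℝ E3) (fun m => A (X.i m)) := by
    refine ⟨PBr3_rep hw, PBr3_rep hρ, fun m => hP.opn _,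
      fun m => ABr_mem X (mem_chart_source _ m), fun m => contDiffOn_const, fun _ _ _ => hid,
      fun m => dA _, fun m y hy v hv => ?_, fun m m' x hx hx' => ?_⟩
    · rw [hJ]
      exact (ha _ y hy).2 v hv
    · have h1 := PBr3_mem X hx.1
      have h2 := (X.lift hP m' (X.sub m h1.1) (h1.2.symm ▸ hx'.1)).1
      refine ⟨_, h2.1, ?_, cmp _ _ _ _ h2⟩
      filter_upwards [(chartAt (Sp (Fin 3)) m).open_source.mem_nhds hx.1] with x' k
      rw [(PBr3_mem X k).2]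
      rfl
  have hG : ∀ m x, x ∈ (chartAt (Sp (Fin 3)) m).source → ∀ v : Sp (Fin 3), PBr3_D LL.symm m x
      (PBr3_J LL.symm (fun _ _ => ContinuousLinearMap.id ℝ E3) x v) =
        Complex.I • PBr3_D LL.symm m x v := fun m x hx v => H.GJ ⟨hx, ABr_mem X hx⟩ v
  refine ⟨_, H.tamed, fun x u v => ?_, ⟨(LL : E3 →L[ℝ] Sp (Fin 3)).comp ((mulI E3).comp
    (LL.symm : Sp (Fin 3) →L[ℝ] E3)), fun p y hy => ?_⟩, hρ.closed hb.1, M, _, _, _,
    fun x => ⟨x, H.self x⟩, H.frame hD fun v => (hD' 0 v).2, H.gauge hD fun U v => (hD' U v).1⟩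
  · refine (ABr_two hw x _ _).trans (Eq.trans ?_ (ABr_two hw x u v).symm)
    exact (congrArg₂ (fun s t : E3 => a (X.i x) (PBr3_c LL.symm x x) ![s, t])
      (hG x x (mem_chart_source _ x) u) (hG x x (mem_chart_source _ x) v)).trans
      ((ha _ _ (ABr_mem X (mem_chart_source _ x))).1 _ _)
  · refine ContinuousLinearMap.ext fun v => LL.symm.injective ?_
    refine (hG p _ ((chartAt (Sp (Fin 3)) p).map_target hy) (PBr3_S p y v)).trans ?_
    have h1 : PBr3_D LL.symm p ((chartAt (Sp (Fin 3)) p).symm y) (PBr3_S p y v) = LL.symm v :=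
      congrArg LL.symm (congrArg (fun f : Sp (Fin 3) →L[ℝ] Sp (Fin 3) => f v)
        ((mdifferentiable_chart (I := 𝓘(ℝ, Sp (Fin 3))) p).comp_symm_deriv hy))
    rw [h1]
    exact (LL.symm_apply_apply _).symm

theorem rep_comb {X : Man P M} {η : Fin 3 → Form (Sp (Fin 3)) M 2} {e : Fin 3 → P.ι → Fm E3 2}
    (h : ∀ s, X.Rep (η s) (e s)) (s : ℝ) : X.Rep (comb η ![1, s ^ 2, s]) (ws e s) := by
  intro p y hy
  have e : (comb η ![1, s ^ 2, s]).loc p (LL y) =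
      (η 0).loc p (LL y) + s ^ 2 • (η 1).loc p (LL y) + s • (η 2).loc p (LL y) := by
    ext v
    simp only [Form.loc, comb, Fin.sum_univ_three, Matrix.cons_val_zero, Matrix.cons_val_one,
      Matrix.cons_val, one_smul]
    rfl
  rw [e, h 0 p y hy, h 1 p y hy, h 2 p y hy]
  rfl

theorem rep_nondeg {X : Man P M} {w : Form (Sp (Fin 3)) M 2} {a : P.ι → Fm E3 2} (h : X.Rep w a)
    (ha : ∀ i, ∀ y ∈ P.W i, Pf (a i y) (a i y) (a i y) ≠ 0) : w.Nondeg := by
  intro x u hu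
  have hD := PBr3_D_inv LL.symm (mem_chart_source (Sp (Fin 3)) x)
  have h1 : PBr3_D LL.symm x x u = 0 := by
    refine nondeg_of_Pf (ha _ _ (ABr_mem X (mem_chart_source _ x))) _ fun v => ?_
    rw [← hD.self_apply_inverse v]
    exact (ABr_two h x u _).symm.trans (hu _)
  exact hD.injective (h1.trans (map_zero _).symm)

theorem rep_wd {X : Man P M} {σ : Form (Sp (Fin 3)) M 2} {a : Fin 4 → Form (Sp (Fin 3)) M 1}
    {e : Fin 4 → P.ι → Fm E3 1} (h : ∀ s, X.Rep (a s) (e s))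
    (hσ : X.Rep σ fun i y => wd (e 0 i y) (e 1 i y) + wd (e 2 i y) (e 3 i y)) (x : M)
    (u v : TangentSpace 𝓘(ℝ, Sp (Fin 3)) x) :
    σ x ![u, v] = a 0 x ![u] * a 1 x ![v] - a 0 x ![v] * a 1 x ![u] +
      (a 2 x ![u] * a 3 x ![v] - a 2 x ![v] * a 3 x ![u]) := by
  have h1 : ∀ s (t : TangentSpace 𝓘(ℝ, Sp (Fin 3)) x), a s x ![t] =
      e s (X.i x) (PBr3_c LL.symm x x) ![PBr3_D LL.symm x x t] := fun s t => ABr_one (h s) x t
  refine (ABr_two hσ x u v).trans ?_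
  rw [ContinuousAlternatingMap.add_apply, wd_apply, wd_apply]
  simp only [h1]

theorem rep_exact {X : Man P M} (hP : P.Good) {ρ σ : Form (Sp (Fin 3)) M 2} {a b : P.ι → Fm E3 2}
    (hρ : X.Rep ρ a) (hσ : X.Rep σ b) {ξ : P.ι → Fm E3 1} (hξ : P.GS ξ)
    (h : ∀ i, ∀ y ∈ P.W i, extDeriv (ξ i) y = a i y - b i y) : (ρ.sub σ).Exact := by
  obtain ⟨β, hβ⟩ := X.exists_form hP hξ.2
  have key : ∀ p, IsD (β.loc p) ((ρ.sub σ).loc p) (chartAt (Sp (Fin 3)) p).target := fun p => by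
    have h1 : IsD (ξ (X.i p)) (fun y => a (X.i p) y - b (X.i p) y) (X.O p) :=
      ⟨ContDiffOn.mono (hξ.1 _) (X.sub p), fun x hx => h _ x (X.sub p hx)⟩
    have ho := (chartAt (Sp (Fin 3)) p).open_target
    have h2 := h1.pb (f := LL.symm) ho (X.opn p) LL.symm.contDiff.contDiffOn fun z hz => by
      obtain ⟨x, hx, rfl⟩ := X.tgt p ▸ hz
      rwa [LL.symm_apply_apply]
    have h3 : ∀ z ∈ (chartAt (Sp (Fin 3)) p).target, β.loc p z = pb LL.symm (ξ (X.i p)) z :=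
      fun z hz => by
        obtain ⟨x, hx, rfl⟩ := X.tgt p ▸ hz
        rw [hβ p x hx, pb, LL.symm_apply_apply, LL.symm.fderiv]
    refine ⟨ContDiffOn.congr h2.1 h3, fun z hz => ?_⟩
    rw [Filter.EventuallyEq.extDeriv_eq (Filter.mem_of_superset (ho.mem_nhds hz) h3), h2.2 z hz]
    obtain ⟨x, hx, rfl⟩ := X.tgt p ▸ hz
    have e : (ρ.sub σ).loc p (LL x) = ρ.loc p (LL x) - σ.loc p (LL x) := rfl
    rw [e, hρ p x hx, hσ p x hx, pb, LL.symm_apply_apply, LL.symm.fderiv]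
    rfl
  exact ⟨β, fun p => (key p).1, fun p => (key p).2⟩

end Pool.Agent.Work.MP_bf98aa_gt.Ki
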