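import Pool.Agent.Work.MP_bf98aa_gt.Ki.AAlg

/-!
Compactness arguments (page, A2 and A3).
PLAN. `pos_of_cpt`: the open sets `{0 < n f + g}` increase and cover `K`. `lift_I`: from `cmp` the derivative is a complex linear map `U`. `exists_ka`: `pos_of_cpt` on `K i ×ˢ sphere 0 1` for
`Qf σ`, `Qf τ` (finitely many `i`, `Qf_rsmul`), `κ = C σ + τ + σ`, `tm_at` for `C σ + τ`. `gc_wd`: `extDeriv_two_apply`, `extDeriv_one_apply`, `contDiff_wedge`.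
`exists_R`: `pos_of_cpt` on `Icc 0 1 ×ˢ K i` with `f = s² Pf κ B B`, `g = Pf (κ + s² t Θ)³`; take `R` with `3 R² ≥ C₀`; `dn_Pf`, `Dn_pos_at`.
-/

set_option autoImplicit false

open scoped ContDiff Topology
open Set Filter MeasureTheory

namespace Pool.Agent.Work.MP_bf98aa_gt.Ki

open Pool.Agent.Work.MP_bf98aa_gt.Th Pool.Agent.Work.MP_bf98aa_gt.Cp

theorem pos_of_cpt {X : Type} [TopologicalSpace X] {K : Set X} (hK : IsCompact K) {f g : X → ℝ}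
    (hf : ContinuousOn f K) (hg : ContinuousOn g K) (h0 : ∀ x ∈ K, 0 ≤ f x)
    (h1 : ∀ x ∈ K, f x = 0 → 0 < g x) :
    ∃ C₀, 0 ≤ C₀ ∧ ∀ C, C₀ ≤ C → ∀ x ∈ K, 0 < C * f x + g x := by
  suffices H : ∃ C₀, 0 ≤ C₀ ∧ ∀ C, C₀ ≤ C → ∀ x ∈ K, x ∈ K → 0 < C * f x + g x from
    H.imp fun _ h => ⟨h.1, fun C hC x hx => h.2 C hC x hx hx⟩
  refine hK.induction_on (p := fun s => ∃ C₀, 0 ≤ C₀ ∧ ∀ C, C₀ ≤ C → ∀ x ∈ s, x ∈ K →
    0 < C * f x + g x) ⟨0, le_rfl, fun _ _ _ h => h.elim⟩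
    (fun s t hst h => h.imp fun _ h => ⟨h.1, fun C hC x hx => h.2 C hC x (hst hx)⟩) ?_ fun x hx => ?_
  · rintro s t ⟨a, a0, ha⟩ ⟨b, -, hb⟩
    exact ⟨max a b, le_max_of_le_left a0, fun C hC x hx =>
      hx.elim (ha C (le_of_max_le_left hC) x) (hb C (le_of_max_le_right hC) x)⟩
  · obtain ⟨n, n0, hn⟩ : ∃ n, 0 ≤ n ∧ 0 < n * f x + g x := by
      rcases (h0 x hx).eq_or_lt with e | e
      · exact ⟨0, le_rfl, by simpa using h1 x hx e.symm⟩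
      · refine ⟨(|g x| + 1) / f x, by positivity, ?_⟩
        rw [div_mul_cancel₀ _ e.ne']
        linarith [neg_abs_le (g x)]
    exact ⟨_, (((hf x hx).const_mul n).add (hg x hx)).eventually (lt_mem_nhds hn), n, n0,
      fun C hC y hy yK => lt_of_lt_of_le hy
        (add_le_add_left (mul_le_mul_of_nonneg_right hC (h0 y yK)) _)⟩

variable {P : Pres E3} {D : Dat P}

theorem Dn_pos_at (hP : P.Good) {f : P.ι → E3 → ℝ} (hf : P.Dn f) {i j : P.ι} {y z : E3}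
    (hr : P.r i y j z) (h : 0 < f j z) : 0 < f i y := by
  obtain ⟨γ, rfl, hγ⟩ := hP.loc hr
  obtain ⟨e, he⟩ := hP.lift_isInv hγ
  rw [hf.2 i j y γ hγ, ← he]
  exact mul_pos (abs_pos.2 e.toLinearEquiv.isUnit_det'.ne_zero) h

theorem ACpt_pb (γ : E3 → E3) (a : Fm E3 2) (y u v : E3) :
    pb γ a y ![u, v] = a (γ y) ![fderiv ℝ γ y u, fderiv ℝ γ y v] :=
  congrArg (a (γ y)) (funext fun i => by fin_cases i <;> rfl)

theorem ACpt_d {a b : Fm E3 1} {x : E3} (ha : DifferentiableAt ℝ a x) (hb : DifferentiableAt ℝ b x)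
    (h : DifferentiableAt ℝ (fun y => wd (a y) (b y)) x) (u v z : E3) :
    fderiv ℝ (fun y => wd (a y) (b y)) x u ![v, z] =
      a x ![v] * fderiv ℝ b x u ![z] + b x ![z] * fderiv ℝ a x u ![v] -
        (a x ![z] * fderiv ℝ b x u ![v] + b x ![v] * fderiv ℝ a x u ![z]) := by
  have k := h.hasFDerivAt.continuousAlternatingMap_apply_const ![v, z]
  simp only [wd_apply] at k
  exact DFunLike.congr_fun (k.unique
    (((ha.hasFDerivAt.continuousAlternatingMap_apply_const ![v]).mul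
      (hb.hasFDerivAt.continuousAlternatingMap_apply_const ![z])).sub
      ((ha.hasFDerivAt.continuousAlternatingMap_apply_const ![z]).mul
        (hb.hasFDerivAt.continuousAlternatingMap_apply_const ![v])))) u

theorem gc_wd (hP : P.Good) {a b : P.ι → Fm E3 1} (ha : P.GC a) (hb : P.GC b) :
    P.GC fun i y => wd (a i y) (b i y) := by
  have l : ContDiff ℝ ∞ (lin1 : Alt E3 1 → E3 →L[ℝ] ℝ) :=
    (ContinuousAlternatingMap.ofSubsingletonLIE (𝕜 := ℝ) (E := E3) (F := ℝ)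
      (0 : Fin 1)).symm.contDiff
  have s : ∀ i, Sm (fun y => wd (a i y) (b i y)) (P.W i) := fun i => by
    simpa only [Function.comp_def, Sm, wd] using contDiff_wedge.comp_contDiffOn
      ((l.comp_contDiffOn (ha.1 i).1).prodMk (l.comp_contDiffOn (hb.1 i).1))
  refine ⟨fun i => ⟨s i, fun x hx => alt_ext_three fun u v z => ?_⟩,
    fun i j y γ h => alt_ext_two fun u v => ?_⟩
  · have d1 := (ha.1 i).1.diffAt (hP.opn i) hx
    have d2 := (hb.1 i).1.diffAt (hP.opn i) hx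
    have d3 := (s i).diffAt (hP.opn i) hx
    have e1 := fun u v => sub_eq_zero.1 ((extDeriv_one_apply d1 u v).symm.trans
      (DFunLike.congr_fun ((ha.1 i).2 x hx) _))
    have e2 := fun u v => sub_eq_zero.1 ((extDeriv_one_apply d2 u v).symm.trans
      (DFunLike.congr_fun ((hb.1 i).2 x hx) _))
    rw [extDeriv_two_apply d3, ACpt_d d1 d2 d3, ACpt_d d1 d2 d3, ACpt_d d1 d2 d3, e1 v u, e1 z u,
      e1 z v, e2 v u, e2 z u, e2 z v]
    change _ = (0 : ℝ)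
    ring
  · rw [ACpt_pb, wd_apply, wd_apply, ha.2 i j y γ h, hb.2 i j y γ h]
    simp only [CCmp_pb_one]

theorem Dat.Ok.lift_I (hD : D.Ok) {i j : P.ι} {y : E3} {γ : E3 → E3}
    (hγ : Lift (sl P.r i j) y γ) (v : E3) :
    fderiv ℝ γ y (Complex.I • v) = Complex.I • fderiv ℝ γ y v := by
  obtain ⟨l, -, h⟩ := hD.cmp i j y γ hγ
  obtain ⟨⟨U, hU, -⟩, -⟩ := h.self_of_nhds
  exact (hU _).trans ((U.map_smul _ _).trans (congrArg _ (hU v).symm))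

theorem Dat.Ok.tm_at (hD : D.Ok) (hP : P.Good) {a : P.ι → Fm E3 2} (ha : Pulls P.r a a)
    {i j : P.ι} {y z : E3} (hr : P.r i y j z) (h : Tm (a j z)) : Tm (a i y) := by
  obtain ⟨γ, rfl, hγ⟩ := hP.loc hr
  obtain ⟨e, he⟩ := hP.lift_isInv hγ
  intro v hv
  rw [ha i j y γ hγ, Qf, ACpt_pb, hD.lift_I hγ]
  exact h _ (he ▸ e.map_ne_zero_iff.2 hv)

theorem Dat.Ok.exists_ka (hD : D.Ok) (hP : P.Good) (hK : P.Cpt) : ∃ κ : P.ι → Fm E3 2, P.GC κ ∧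
    ∀ i, ∀ y ∈ P.W i, Inv11 (κ i y) ∧ Tm (κ i y - arC (D.β i y)) := by
  obtain ⟨K, hK1, hK2⟩ := hK
  have := hP.fin
  have c : ∀ {a : P.ι → Fm E3 2}, P.GC a → ∀ i, ContinuousOn (fun p : E3 × E3 => Qf (a i p.1) p.2)
      (K i ×ˢ Metric.sphere 0 1) := fun ha i =>
    ((ha.1 i).1.continuousOn.comp continuousOn_fst fun p hp => (hK1 i).2 hp.1).eval (by fun_prop)
  choose C _ hC using fun i => pos_of_cpt ((hK1 i).1.prod (isCompact_sphere (0 : E3) 1))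
    (c hD.σGC i) (c hD.τGC i)
    (fun p hp => (sq_nonneg _).trans (hD.σge i _ ((hK1 i).2 hp.1) _)) fun p hp =>
      hD.τpos i _ ((hK1 i).2 hp.1) _ (ne_zero_of_mem_unit_sphere ⟨_, hp.2⟩)
  obtain ⟨M, hM⟩ := Finite.bddAbove_range C
  have g := (hD.σGC.smul hP M).add hP hD.τGC
  refine ⟨_, g.add hP hD.σGC, fun i y hy => ⟨(((hD.σinv i y hy).smul M).add (hD.τinv i y hy)).add
    (hD.σinv i y hy), fun v hv => ?_⟩⟩
  obtain ⟨j, z, hz, hr⟩ := hK2 i y hy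
  have t := hD.tm_at hP g.2 hr (fun w hw => by
    have := hC j M (hM ⟨j, rfl⟩) (z, ‖w‖⁻¹ • w)
      ⟨hz, mem_sphere_zero_iff_norm.2 (norm_smul_inv_norm hw)⟩
    rw [← Qf_smul, ← Qf_add, Qf_rsmul] at this
    exact (pos_iff_pos_of_mul_pos this).1 (by positivity)) v hv
  rw [Qf_sub, Qf_add, Qf_arC]
  linarith [hD.σge i y hy v]

theorem Dat.Ok.exists_B (hD : D.Ok) (hP : P.Good) : ∃ B : P.ι → Fm E3 2, P.GC B ∧
    ∀ i, ∀ y ∈ P.W i, IsB (B i y) (D.α i y) (D.β i y) := by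
  refine ⟨_, (gc_wd hP (hD.bGC 0) (hD.bGC 2)).add hP ((gc_wd hP (hD.bGC 1) (hD.bGC 3)).smul hP (-1)),
    fun i y hy u v => ?_⟩
  simp only [ContinuousAlternatingMap.add_apply, ContinuousAlternatingMap.smul_apply, wd_apply,
    hD.b0 i y hy, hD.b1 i y hy, hD.b2 i y hy, hD.b3 i y hy, Complex.sub_re, Complex.mul_re,
    smul_eq_mul]
  ring

theorem ACpt_c {s : Set (ℝ × E3)} {a b c : ℝ × E3 → Alt E3 2} (ha : ContinuousOn a s)
    (hb : ContinuousOn b s) (hc : ContinuousOn c s) :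
    ContinuousOn (fun x => Pf (a x) (b x) (c x)) s := by
  simpa only [Function.comp_def] using continuous_Pf.comp_continuousOn (ha.prodMk (hb.prodMk hc))

theorem exists_R (hP : P.Good) (hK : P.Cpt) (hO : P.Ori) {κ Θ B : P.ι → Fm E3 2} (hκ : P.GS κ)
    (hΘ : P.GS Θ) (hB : P.GS B) (h1 : ∀ i, ∀ y ∈ P.W i, 0 < Pf (κ i y) (κ i y) (κ i y))
    (h2 : ∀ i, ∀ y ∈ P.W i, 0 ≤ Pf (κ i y) (B i y) (B i y))
    (h3 : ∀ i, ∀ y ∈ P.W i, Pf (κ i y) (B i y) (B i y) = 0 → Θ i y = 0)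
    (h4 : ∀ i, ∀ y ∈ P.W i, ∀ a c : ℝ, 0 ≤ a →
      Pf (κ i y + a • Θ i y) (κ i y + a • Θ i y) (κ i y + a • Θ i y) +
        3 * c ^ 2 * Pf (κ i y) (B i y) (B i y) ≤
      Pf (κ i y + a • Θ i y + c • B i y) (κ i y + a • Θ i y + c • B i y)
        (κ i y + a • Θ i y + c • B i y)) {t : ℝ} (ht : 0 ≤ t) :
    ∃ R : ℝ, ∀ s ∈ Icc (0 : ℝ) 1, ∀ i, ∀ y ∈ P.W i,
      0 < Pf (κ i y + (s ^ 2 * t) • Θ i y + (s * R) • B i y)
        (κ i y + (s ^ 2 * t) • Θ i y + (s * R) • B i y)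
        (κ i y + (s ^ 2 * t) • Θ i y + (s * R) • B i y) := by
  obtain ⟨K, hK1, hK2⟩ := hK
  have := hP.fin
  have c : ∀ {a : P.ι → Fm E3 2}, P.GS a → ∀ i, ContinuousOn (fun p : ℝ × E3 => a i p.2)
      (Icc 0 1 ×ˢ K i) := fun ha i =>
    (ha.1 i).continuousOn.comp continuousOn_snd fun p hp => (hK1 i).2 hp.2
  have c' := fun i => (c hκ i).add (ContinuousOn.smul (f := fun p : ℝ × E3 => p.1 ^ 2 * t)
    (by fun_prop) (c hΘ i))
  choose C _ hC using fun i => pos_of_cpt (isCompact_Icc.prod (hK1 i).1)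
    (f := fun p : ℝ × E3 => p.1 ^ 2 * Pf (κ i p.2) (B i p.2) (B i p.2))
    (g := fun p : ℝ × E3 => Pf (κ i p.2 + (p.1 ^ 2 * t) • Θ i p.2)
      (κ i p.2 + (p.1 ^ 2 * t) • Θ i p.2) (κ i p.2 + (p.1 ^ 2 * t) • Θ i p.2))
    ((continuousOn_fst.pow 2).mul (ACpt_c (c hκ i) (c hB i) (c hB i))) (ACpt_c (c' i) (c' i) (c' i))
    (fun p hp => mul_nonneg (sq_nonneg _) (h2 i _ ((hK1 i).2 hp.2))) fun p hp e => by
      rw [show (p.1 ^ 2 * t) • Θ i p.2 = 0 from (mul_eq_zero.1 e).elim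
        (fun e => by rw [e, zero_mul, zero_smul]) fun e => by
          rw [h3 i _ ((hK1 i).2 hp.2) e, smul_zero], add_zero]
      exact h1 i _ ((hK1 i).2 hp.2)
  obtain ⟨M, hM⟩ := Finite.bddAbove_range C
  refine ⟨|M| + 1, fun s hs i y hy => ?_⟩
  obtain ⟨j, z, hz, hr⟩ := hK2 i y hy
  have g := (hκ.add (hΘ.smul (s ^ 2 * t))).add (hB.smul (s * (|M| + 1)))
  refine Dn_pos_at hP (dn_Pf hO g g g) hr (lt_of_lt_of_le ?_
    (h4 j z ((hK1 j).2 hz) _ _ (mul_nonneg (sq_nonneg s) ht)))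
  linarith [hC j (3 * (|M| + 1) ^ 2) ((hM ⟨j, rfl⟩).trans
    (by nlinarith [le_abs_self M, abs_nonneg M])) (s, z) ⟨hs, hz⟩]

end Pool.Agent.Work.MP_bf98aa_gt.Ki
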