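import Pool.Agent.Work.MP_bf98aa_gt.Ki.Stmt
import Pool.Agent.Work.MP_bf98aa_gt.Cp.PDef

/-!
The abstract data from which the theorem follows. See the team-store file `h86_bf98aa_infl.md`.
-/

set_option autoImplicit false

open scoped ContDiff Topology
open Set Filter

namespace Pool.Agent.Work.MP_bf98aa_gt.Ki

open Pool.Agent.Work.MP_bf98aa_gt.Th Pool.Agent.Work.MP_bf98aa_gt.Cp

section
variable {V : Type} [NormedAddCommGroup V] [NormedSpace ℝ V] [NormedSpace ℂ V]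
  [IsScalarTower ℝ ℂ V]

/-- Invariant under multiplication by `i`. -/
def Inv11 (D : Alt V 2) : Prop := ∀ u v, D ![Complex.I • u, Complex.I • v] = D ![u, v]

/-- The associated quadratic form. -/
noncomputable def Qf (D : Alt V 2) (v : V) : ℝ := D ![v, Complex.I • v]

/-- The pull-back of the area form by a complex linear form. -/
noncomputable def arC (α : V →L[ℂ] ℂ) : Alt V 2 :=
  ar.compContinuousLinearMap (α.restrictScalars ℝ)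

/-- The form `l ∧ (- l ∘ i)`. -/
noncomputable def sqF (l : V →L[ℝ] ℝ) : Alt V 2 := wedge l (-(l.comp (mulI V)))

end

/-- The cross product of two complex linear forms, a vector of their common kernel. -/
noncomputable def crs (α β : E3 →L[ℂ] ℂ) : E3 :=
  (α (0, 1, 0) * β (0, 0, 1) - α (0, 0, 1) * β (0, 1, 0),
    α (0, 0, 1) * β (1, 0, 0) - α (1, 0, 0) * β (0, 0, 1),
    α (1, 0, 0) * β (0, 1, 0) - α (0, 1, 0) * β (1, 0, 0))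

/-- The data on a presentation. -/
structure Dat (P : Pres E3) where
  α : P.ι → E3 → E3 →L[ℂ] ℂ
  β : P.ι → E3 → E3 →L[ℂ] ℂ
  b : Fin 4 → P.ι → Fm E3 1
  a : Fin 4 → P.ι → Fm E3 1
  ξ : P.ι → Fm E3 1
  A : P.ι → Fm E3 1
  σ : P.ι → Fm E3 2
  τ : P.ι → Fm E3 2
  ρ : P.ι → Fm E3 2
  Θ : P.ι → Fm E3 2
  f : P.ι → E3 → ℝ
  f' : P.ι → E3 → ℝ
  g : P.ι → E3 → ℝ
  g' : P.ι → E3 → ℝ
  l : P.ι → E3 → E3 →L[ℝ] ℝ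

structure Dat.Ok {P : Pres E3} (D : Dat P) : Prop where
  bGC : ∀ s, P.GC (D.b s)
  b0 : ∀ i, ∀ y ∈ P.W i, ∀ v, D.b 0 i y ![v] = (D.α i y v).re
  b1 : ∀ i, ∀ y ∈ P.W i, ∀ v, D.b 1 i y ![v] = (D.α i y v).im
  b2 : ∀ i, ∀ y ∈ P.W i, ∀ v, D.b 2 i y ![v] = (D.β i y v).re
  b3 : ∀ i, ∀ y ∈ P.W i, ∀ v, D.b 3 i y ![v] = (D.β i y v).im
  aGC : ∀ s, P.GC (D.a s)
  ξGS : P.GS D.ξ
  dξ : ∀ i, ∀ y ∈ P.W i, ∀ u v, extDeriv (D.ξ i) y ![u, v] = D.ρ i y ![u, v] -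
    (D.a 0 i y ![u] * D.a 1 i y ![v] - D.a 0 i y ![v] * D.a 1 i y ![u] +
      (D.a 2 i y ![u] * D.a 3 i y ![v] - D.a 2 i y ![v] * D.a 3 i y ![u]))
  dA : ∀ i, IsD (D.A i) (fun y => (2 * Real.pi) • D.ρ i y) (P.W i)
  cmp : ∀ i j y γ, Lift (sl P.r i j) y γ →
    Cmp γ (fun _ => ContinuousLinearMap.id ℝ E3) (D.A i) (fun _ => ContinuousLinearMap.id ℝ E3)
      (D.A j) y
  σGC : P.GC D.σ
  τGC : P.GC D.τ
  ρGC : P.GC D.ρ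
  ΘGC : P.GC D.Θ
  σinv : ∀ i, ∀ y ∈ P.W i, Inv11 (D.σ i y)
  τinv : ∀ i, ∀ y ∈ P.W i, Inv11 (D.τ i y)
  σge : ∀ i, ∀ y ∈ P.W i, ∀ v, ‖D.β i y v‖ ^ 2 ≤ Qf (D.σ i y) v
  τpos : ∀ i, ∀ y ∈ P.W i, ∀ v, v ≠ 0 → Qf (D.σ i y) v = 0 → 0 < Qf (D.τ i y) v
  ρeq : ∀ i, ∀ y ∈ P.W i, D.ρ i y = D.f i y • arC (D.α i y) + D.f' i y • arC (D.β i y)
  fle : ∀ i, ∀ y ∈ P.W i, D.f i y ≤ 0 ∧ D.f' i y ≤ 0
  Θeq : ∀ i, ∀ y ∈ P.W i, D.Θ i y = D.g i y • sqF (D.l i y) + D.g' i y • D.ρ i y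
  gge : ∀ i, ∀ y ∈ P.W i, 0 ≤ D.g i y ∧ 0 ≤ D.g' i y
  Θzero : ∀ i, ∀ y ∈ P.W i, crs (D.α i y) (D.β i y) = 0 → ∀ᶠ x in 𝓝 y, D.Θ i x = 0
  pt : ∃ i, ∃ y ∈ P.W i, D.f i y < 0 ∧ D.f' i y < 0 ∧ 0 < D.g i y ∧ 0 < D.g' i y ∧
    D.l i y (crs (D.α i y) (D.β i y)) ≠ 0

end Pool.Agent.Work.MP_bf98aa_gt.Ki
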