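import Pool.Agent.Work.MP_bf98aa_gt.Ki.APt
import Pool.Agent.Work.MP_bf98aa_gt.Ki.ACpt
import Pool.Agent.Work.MP_bf98aa_gt.Ki.ABr

/-!
From the abstract data to the theorem.
-/

set_option autoImplicit false

open scoped ContDiff Topology Manifold
open Set Filter MeasureTheory

namespace Pool.Agent.Work.MP_bf98aa_gt.Ki

open Pool.Agent.Work.MP_bf98aa_gt.Th Pool.Agent.Work.MP_bf98aa_gt.Cp

variable {P : Pres E3}

theorem hasI_pos (hP : P.Good) (hK : P.Cpt) (hC : P.Conn) {f : P.ι → E3 → ℝ} (hf : P.Dn f)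
    (h0 : ∀ i, ∀ y ∈ P.W i, 0 ≤ f i y) (h1 : ∃ i, ∃ y ∈ P.W i, 0 < f i y) :
    ∃ c > 0, P.HasI f c := by
  obtain ⟨T, hT⟩ := exists_nice hP hK hC
  obtain ⟨c, hc⟩ := exists_hasI hP hf
  obtain ⟨i, y, hy, h⟩ := h1
  exact ⟨c, Pres.HasI.pos hP T hT hf h0 hy h hc, hc⟩

theorem exists_t (a b : ℝ) {c : ℝ} (hc : 0 < c) : ∃ t, 0 ≤ t ∧ 0 < a + 2 * t * b + t ^ 2 * c := by
  refine ⟨(|a| + 2 * |b|) / c + 1, by positivity, ?_⟩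
  set t := (|a| + 2 * |b|) / c + 1 with ht
  have h1 : 1 ≤ t := by
    have : 0 ≤ (|a| + 2 * |b|) / c := by positivity
    linarith
  have h2 : t * c = |a| + 2 * |b| + c := by
    rw [ht]; field_simp
  have h3 := neg_abs_le a
  have h4 := neg_abs_le b
  have h5 := abs_nonneg a
  have h6 : t ^ 2 * c = t * (|a| + 2 * |b| + c) := by rw [← h2]; ring
  rw [h6]
  nlinarith [mul_nonneg (sub_nonneg.2 h1) h5, mul_nonneg (by linarith : 0 ≤ t) (by linarith : 0 ≤ b + |b|),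
    mul_pos (by linarith : 0 < t) hc]

theorem gc_ws (hP : P.Good) {η : Fin 3 → P.ι → Fm E3 2} (h : ∀ s, P.GC (η s)) (s : ℝ) :
    P.GC (ws η s) :=
  Pres.GC.add hP (Pres.GC.add hP (h 0) (Pres.GC.smul hP (h 1) _)) (Pres.GC.smul hP (h 2) _)

theorem Dat.Ok.main {D : Dat P} (hD : D.Ok) (hP : P.Good) (hK : P.Cpt) (hC : P.Conn) :
    ∃ η : Fin 3 → P.ι → Fm E3 2, (∀ s, P.GC (η s)) ∧
      (∀ i, ∀ y ∈ P.W i, Inv11 (η 0 i y) ∧ Tm (η 0 i y)) ∧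
      (∀ s ∈ Icc (0 : ℝ) 1, ∀ i, ∀ y ∈ P.W i, 0 < Pf (ws η s i y) (ws η s i y) (ws η s i y)) ∧
      (∃ c < 0, P.HasI (fun i y => Pf (D.ρ i y) (ws η 0 i y) (ws η 0 i y)) c) ∧
      (∃ c > 0, P.HasI (fun i y => Pf (D.ρ i y) (ws η 1 i y) (ws η 1 i y)) c) ∧
      ∀ s ∈ Icc (0 : ℝ) 1, ∃ c > 0, P.HasI (fun i y => Pf (D.ρ i y) (D.ρ i y) (ws η s i y)) c := by
  obtain ⟨κ, hκ, hκ'⟩ := hD.exists_ka hP hK
  obtain ⟨B, hB, hB'⟩ := hD.exists_B hP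
  have hp : ∀ i, ∀ y ∈ P.W i, Pt (D.α i y) (D.β i y) (B i y) (κ i y) (D.Θ i y) (D.ρ i y) (D.f i y)
      (D.f' i y) (D.g i y) (D.g' i y) (D.l i y) := fun i y hy =>
    ⟨hB' i y hy, (hκ' i y hy).1, (hκ' i y hy).2, hD.ρeq i y hy, hD.fle i y hy, hD.Θeq i y hy,
      hD.gge i y hy⟩
  have h1 : ∀ i, ∀ y ∈ P.W i, 0 < Pf (κ i y) (κ i y) (κ i y) := fun i y hy => (hp i y hy).tm'.Pf_pos
  have hO : P.Ori := ori_of_pos hP hκ.2 h1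
  obtain ⟨i₀, y₀, hy₀, p1, p2, p3, p4, p5⟩ := hD.pt
  have d0 := dn_Pf hO hD.ρGC.gs hκ.gs hκ.gs
  have d1 := dn_Pf hO hD.ρGC.gs hκ.gs hD.ΘGC.gs
  have d2 := dn_Pf hO hD.ρGC.gs hD.ΘGC.gs hD.ΘGC.gs
  obtain ⟨c0, hc0, I0⟩ := hasI_pos hP hK hC (d0.smul (-1))
    (fun i y hy => by linarith [(hp i y hy).neg.1])
    ⟨i₀, y₀, hy₀, by linarith [(hp i₀ y₀ hy₀).neg.2 p1 p5]⟩
  have I0' : P.HasI (fun i y => Pf (D.ρ i y) (κ i y) (κ i y)) (-1 * c0) :=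
    (I0.smul (-1)).congr fun i y _ => by ring
  obtain ⟨c1, I1⟩ := exists_hasI hP d1
  obtain ⟨c2, hc2, I2⟩ := hasI_pos hP hK hC d2 (fun i y hy => (hp i y hy).thom.1)
    ⟨i₀, y₀, hy₀, (hp i₀ y₀ hy₀).thom.2 p1 p2 p3 p4 p5⟩
  obtain ⟨t, ht, ht'⟩ := exists_t (-1 * c0) c1 hc2
  obtain ⟨R, hR⟩ := exists_R hP hK hO hκ.gs hD.ΘGC.gs hB.gs h1 (fun i y hy => (hp i y hy).BB.1)
    (fun i y hy h => (hD.Θzero i y hy ((hp i y hy).BB.2 h)).self_of_nhds)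
    (fun i y hy a c ha => (hp i y hy).cube ha c) ht
  let η : Fin 3 → P.ι → Fm E3 2 := ![κ, fun i y => t • D.Θ i y, fun i y => R • B i y]
  have hη : ∀ s, P.GC (η s) := fun s => by
    fin_cases s
    exacts [hκ, hD.ΘGC.smul hP t, hB.smul hP R]
  have e : ∀ s i y, ws η s i y = κ i y + (s ^ 2 * t) • D.Θ i y + (s * R) • B i y := fun s i y => by
    rw [mul_smul, mul_smul]; rfl
  refine ⟨η, hη, fun i y hy => ⟨(hκ' i y hy).1, (hp i y hy).tm'⟩,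
    fun s hs i y hy => by rw [e]; exact hR s hs i y hy, ⟨-1 * c0, by linarith, ?_⟩,
    ⟨_, ht', ?_⟩, fun s hs => ?_⟩
  · exact I0'.congr fun i y hy => by rw [e, (hp i y hy).expand]; ring
  · refine ((Pres.HasI.add (d0.add (d1.smul (2 * t))) (d2.smul (t ^ 2))
      (Pres.HasI.add d0 (d1.smul (2 * t)) I0' (I1.smul (2 * t))) (I2.smul (t ^ 2)))).congr
      fun i y hy => ?_
    rw [e, (hp i y hy).expand]; ring
  · have ha : 0 ≤ s ^ 2 * t := by positivity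
    exact hasI_pos hP hK hC (dn_Pf hO hD.ρGC.gs hD.ρGC.gs (gc_ws hP hη s).gs)
      (fun i y hy => by rw [e]; exact ((hp i y hy).sq ha _).1)
      ⟨i₀, y₀, hy₀, by rw [e]; exact ((hp i₀ y₀ hy₀).sq ha _).2 p1 p2 p5⟩

theorem goal_of (P : Pres E3) (hP : P.Good) (hK : P.Cpt) (hC : P.Conn) (D : Dat P) (hD : D.Ok) :
    Goal := by
  obtain ⟨η, hη, h0, hpos, ⟨c0, hc0, I0⟩, ⟨c1, hc1, I1⟩, I2⟩ := hD.main hP hK hC
  obtain ⟨M, i1, i2, i3, i4, i5, i6, ⟨X⟩⟩ := exists_man hP hK hC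
  choose η' hη' using fun s => X.exists_form hP (hη s).2
  choose a' ha' using fun s => X.exists_form hP (hD.aGC s).2
  obtain ⟨ρ', hρ'⟩ := X.exists_form hP hD.ρGC.2
  obtain ⟨σ', hσ'⟩ := X.exists_form hP (Pres.GC.add hP (gc_wd hP (hD.aGC 0) (hD.aGC 1))
    (gc_wd hP (hD.aGC 2) (hD.aGC 3))).2
  have hw := rep_comb hη'
  have e0 : ws η 0 = η 0 := by
    funext i y
    simp [ws]
  obtain ⟨J, hJ1, hJ2, hJ3, hJ4⟩ := exists_J_hol X hP (hw 0) hρ' hD.ρGC hD.dA hD.cmp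
    (by rw [e0]; exact h0)
  obtain ⟨κ, hκ, H⟩ := X.integral hP
  refine ⟨M, i1, i2, i3, i4, i5, i6, η', fun s => comb η' ![1, s ^ 2, s], J, ρ', σ', a',
    fun s => (hη' s).closed (hη s).1, fun _ => rfl,
    fun s hs => ⟨(hw s).closed (gc_ws hP hη s).1, rep_nondeg (hw s) fun i y hy =>
      (hpos s hs i y hy).ne'⟩, hJ1, hJ2, hJ3, hJ4, fun s => (ha' s).closed (hD.aGC s).1,
    rep_wd ha' hσ', rep_exact hP hρ' hσ' hD.ξGS fun i y hy => alt_ext_two fun u v => ?_,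
    ⟨κ * c0, mul_neg_of_pos_of_neg hκ hc0, H _ _ (hw 0) (hpos 0 (by simp)) _ _ c0
      (fun p y hy => hρ'.coef2 (hw 0) (hw 0) p hy) I0⟩,
    ⟨κ * c1, mul_pos hκ hc1, H _ _ (hw 1) (hpos 1 (by simp)) _ _ c1
      (fun p y hy => hρ'.coef2 (hw 1) (hw 1) p hy) I1⟩, fun s hs => ?_⟩
  · rw [hD.dξ i y hy, ContinuousAlternatingMap.sub_apply, ContinuousAlternatingMap.add_apply,
      wd_apply, wd_apply]
  · obtain ⟨c, hc, I⟩ := I2 s hs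
    exact ⟨κ * c, mul_pos hκ hc, H _ _ (hw s) (hpos s hs) _ _ c
      (fun p y hy => hρ'.coef2 hρ' (hw s) p hy) I⟩

end Pool.Agent.Work.MP_bf98aa_gt.Ki
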