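import Pool.Agent.Work.MP_bf98aa_gt.Cp.PPf
import Pool.Agent.Work.MP_bf98aa_gt.Th.FHom

/-!
The Poincare lemma with compact support in the plane.
PLAN. Fix a smooth `g ≥ 0` supported in `[-3/20, 3/20]` with `∫ g = 1`. Let `H y = ∫ F (x + i y) dx` (over `[-1, 1]`), `c = ∫ H`. Put `a (x + i y) = ∫_{-1}^x (F (t + i y) - g t H y) dt` and
`b y = ∫_{-1}^y (H s - c g s) ds`; both vanish outside the square (resp. interval). Then `ξ = a dy - g x b y dx` has `d ξ = (F - g x H y + g x (H y - c g y)) dx dy`.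
Smoothness: write `∫_{-1}^x u = ∫_0^1 (x + 1) u (-1 + t (x + 1)) dt` and use `contDiffOn_integral` of `Th/FHom.lean`; the `x`-derivative by the fundamental theorem of calculus; `extDeriv_one_apply`.
-/

set_option autoImplicit false

open scoped ContDiff Topology
open Set Filter MeasureTheory

namespace Pool.Agent.Work.MP_bf98aa_gt.Ki

open Pool.Agent.Work.MP_bf98aa_gt.Th Pool.Agent.Work.MP_bf98aa_gt.Cp

theorem APoi_sm {u : ℝ × ℝ → ℝ} (hu : ContDiff ℝ ∞ u) :
    ContDiff ℝ ∞ fun p : ℝ × ℝ => ∫ t in (-1 : ℝ)..p.1, u (t, p.2) := by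
  have h : ContDiff ℝ ∞ fun q : ℝ × ℝ × ℝ => (q.2.1 + 1) • u ((q.2.1 + 1) * q.1 + -1, q.2.2) := by
    fun_prop
  have k := contDiffOn_univ.1
    (contDiffOn_integral isOpen_univ h.contDiffOn isOpen_univ fun _ _ _ _ => mem_univ _).1
  refine (congrArg (ContDiff ℝ ∞) (funext fun p => ?_)).mp k
  dsimp only
  rw [intervalIntegral.integral_smul,
    intervalIntegral.smul_integral_comp_mul_add (fun t => u (t, p.2))]
  simp

theorem APoi_van {u : ℝ → ℝ} (hu : Continuous u) (h0 : ∀ t, 3 / 20 < |t| → u t = 0)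
    (h1 : ∫ t in (-1 : ℝ)..1, u t = 0) {x : ℝ} (hx : 3 / 20 < |x|) :
    ∫ t in (-1 : ℝ)..x, u t = 0 := by
  have z : ∀ a b : ℝ, (∀ t ∈ uIcc a b, 3 / 20 < |t|) → ∫ t in a..b, u t = 0 := fun a b h =>
    (intervalIntegral.integral_congr fun t ht => h0 t (h t ht)).trans intervalIntegral.integral_zero
  rcases lt_abs.1 hx with h | h
  · rw [← intervalIntegral.integral_add_adjacent_intervals (hu.intervalIntegrable (-1) 1)
      (hu.intervalIntegrable 1 x), h1, zero_add]
    exact z _ _ fun t ht => lt_abs.2 (Or.inl ((lt_min (by norm_num) h).trans_le ht.1))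
  · refine z _ _ fun t ht => lt_abs.2 (Or.inr ?_)
    have : max (-1) x < -(3 / 20) := max_lt (by norm_num) (by linarith)
    linarith [ht.2]

theorem APoi_g : ∃ g : ℝ → ℝ, ContDiff ℝ ∞ g ∧ (∀ x, 3 / 20 < |x| → g x = 0) ∧
    ∫ t in (-1 : ℝ)..1, g t = 1 := by
  let f : ContDiffBump (0 : ℝ) := ⟨1 / 10, 3 / 20, by norm_num, by norm_num⟩
  have hs : ∀ x, f.normed volume x ≠ 0 → |x| < 3 / 20 := fun x h =>
    mem_ball_zero_iff.1 ((f.support_normed_eq (μ := volume)).le h)
  refine ⟨f.normed volume, f.contDiff_normed, fun x h => by_contra fun k => h.not_gt (hs x k), ?_⟩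
  rw [intervalIntegral.integral_eq_integral_of_support_subset, f.integral_normed]
  intro x hx
  have := abs_lt.1 (hs x hx)
  constructor <;> linarith

theorem APoi_d {A B : ℂ → ℝ} {A' B' : ℂ →L[ℝ] ℝ} {z : ℂ} (hA : HasFDerivAt A A' z)
    (hB : HasFDerivAt B B' z) :
    extDeriv (fun z => A z • alt1 Complex.imCLM - B z • alt1 Complex.reCLM) z =
      (A' 1 + B' Complex.I) • ar := by
  have h := (hA.smul_const (alt1 Complex.imCLM)).fun_sub (hB.smul_const (alt1 Complex.reCLM))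
  have lin : ∀ (L : ℂ →L[ℝ] ℝ) (u : ℂ), L u = u.re * L 1 + u.im * L Complex.I := fun L u => by
    rw [← smul_eq_mul, ← smul_eq_mul, ← L.map_smul, ← L.map_smul, ← L.map_add]
    exact congrArg L (by simp)
  refine alt_ext_two fun u v => ?_
  rw [extDeriv_one_apply h.differentiableAt, h.fderiv]
  simp only [ContinuousLinearMap.sub_apply, ContinuousLinearMap.smulRight_apply,
    ContinuousAlternatingMap.sub_apply, ContinuousAlternatingMap.smul_apply, alt1_apply, ar_apply,
    smul_eq_mul, Matrix.cons_val_zero, Complex.reCLM_apply, Complex.imCLM_apply]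
  rw [lin A' u, lin A' v, lin B' u, lin B' v]
  ring

theorem planar {F : ℂ → ℝ} (hF : ContDiff ℝ ∞ F)
    (h0 : ∀ z : ℂ, 3 / 20 < |z.re| ∨ 3 / 20 < |z.im| → F z = 0) :
    ∃ (g : ℝ → ℝ) (c : ℝ) (ξ : Fm ℂ 1), ContDiff ℝ ∞ g ∧ (∀ x, 3 / 20 < |x| → g x = 0) ∧
      ContDiff ℝ ∞ ξ ∧ (∀ z : ℂ, 3 / 20 < |z.re| ∨ 3 / 20 < |z.im| → ξ z = 0) ∧
      ∀ z : ℂ, extDeriv ξ z = (F z - c * g z.re * g z.im) • ar := by
  obtain ⟨g, g1, g0, gi⟩ := APoi_g
  obtain ⟨G, G1, G0, Ge⟩ : ∃ G : ℝ × ℝ → ℝ, ContDiff ℝ ∞ G ∧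
      (∀ x y, 3 / 20 < |x| ∨ 3 / 20 < |y| → G (x, y) = 0) ∧ ∀ z : ℂ, G (z.re, z.im) = F z :=
    ⟨fun p => F (Complex.equivRealProdCLM.symm p), hF.comp Complex.equivRealProdCLM.symm.contDiff,
      fun x y h => h0 _ h, fun z => rfl⟩
  obtain ⟨H, hH⟩ : ∃ H : ℝ → ℝ, H = fun y => ∫ t in (-1 : ℝ)..1, G (t, y) := ⟨_, rfl⟩
  have H1 : ContDiff ℝ ∞ H := hH ▸ (APoi_sm G1).comp (contDiff_const.prodMk contDiff_id)
  have H0 : ∀ y, 3 / 20 < |y| → H y = 0 := fun y h => by
    simp only [hH, G0 _ y (Or.inr h), intervalIntegral.integral_zero]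
  obtain ⟨c, hc⟩ : ∃ c, c = ∫ s in (-1 : ℝ)..1, H s := ⟨_, rfl⟩
  have u1 : ContDiff ℝ ∞ fun p : ℝ × ℝ => G p - g p.1 * H p.2 :=
    G1.sub ((g1.comp contDiff_fst).mul (H1.comp contDiff_snd))
  have uc : ∀ y, Continuous fun t => G (t, y) - g t * H y := fun y =>
    u1.continuous.comp (continuous_id.prodMk continuous_const)
  have v1 : ContDiff ℝ ∞ fun s => H s - c * g s := H1.sub (contDiff_const.mul g1)
  have a1 := APoi_sm u1
  have b1 : ContDiff ℝ ∞ fun y => ∫ s in (-1 : ℝ)..y, H s - c * g s :=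
    (APoi_sm (v1.comp contDiff_fst)).comp (contDiff_id.prodMk (contDiff_const (c := (0 : ℝ))))
  have A1 := a1.comp Complex.equivRealProdCLM.contDiff
  have B1 := (g1.comp Complex.reCLM.contDiff).mul (b1.comp Complex.imCLM.contDiff)
  refine ⟨g, c, fun z => (∫ t in (-1 : ℝ)..z.re, G (t, z.im) - g t * H z.im) • alt1 Complex.imCLM -
    (g z.re * ∫ s in (-1 : ℝ)..z.im, H s - c * g s) • alt1 Complex.reCLM, g1, g0,
    (A1.smul contDiff_const).sub (B1.smul contDiff_const), fun z h => ?_, fun z => ?_⟩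
  · have ea : ∫ t in (-1 : ℝ)..z.re, G (t, z.im) - g t * H z.im = 0 := by
      rcases h with h | h
      · refine APoi_van (uc _) (fun t k => by rw [G0 t _ (Or.inl k), g0 t k]; simp) ?_ h
        rw [intervalIntegral.integral_sub (f := fun t => G (t, z.im))
          ((G1.continuous.comp (continuous_id.prodMk continuous_const)).intervalIntegrable _ _)
          ((g1.continuous.intervalIntegrable _ _).mul_const _),
          intervalIntegral.integral_mul_const, gi, one_mul, hH, sub_self]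
      · simp [G0 _ _ (Or.inr h), H0 _ h]
    have eb : g z.re * ∫ s in (-1 : ℝ)..z.im, H s - c * g s = 0 := by
      rcases h with h | h
      · rw [g0 _ h, zero_mul]
      · refine mul_eq_zero_of_right _
          (APoi_van v1.continuous (fun t k => by rw [H0 t k, g0 t k]; simp) ?_ h)
        rw [intervalIntegral.integral_sub (H1.continuous.intervalIntegrable _ _)
          ((g1.continuous.intervalIntegrable _ _).const_mul _),
          intervalIntegral.integral_const_mul, gi, mul_one, hc, sub_self]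
    beta_reduce
    rw [ea, eb, zero_smul, zero_smul, sub_zero]
  · have da := a1.differentiable (by simp) (z.re, z.im)
    have ea := (FHom_left da).unique ((uc z.im).integral_hasStrictDerivAt (-1) z.re).hasDerivAt
    have dA := da.hasFDerivAt.comp z Complex.equivRealProdCLM.hasFDerivAt
    have dB := ((g1.differentiable (by simp) z.re).hasDerivAt.comp_hasFDerivAt z
      Complex.reCLM.hasFDerivAt).mul
      ((v1.continuous.integral_hasStrictDerivAt (-1) z.im).hasDerivAt.comp_hasFDerivAt z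
        Complex.imCLM.hasFDerivAt)
    refine (APoi_d dA dB).trans (congrArg (· • ar) ?_)
    rw [← Ge]
    refine (congrArg (· + _) ea).trans ?_
    simp
    ring

end Pool.Agent.Work.MP_bf98aa_gt.Ki
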