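import Pool.Agent.Work.MP_bf98aa_gt.Ki.AAlg

/-!
The pointwise inequalities (page, A3 and A4).
PLAN. Expand by multilinearity and symmetry of `Pf`; write `e = crs α β`, `sqF l = arC γ` (`sqF_eq`); `Pf X ρ ρ = 2 f f' Qf X e`, `Qf ρ e = 0`, `Qf Θ e = g ‖γ e‖² ≥ 0`, `Pf X (arC γ) (arC γ) = 0`.
`neg`: `κ = κ'' + arC β` with `κ''` tamed, `Pf (arC α) κ κ = Pf (arC α) κ'' κ'' + 2 Qf κ'' e`.
-/

set_option autoImplicit false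

open scoped ContDiff Topology
open Set Filter MeasureTheory

namespace Pool.Agent.Work.MP_bf98aa_gt.Ki

open Pool.Agent.Work.MP_bf98aa_gt.Th Pool.Agent.Work.MP_bf98aa_gt.Cp

variable {α β : E3 →L[ℂ] ℂ} {B κ Θ ρ : Alt E3 2} {f f' g g' a c : ℝ} {l : E3 →L[ℝ] ℝ}

theorem APt_self (X : Alt E3 2) (γ : E3 →L[ℂ] ℂ) : Pf X (arC γ) (arC γ) = 0 := by
  rw [Pf_arC, crs_self, Qf_zero]

theorem APt_sq (X Y Z : Alt E3 2) (c : ℝ) :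
    Pf X (Y + c • Z) (Y + c • Z) = Pf X Y Y + 2 * c * Pf X Y Z + c ^ 2 * Pf X Z Z := by
  simp only [Pf_add2, Pf_add3, Pf_smul2, Pf_smul3, Pf_sw3 X Z Y]
  ring

theorem APt_rot (X Y Z : Alt E3 2) : Pf X Y Z = Pf Z X Y := by
  rw [Pf_sw3, PPf_sw1]

theorem APt_nn {D : Alt E3 2} (h : Tm D) (v : E3) : 0 ≤ Qf D v := by
  by_cases hv : v = 0
  · rw [hv, Qf_zero]
  · exact (h v hv).le

theorem APt_ne (hl : l (crs α β) ≠ 0) : crs α β ≠ 0 := fun e => hl (by rw [e, map_zero])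

theorem APt_ρρ (h : Pt α β B κ Θ ρ f f' g g' l) (X : Alt E3 2) :
    Pf X ρ ρ = 2 * (f * f') * Qf X (crs α β) := by
  rw [h.ρeq, APt_sq, Pf_smul2, Pf_smul3, Pf_smul2, APt_self, APt_self, Pf_arC]
  ring

theorem APt_Qρ (h : Pt α β B κ Θ ρ f f' g g' l) : Qf ρ (crs α β) = 0 := by
  rw [h.ρeq, Qf_add, Qf_smul, Qf_smul, Qf_arC, Qf_arC, (crs_ker α β).1, (crs_ker α β).2]
  simp

theorem APt_QΘ (h : Pt α β B κ Θ ρ f f' g g' l) : 0 ≤ Qf Θ (crs α β) := by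
  obtain ⟨γ, hγ, -⟩ := sqF_eq l
  rw [h.Θeq, Qf_add, Qf_smul, Qf_smul, APt_Qρ h, hγ, Qf_arC, mul_zero, add_zero]
  exact mul_nonneg h.gge.1 (sq_nonneg _)

theorem APt_invρ (h : Pt α β B κ Θ ρ f f' g g' l) : Inv11 ρ :=
  h.ρeq ▸ ((inv11_arC α).smul f).add ((inv11_arC β).smul f')

theorem APt_invD (h : Pt α β B κ Θ ρ f f' g g' l) (a : ℝ) : Inv11 (κ + a • Θ) := by
  obtain ⟨γ, hγ, -⟩ := sqF_eq l
  refine h.inv.add (Inv11.smul ?_ a)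
  rw [h.Θeq, hγ]
  exact ((inv11_arC γ).smul g).add ((APt_invρ h).smul g')

theorem Pt.tm' (h : Pt α β B κ Θ ρ f f' g g' l) : Tm κ := by
  intro v hv
  have h1 := h.tm v hv
  rw [Qf_sub, Qf_arC] at h1
  linarith [sq_nonneg ‖β v‖]

theorem Pt.BB (h : Pt α β B κ Θ ρ f f' g g' l) :
    0 ≤ Pf κ B B ∧ (Pf κ B B = 0 → crs α β = 0) := by
  rw [h.isB.Pf_BB]
  refine ⟨by linarith [APt_nn h.tm' (crs α β)], fun e => by_contra fun hv => ?_⟩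
  linarith [h.tm' _ hv]

theorem Pt.cube (h : Pt α β B κ Θ ρ f f' g g' l) (ha : 0 ≤ a) (c : ℝ) :
    Pf (κ + a • Θ) (κ + a • Θ) (κ + a • Θ) + 3 * c ^ 2 * Pf κ B B ≤
      Pf (κ + a • Θ + c • B) (κ + a • Θ + c • B) (κ + a • Θ + c • B) := by
  have hD := APt_invD h a
  have h1 : Pf κ B B ≤ Pf (κ + a • Θ) B B := by
    rw [h.isB.Pf_BB, h.isB.Pf_BB, Qf_add, Qf_smul]
    linarith [mul_nonneg ha (APt_QΘ h)]
  generalize κ + a • Θ = D at hD h1 ⊢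
  have h2 : Pf D D B = 0 := h.isB.Pf_B hD hD
  have h3 : Pf B B B = 0 := by rw [h.isB.Pf_BB, h.isB.Qf_crs, mul_zero]
  rw [Pf_add, Pf_smul, APt_sq, APt_sq, h2, h3, ← APt_rot D D B, h2, PPf_sw1 B D B]
  nlinarith [mul_le_mul_of_nonneg_left h1 (sq_nonneg c)]

theorem Pt.neg (h : Pt α β B κ Θ ρ f f' g g' l) :
    Pf ρ κ κ ≤ 0 ∧ (f < 0 → l (crs α β) ≠ 0 → Pf ρ κ κ < 0) := by
  have h1 := h.tm'.Pf_arC α
  have h2 := h.tm'.Pf_arC β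
  have h3 : Pf ρ κ κ = f * Pf (arC α) κ κ + f' * Pf (arC β) κ κ := by
    rw [h.ρeq, Pf_add, Pf_smul, Pf_smul]
  have h4 := mul_nonpos_of_nonpos_of_nonneg h.fle.2 h2
  refine ⟨by linarith [mul_nonpos_of_nonpos_of_nonneg h.fle.1 h1], fun hf hl => ?_⟩
  have h5 := APt_sq (arC α) (κ - arC β) (arC β) 1
  rw [one_smul, sub_add_cancel, APt_self, PPf_sw1 (arC α) (κ - arC β) (arC β), Pf_arC] at h5
  have h6 : 0 < Pf (arC α) κ κ := by linarith [h.tm.Pf_arC α, h.tm _ (APt_ne hl)]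
  linarith [mul_neg_of_neg_of_pos hf h6]

theorem Pt.expand (h : Pt α β B κ Θ ρ f f' g g' l) (a c : ℝ) :
    Pf ρ (κ + a • Θ + c • B) (κ + a • Θ + c • B) =
      Pf ρ κ κ + 2 * a * Pf ρ κ Θ + a ^ 2 * Pf ρ Θ Θ := by
  rw [APt_sq, h.isB.Pf_B (APt_invρ h) (APt_invD h a), h.isB.Pf_BB, APt_Qρ h, APt_sq]
  ring

theorem Pt.thom (h : Pt α β B κ Θ ρ f f' g g' l) : 0 ≤ Pf ρ Θ Θ ∧
    (f < 0 → f' < 0 → 0 < g → 0 < g' → l (crs α β) ≠ 0 → 0 < Pf ρ Θ Θ) := by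
  obtain ⟨γ, hγ, hl⟩ := sqF_eq l
  have h1 : Pf ρ Θ Θ = 4 * (g * g') * (f * f') * ‖γ (crs α β)‖ ^ 2 := by
    rw [h.Θeq, APt_sq, hγ, Pf_smul2, Pf_smul3, Pf_smul2, APt_self, PPf_sw1 ρ (arC γ) ρ, APt_ρρ h,
      APt_ρρ h, APt_Qρ h, Qf_arC]
    ring
  rw [h1]
  refine ⟨?_, fun hf hf' hg hg' h0 => ?_⟩
  · have h2 := mul_nonneg h.gge.1 h.gge.2
    have h3 := mul_nonneg_of_nonpos_of_nonpos h.fle.1 h.fle.2
    positivity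
  · have h2 := mul_pos_of_neg_of_neg hf hf'
    have h3 : 0 < ‖γ (crs α β)‖ := norm_pos_iff.2 fun e => h0 (by rw [← hl, e, Complex.zero_re])
    positivity

theorem Pt.sq (h : Pt α β B κ Θ ρ f f' g g' l) (ha : 0 ≤ a) (c : ℝ) :
    0 ≤ Pf ρ ρ (κ + a • Θ + c • B) ∧
      (f < 0 → f' < 0 → l (crs α β) ≠ 0 → 0 < Pf ρ ρ (κ + a • Θ + c • B)) := by
  rw [APt_rot, APt_ρρ h, Qf_add, Qf_add, Qf_smul, Qf_smul, h.isB.Qf_crs, mul_zero, add_zero]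
  have h1 := mul_nonneg ha (APt_QΘ h)
  refine ⟨?_, fun hf hf' h0 => ?_⟩
  · have h2 := APt_nn h.tm' (crs α β)
    have h3 := mul_nonneg_of_nonpos_of_nonpos h.fle.1 h.fle.2
    positivity
  · have h2 := h.tm' _ (APt_ne h0)
    have h3 := mul_pos_of_neg_of_neg hf hf'
    positivity

end Pool.Agent.Work.MP_bf98aa_gt.Ki
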