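import Pool.Agent.Work.MP_bf98aa_gt.Ki.ADef
import Pool.Agent.Work.MP_bf98aa_gt.Cp.PStk
import Pool.Agent.Work.MP_bf98aa_gt.Cp.PBr3

/-!
Working definitions for part A.
-/

set_option autoImplicit false

open scoped ContDiff Topology
open Set Filter MeasureTheory

namespace Pool.Agent.Work.MP_bf98aa_gt.Ki

open Pool.Agent.Work.MP_bf98aa_gt.Th Pool.Agent.Work.MP_bf98aa_gt.Cp

section
variable {V : Type} [NormedAddCommGroup V] [NormedSpace ℝ V]

/-- The linear form of an alternating 1-form. -/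
noncomputable def lin1 (a : Alt V 1) : V →L[ℝ] ℝ :=
  (ContinuousAlternatingMap.ofSubsingletonLIE (0 : Fin 1)).symm a

/-- The product of two alternating 1-forms. -/
noncomputable def wd (a b : Alt V 1) : Alt V 2 := wedge (lin1 a) (lin1 b)

variable [NormedSpace ℂ V] [IsScalarTower ℝ ℂ V]

/-- Tamed by `i`. -/
def Tm (D : Alt V 2) : Prop := ∀ v, v ≠ 0 → 0 < Qf D v

/-- `B` is the real part of `α ∧ β`. -/
def IsB (B : Alt V 2) (α β : V →L[ℂ] ℂ) : Prop := ∀ u v, B ![u, v] = (α u * β v - α v * β u).re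

end

/-- The pointwise data. -/
structure Pt (α β : E3 →L[ℂ] ℂ) (B κ Θ ρ : Alt E3 2) (f f' g g' : ℝ) (l : E3 →L[ℝ] ℝ) : Prop where
  isB : IsB B α β
  inv : Inv11 κ
  tm : Tm (κ - arC β)
  ρeq : ρ = f • arC α + f' • arC β
  fle : f ≤ 0 ∧ f' ≤ 0
  Θeq : Θ = g • sqF l + g' • ρ
  gge : 0 ≤ g ∧ 0 ≤ g'

/-- The path of forms. -/
noncomputable def ws {ι : Type} (η : Fin 3 → ι → Fm E3 2) (s : ℝ) (i : ι) : Fm E3 2 :=
  fun y => η 0 i y + s ^ 2 • η 1 i y + s • η 2 i y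

end Pool.Agent.Work.MP_bf98aa_gt.Ki
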