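import Pool.Agent.Work.MP_bf98aa_gt.Ki.BMan

/-!
The quotient is compact and connected.

PLAN. `PM_cpt`: `RR_cpt` for the three factors gives `K k`; take `B ≥ 1` bounding all of them; `K' i = closedBall 0 B ∩ {p | ∀ k, tP i.2 p k ∈ K k (i.1 k)}`; `exists_den`, `TR_act`.
`W_two_pre`: `W (i, 2) = {(a, b, t) | a ∈ DC, b ∈ DC, ‖t ^ 2 a b‖ < 4 / 25}` (or empty) by `DmC`, `DmE`; every point is joined to `(a, b, 0)` by the segment in `t`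
(`isPreconnected_of_forall` with the sets `DC × DC × {0} ∪ segment`). `lnk_two`: `lnkC`, `lnkE`, `RR_of`, the point `(x0 ^ 2, x1 ^ 2, x2 / (x0 x1))`, `denA_two`, `TR_act`.
`PM_conn`: all points of the charts `(i, 2)` lie on the same side of `Z`; a point `p` of any chart lies in the open set `W ∩ Z` or `W \ Z`, which contains a point with `t0 ≠ 0` (`dense_t0`),
and that point is related to a point of the chart `(i.1, 2)` (`tv_ne`, `denA_two`, `TR_act`, `RR_refl`).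
-/

set_option autoImplicit false

noncomputable section

open scoped ContDiff Topology
open Set Filter

namespace Pool.Agent.Work.MP_bf98aa_gt.Ki

open Pool.Agent.Work.MP_bf98aa_gt.Th Pool.Agent.Work.MP_bf98aa_gt.Cp

theorem BCpt_r {i : Jx} {p : E3} {b : Fin 3 → Ix} {m : Fin 3 → ℂ} {S : Fin 4}
    (h : ∀ k, RR (rk k) (i.1 k) (tP i.2 p k) (b k) (m k)) (hd : DenA m i.2 S p) :
    Rm m i p (b, S) (act m i.2 S p) :=
  ⟨h, TR_act (fun k => (h k).ne) hd⟩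

theorem PM_cpt : PM.Cpt := by
  choose K hK hK' using fun k => RR_cpt (fack k)
  have hc : IsCompact (⋃ k, ⋃ j, K k j) :=
    isCompact_iUnion fun k => isCompact_iUnion fun j => (hK k j).1
  obtain ⟨B, hB⟩ := hc.isBounded.exists_norm_le
  refine ⟨fun i : Jx => Metric.closedBall 0 (max 1 B) ∩
    ⋂ k, (fun p => tP i.2 p k) ⁻¹' K k (i.1 k), fun i => ⟨?_, ?_⟩, fun i p hp => ?_⟩
  · refine (isCompact_closedBall _ _).inter_right (isClosed_iInter fun k => ?_)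
    exact (hK k _).1.isClosed.preimage
      (continuous_iff_continuousAt.2 fun p => (analyticAt_tP _ k p).continuousAt)
  · exact fun p hp k => (hK k _).2 (mem_iInter.1 hp.2 k)
  · choose b m hm hm' using fun k => hK' k (i.1 k) _ (hp k)
    obtain ⟨S, hS, hn⟩ := exists_den (fun k => (hm k).ne) i.2 p (le_max_left 1 B) fun k =>
      (hB _ (mem_iUnion.2 ⟨k, mem_iUnion.2 ⟨_, hm' k⟩⟩)).trans (le_max_right _ _)
    have hr := BCpt_r hm hS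
    refine ⟨(b, S), act m i.2 S p, ⟨mem_closedBall_zero_iff.2 hn, mem_iInter.2 fun k => ?_⟩, m, hr⟩
    have := (hr.2 k).1
    rw [mem_preimage]
    exact this ▸ hm' k

theorem BCpt_mem (a : Fin 3 → Ix) (p : E3) : p ∈ PM.W (a, 2) ↔
    ((a 0).2 = false ∧ p.1 ∈ DC) ∧ ((a 1).2 = false ∧ p.2.1 ∈ DC) ∧
      ‖p.2.2 ^ 2 * p.1 * p.2.1‖ < 4 / 25 := by
  have e : p ∈ PM.W (a, 2) ↔ p.1 ∈ Dm WC (a 0) ∧ p.2.1 ∈ Dm WC (a 1) ∧
      p.2.2 ^ 2 * p.1 * p.2.1 ∈ Dm WE (a 2) := by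
    refine ⟨fun h => ⟨h 0, h 1, h 2⟩, fun h k => ?_⟩
    fin_cases k
    exacts [h.1, h.2.1, h.2.2]
  rw [e, DmC, DmC, DmE, mem_ball_zero_iff]
  rfl

theorem BCpt_zero : (0 : ℂ) ∈ DC := (DC_small (by norm_num)).1

theorem W_two_pre (a : Fin 3 → Ix) : IsPreconnected (PM.W (a, 2)) := by
  refine isPreconnected_of_forall (0 : E3) fun y hy => ?_
  obtain ⟨h0, h1, h2⟩ := (BCpt_mem a y).1 hy
  refine ⟨DC ×ˢ DC ×ˢ {0} ∪ (fun t : ℝ => ((y.1, y.2.1, (t : ℂ) * y.2.2) : E3)) '' Icc 0 1, ?_,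
    Or.inl ⟨BCpt_zero, BCpt_zero, rfl⟩, Or.inr ⟨1, by simp, by simp⟩, ?_⟩
  · rintro x (⟨a1, a2, a3⟩ | ⟨t, ht, rfl⟩) <;> rw [BCpt_mem]
    · refine ⟨⟨h0.1, a1⟩, ⟨h1.1, a2⟩, ?_⟩
      rw [mem_singleton_iff.1 a3]
      norm_num
    · refine ⟨h0, h1, lt_of_le_of_lt ?_ h2⟩
      have e : ((t : ℂ) * y.2.2) ^ 2 * y.1 * y.2.1 = (t : ℂ) ^ 2 * (y.2.2 ^ 2 * y.1 * y.2.1) := by
        ring
      rw [e, norm_mul]
      refine mul_le_of_le_one_left (norm_nonneg _) ?_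
      rw [norm_pow, Complex.norm_real, Real.norm_of_nonneg ht.1]
      exact pow_le_one₀ ht.1 ht.2
  · refine IsPreconnected.union ((y.1, y.2.1, 0) : E3) ⟨h0.2, h1.2, rfl⟩ ⟨0, by simp, by simp⟩
      (DC_pre.prod (DC_pre.prod isPreconnected_singleton))
      (isPreconnected_Icc.image _ (Continuous.continuousOn (by fun_prop)))

theorem lnk_two {a b : Fin 3 → Ix} (ha : (a 0).2 = false ∧ (a 1).2 = false)
    (hb : (b 0).2 = false ∧ (b 1).2 = false) : ∃ p q, PM.r (a, 2) p (b, 2) q := by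
  obtain ⟨x0, z0, n0, r0⟩ := lnkC ha.1 hb.1
  obtain ⟨x1, z1, n1, r1⟩ := lnkC ha.2 hb.2
  obtain ⟨x2, z2, -, r2⟩ := lnkE (a 2) (b 2)
  obtain ⟨m0, s0, -⟩ := RR_of facC r0
  obtain ⟨m1, s1, -⟩ := RR_of facC r1
  obtain ⟨m2, s2, -⟩ := RR_of facE r2
  have e : x2 ^ 2 = (x2 / (x0 * x1)) ^ 2 * x0 ^ 2 * x1 ^ 2 := by field_simp
  rw [e] at s2
  have h : ∀ k, RR (rk k) (a k) (tP 2 (x0 ^ 2, x1 ^ 2, x2 / (x0 * x1)) k) (b k)
      (![m0, m1, m2] k) := fun k => by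
    fin_cases k
    exacts [s0, s1, s2]
  exact ⟨_, _, _, BCpt_r (i := (a, 2)) h (denA_two (fun k => (h k).ne) one_ne_zero)⟩

theorem BCpt_two {i : Jx} {U : Set E3} (hU : IsOpen U) (hW : U ⊆ PM.W i) (hn : U.Nonempty) :
    ∃ p ∈ U, ∃ q ∈ PM.W (i.1, 2), PM.r i p (i.1, 2) q := by
  obtain ⟨p, hp, h0⟩ := dense_t0.inter_open_nonempty U hU hn
  have h := BCpt_r (i := i) (m := fun _ => 1) (fun k => RR_refl (fack k) (hW hp k))
    (denA_two (fun _ => one_ne_zero) (tv_ne i.2 h0))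
  exact ⟨p, hp, _, h.mem.2, _, h⟩

theorem PM_conn : PM.Conn := by
  refine ⟨⟨(fun _ => (false, false), 2), 0, (BCpt_mem _ _).2
    ⟨⟨rfl, BCpt_zero⟩, ⟨rfl, BCpt_zero⟩, by norm_num⟩⟩, fun Z h1 h2 hZ i j y hy z hz hyZ => ?_⟩
  have s1 : ∀ a : Fin 3 → Ix, ∀ p ∈ PM.W (a, 2), ∀ q ∈ PM.W (a, 2),
      p ∈ Z (a, 2) → q ∈ Z (a, 2) := fun a p hp q hq hpZ =>
    ((W_two_pre a).subset_left_of_subset_union (h1 _) (h2 _)
      (disjoint_left.2 fun x hx hx' => hx'.2 hx.2) (inter_union_sdiff _ _).ge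
      ⟨p, hp, hp, hpZ⟩ hq).2
  by_contra hzZ
  obtain ⟨p, hp, p', hp', rp⟩ := BCpt_two (h1 i) inter_subset_left ⟨y, hy, hyZ⟩
  obtain ⟨q, hq, q', hq', rq⟩ := BCpt_two (h2 j) sdiff_subset ⟨z, hz, hzZ⟩
  obtain ⟨a0, a1, -⟩ := (BCpt_mem _ _).1 hp'
  obtain ⟨b0, b1, -⟩ := (BCpt_mem _ _).1 hq'
  obtain ⟨u, v, m, hm⟩ := lnk_two ⟨a0.1, a1.1⟩ ⟨b0.1, b1.1⟩
  have t1 := s1 _ _ hp' _ hm.mem.1 (hZ _ _ _ _ rp hp.2)
  have t2 := s1 _ _ hm.mem.2 _ hq' (hZ _ _ _ _ ⟨m, hm⟩ t1)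
  exact hq.2 (hZ _ _ _ _ (PM_good.symm rq) t2)

end Pool.Agent.Work.MP_bf98aa_gt.Ki
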