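import Pool.Agent.Work.MP_bf98aa_gt.Ki.BDef
import Pool.Agent.Work.MP_bf98aa_gt.Ki.AAlg
import Pool.Agent.Work.MP_bf98aa_gt.Cp.CCmp
import Pool.Agent.Work.MP_bf98aa_gt.Cp.PPf

/-!
Calculus of `dc` and `ddc`.

PLAN. `arC_apply`, `Qf_arC`, `inv11_arC`, `Inv11.add`, `Qf_add`, `Qf_smul` are in Ki/AAlg. `dc_apply`: `alt1_apply`, `mulI_apply`. `ddc_apply`: `extDeriv_one_apply`, derivative of `x ↦ dc f x ![v] = - fderiv f x (I • v)`. `inv_ddc`: `D2_symm`, `I • I • v = -v`.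
`dc_pb`: chain rule, `fderiv ℝ γ x = (fderiv ℂ γ x).restrictScalars ℝ` (`HasFDerivAt.restrictScalars`) is complex linear. `ddc_pb`: `dc_pb` near `x` (`AnalyticAt.eventually_analyticAt`), `extDeriv_pb`.
`dc_log`: `fderiv (log ‖c‖ ^ 2) v = 2 re (dc v / c)`. `ddc_log`: near `x` the form is `2 • CCmp_lg c`, `CCmp_lg_d`. `cmp_dc`: `l = det (fderiv ℂ γ ·)`, analytic (`AnalyticAt.fderiv`; the determinant
is a polynomial: `ContinuousLinearMap.det`, or use only smoothness of `l` from the hypothesis `hl`). `ddc_comp`, `ddc_mul`: compute `dc` near `x`, then `extDeriv_one_apply` (product rule), or `ddc_apply` and second derivatives.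
`ddc_normSq`: pull back from `ℂ` by `ddc_pb`, or `ddc_mul`.
-/

set_option autoImplicit false

noncomputable section

open scoped ContDiff Topology
open Set Filter

namespace Pool.Agent.Work.MP_bf98aa_gt.Ki

open Pool.Agent.Work.MP_bf98aa_gt.Th Pool.Agent.Work.MP_bf98aa_gt.Cp

variable {V V' : Type} [NormedAddCommGroup V] [NormedSpace ℝ V] [NormedSpace ℂ V]
  [IsScalarTower ℝ ℂ V] [FiniteDimensional ℝ V] [FiniteDimensional ℂ V] [NormedAddCommGroup V']
  [NormedSpace ℝ V'] [NormedSpace ℂ V'] [IsScalarTower ℝ ℂ V'] [FiniteDimensional ℝ V']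
  [FiniteDimensional ℂ V'] {f g : V → ℝ} {x : V} {c : V → ℂ}

theorem an_sm {γ : V → V'} (h : AnalyticAt ℂ γ x) : ContDiffAt ℝ ∞ γ x := by
  exact h.contDiffAt.restrict_scalars ℝ

theorem an_fderiv {γ : V → V'} (h : AnalyticAt ℂ γ x) (v : V) : fderiv ℝ γ x v = fderiv ℂ γ x v := by
  rw [(h.differentiableAt.hasFDerivAt.restrictScalars ℝ).fderiv]
  rfl

theorem arC_smul (a : ℂ) (α : V →L[ℂ] ℂ) : arC (a • α) = ‖a‖ ^ 2 • arC α := by
  refine alt_ext_two fun u v => ?_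
  rw [ContinuousAlternatingMap.smul_apply, arC_apply, arC_apply, Complex.sq_norm,
    Complex.normSq_apply]
  simp only [smul_apply, smul_eq_mul, Complex.mul_re, Complex.mul_im]
  ring

theorem pb_ar (h : AnalyticAt ℂ c x) (s : ℂ → ℝ) :
    pb c (fun z => s z • ar) x = s (c x) • arC (fderiv ℂ c x) := by
  rw [pb_fun_smul, pb, (h.differentiableAt.hasFDerivAt.restrictScalars ℝ).fderiv]
  rfl

theorem Qf_sqF (l : V →L[ℝ] ℝ) (v : V) : Qf (sqF l) v = l v ^ 2 + l (Complex.I • v) ^ 2 := by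
  rw [Qf, sqF, wedge_apply]
  change l v * -l (Complex.I • Complex.I • v) - l (Complex.I • v) * -l (Complex.I • v) = _
  rw [smul_smul, Complex.I_mul_I, neg_one_smul, map_neg]
  ring

theorem dc_apply (f : V → ℝ) (x v : V) : dc f x ![v] = -fderiv ℝ f x (Complex.I • v) := by
  rfl

theorem dc_sm (h : ContDiffAt ℝ ∞ f x) : ContDiffAt ℝ ∞ (dc f) x := by
  exact contDiff_alt1.contDiffAt.comp x
    ((h.fderiv_right (m := ∞) le_rfl).clm_comp contDiffAt_const).neg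

theorem ddc_apply (h : ContDiffAt ℝ ∞ f x) (u v : V) :
    ddc f x ![u, v] = D2 f x v (Complex.I • u) - D2 f x u (Complex.I • v) := by
  have h1 : ∀ a b : V, fderiv ℝ (dc f) x a ![b] = -D2 f x a (Complex.I • b) := by
    intro a b
    have e1 := ((ContinuousAlternatingMap.apply ℝ V ℝ ![b]).hasFDerivAt.comp x
      ((dc_sm h).differentiableAt (by simp)).hasFDerivAt)
    have e2 := ((ContinuousLinearMap.apply ℝ ℝ (Complex.I • b)).hasFDerivAt.comp x
      ((h.fderiv_right (m := ∞) le_rfl).differentiableAt (by simp)).hasFDerivAt).neg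
    exact congrArg (fun L : V →L[ℝ] ℝ => L a) (e1.unique e2)
  rw [ddc, extDeriv_one_apply ((dc_sm h).differentiableAt (by simp)), h1, h1]
  ring

theorem inv_ddc (h : ContDiffAt ℝ ∞ f x) : Inv11 (ddc f x) := by
  intro u v
  rw [ddc_apply h, ddc_apply h, smul_smul, smul_smul, Complex.I_mul_I, neg_one_smul, neg_one_smul,
    map_neg, map_neg, D2_symm h (Complex.I • v), D2_symm h (Complex.I • u)]
  ring

theorem isD_dc {U : Set V} (hU : IsOpen U) (h : ContDiffOn ℝ ∞ f U) : IsD (dc f) (ddc f) U := by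
  exact ⟨fun y hy => (dc_sm (h.contDiffAt (hU.mem_nhds hy))).contDiffWithinAt, fun _ _ => rfl⟩

theorem cl_ddc {U : Set V} (hU : IsOpen U) (h : ContDiffOn ℝ ∞ f U) : Cl (ddc f) U := by
  exact (isD_dc hU h).cl hU

theorem dc_congr (h : f =ᶠ[𝓝 x] g) : dc f =ᶠ[𝓝 x] dc g := by
  exact h.fderiv.mono fun y hy => by rw [dc, dc, hy]

theorem ddc_congr (h : f =ᶠ[𝓝 x] g) : ddc f x = ddc g x := by
  exact (dc_congr h).extDeriv_eq

theorem ddc_const (a : ℝ) (x : V) : ddc (fun _ => a) x = 0 := by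
  have e : dc (fun _ : V => a) = fun _ => 0 :=
    funext fun y => alt_ext_one fun v => by simp [dc_apply]
  rw [ddc, e, extDeriv_const]

theorem BDc_ev (h : ContDiffAt ℝ ∞ f x) : ∀ᶠ y in 𝓝 x, DifferentiableAt ℝ f y :=
  ((h.of_le (m := 1) (by simp)).eventually (by simp)).mono fun _ e => e.differentiableAt one_ne_zero

theorem ddc_add (hf : ContDiffAt ℝ ∞ f x) (hg : ContDiffAt ℝ ∞ g x) :
    ddc (fun y => f y + g y) x = ddc f x + ddc g x := by
  have e : dc (fun y => f y + g y) =ᶠ[𝓝 x] dc f + dc g := by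
    filter_upwards [BDc_ev hf, BDc_ev hg] with y h1 h2
    refine alt_ext_one fun v => ?_
    rw [dc_apply, fderiv_fun_add h1 h2]
    exact neg_add _ _
  rw [ddc, e.extDeriv_eq, extDeriv_add ((dc_sm hf).differentiableAt (by simp))
    ((dc_sm hg).differentiableAt (by simp))]
  rfl

theorem ddc_sub (hf : ContDiffAt ℝ ∞ f x) (hg : ContDiffAt ℝ ∞ g x) :
    ddc (fun y => f y - g y) x = ddc f x - ddc g x := by
  have e : dc (fun y => f y - g y) =ᶠ[𝓝 x] dc f - dc g := by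
    filter_upwards [BDc_ev hf, BDc_ev hg] with y h1 h2
    refine alt_ext_one fun v => ?_
    rw [dc_apply, fderiv_fun_sub h1 h2]
    exact neg_sub' _ _
  rw [ddc, e.extDeriv_eq, extDeriv_sub' ((dc_sm hf).differentiableAt (by simp))
    ((dc_sm hg).differentiableAt (by simp))]
  rfl

theorem ddc_smul (hf : ContDiffAt ℝ ∞ f x) (a : ℝ) : ddc (fun y => a * f y) x = a • ddc f x := by
  have e : dc (fun y => a * f y) =ᶠ[𝓝 x] a • dc f := by
    filter_upwards [BDc_ev hf] with y h1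
    refine alt_ext_one fun v => ?_
    rw [dc_apply, fderiv_const_mul h1]
    exact (mul_neg _ _).symm
  rw [ddc, e.extDeriv_eq, extDeriv_smul]
  rfl

omit [NormedSpace ℂ V] [IsScalarTower ℝ ℂ V] [FiniteDimensional ℝ V] [FiniteDimensional ℂ V]
  [NormedSpace ℂ V'] [IsScalarTower ℝ ℂ V'] [FiniteDimensional ℝ V'] [FiniteDimensional ℂ V'] in
theorem BDc_pb_one (γ : V → V') (A : Fm V' 1) (x v : V) :
    pb γ A x ![v] = A (γ x) ![fderiv ℝ γ x v] :=
  congrArg (A (γ x)) (funext fun i => by fin_cases i; rfl)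

theorem dc_pb {γ : V → V'} {f' : V' → ℝ} (h : AnalyticAt ℂ γ x) (hf : DifferentiableAt ℝ f' (γ x)) :
    dc (fun y => f' (γ y)) x = pb γ (dc f') x := by
  refine alt_ext_one fun v => ?_
  have h2 : DifferentiableAt ℝ γ x := (an_sm h).differentiableAt (by simp)
  have h3 : fderiv ℝ (fun y => f' (γ y)) x = (fderiv ℝ f' (γ x)).comp (fderiv ℝ γ x) :=
    (hf.hasFDerivAt.comp x h2.hasFDerivAt).fderiv
  rw [BDc_pb_one, dc_apply, dc_apply, h3, ContinuousLinearMap.comp_apply, an_fderiv h, an_fderiv h,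
    map_smul]

theorem ddc_pb {γ : V → V'} {f' : V' → ℝ} (h : AnalyticAt ℂ γ x) (hf : ContDiffAt ℝ ∞ f' (γ x)) :
    ddc (fun y => f' (γ y)) x = pb γ (ddc f') x := by
  have e : dc (fun y => f' (γ y)) =ᶠ[𝓝 x] pb γ (dc f') := by
    filter_upwards [h.eventually_analyticAt, h.continuousAt.eventually (BDc_ev hf)] with y h1 h2
    exact dc_pb h1 h2
  rw [ddc, e.extDeriv_eq, extDeriv_pb ((dc_sm hf).differentiableAt (by simp)) (an_sm h)]
  rfl

theorem log_sm (h : AnalyticAt ℂ c x) (h0 : c x ≠ 0) :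
    ContDiffAt ℝ ∞ (fun y => Real.log (‖c y‖ ^ 2)) x := by
  exact ((an_sm h).norm_sq ℂ).log (pow_ne_zero 2 (norm_ne_zero_iff.2 h0))

theorem dc_log (h : AnalyticAt ℂ c x) (h0 : c x ≠ 0) (v : V) :
    dc (fun y => Real.log (‖c y‖ ^ 2)) x ![v] = 2 * (fderiv ℝ c x v / c x).im := by
  have h2 : HasFDerivAt c (fderiv ℝ c x) x := ((an_sm h).differentiableAt (by simp)).hasFDerivAt
  have h3 := h2.norm_sq.log (pow_ne_zero 2 (norm_ne_zero_iff.2 h0))
  have h4 : ‖c x‖ ^ 2 = (c x).re ^ 2 + (c x).im ^ 2 := by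
    rw [Complex.sq_norm, Complex.normSq_apply]
    ring
  have h5 : (c x).re ^ 2 + (c x).im ^ 2 ≠ 0 := h4 ▸ pow_ne_zero 2 (norm_ne_zero_iff.2 h0)
  have h6 : fderiv ℝ c x (Complex.I • v) = Complex.I * fderiv ℝ c x v := by
    rw [an_fderiv h, an_fderiv h, map_smul, smul_eq_mul]
  rw [dc_apply, h3.fderiv, Complex.div_im, Complex.normSq_apply]
  simp only [ContinuousLinearMap.smul_apply, ContinuousLinearMap.comp_apply, h6, innerSL_apply_apply,
    Complex.inner, smul_eq_mul, nsmul_eq_mul, h4, Complex.mul_re, Complex.mul_im, Complex.I_re,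
    Complex.I_im, Complex.conj_re, Complex.conj_im, Nat.cast_ofNat, ← sq]
  field_simp
  ring

theorem ddc_log (h : AnalyticAt ℂ c x) (h0 : c x ≠ 0) :
    ddc (fun y => Real.log (‖c y‖ ^ 2)) x = 0 := by
  have e : dc (fun y => Real.log (‖c y‖ ^ 2)) =ᶠ[𝓝 x] (2 : ℝ) • CCmp_lg c := by
    filter_upwards [h.eventually_analyticAt, h.continuousAt.eventually_ne h0] with y h1 h2
    refine alt_ext_one fun v => ?_
    rw [dc_log h1 h2, Pi.smul_apply, ContinuousAlternatingMap.smul_apply, CCmp_lg_apply, smul_eq_mul]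
  rw [ddc, e.extDeriv_eq, extDeriv_smul, CCmp_lg_d (an_sm h) h0, smul_zero]

theorem ddc_inv {γ : V → V'} {f' : V' → ℝ} (h : AnalyticAt ℂ γ x) (hf : ContDiffAt ℝ ∞ f x)
    (hf' : ContDiffAt ℝ ∞ f' (γ x)) (hc : AnalyticAt ℂ c x) (h0 : c x ≠ 0)
    (e : ∀ᶠ y in 𝓝 x, f' (γ y) = f y + Real.log (‖c y‖ ^ 2)) : ddc f x = pb γ (ddc f') x := by
  rw [← ddc_pb h hf', ddc_congr e, ddc_add hf (log_sm hc h0), ddc_log hc h0, add_zero]

theorem cmp_dc {γ : V → V} {f' : V → ℝ} (h : AnalyticAt ℂ γ x) (hf : ContDiffAt ℝ ∞ f x)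
    (hf' : ContDiffAt ℝ ∞ f' (γ x)) (hc : AnalyticAt ℂ c x) (h0 : c x ≠ 0)
    (hl : ∀ᶠ y in 𝓝 x, (fderiv ℂ γ y).det = c y)
    (e : ∀ᶠ y in 𝓝 x, f' (γ y) = f y + Real.log (‖c y‖ ^ 2)) :
    Cmp γ (fun _ => ContinuousLinearMap.id ℝ V) (fun y => (1 / 2 : ℝ) • dc f y)
      (fun _ => ContinuousLinearMap.id ℝ V) (fun y => (1 / 2 : ℝ) • dc f' y) x := by
  refine ⟨c, an_sm hc, ?_⟩
  filter_upwards [h.eventually_analyticAt, hc.eventually_analyticAt, hc.continuousAt.eventually_ne h0,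
    hl, dc_congr e, BDc_ev hf, h.continuousAt.eventually (BDc_ev hf')] with y h1 h2 h3 h4 h5 h6 h7
  refine ⟨⟨fderiv ℂ γ y, fun v => an_fderiv h1 v, h4⟩, h3, fun v => ?_⟩
  have h8 : DifferentiableAt ℝ (fun y => Real.log (‖c y‖ ^ 2)) y :=
    (log_sm h2 h3).differentiableAt (by simp)
  have h9 : dc (fun y => f y + Real.log (‖c y‖ ^ 2)) y ![v] =
      dc f y ![v] + dc (fun y => Real.log (‖c y‖ ^ 2)) y ![v] := by
    rw [dc_apply, dc_apply, dc_apply, fderiv_fun_add h6 h8, ContinuousLinearMap.add_apply, neg_add]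
  rw [ContinuousAlternatingMap.smul_apply, ContinuousAlternatingMap.smul_apply, ← BDc_pb_one,
    ← dc_pb h1 h7, h5, h9, dc_log h2 h3, smul_eq_mul, smul_eq_mul]
  ring

end Pool.Agent.Work.MP_bf98aa_gt.Ki
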