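import Pool.Agent.Work.MP_bf98aa_gt.Ki.BDc

/-!
Calculus of `ddc`, second part.

PLAN. `ddc_comp`: near `x`, `dc (φ ∘ f) = φ' (f) • dc f`; `extDeriv_one_apply` and the product rule. `ddc_mul`: the same. `ddc_normSq`: on `ℂ` compute `D2`, pull back by `ddc_pb`, `pb_ar`.
`sqF_normSq`: `fderiv ‖c‖ ^ 2 v = 2 re (conj c * dc v)`. `Qf_fs`: `ddc_comp` with `log`, `ddc_add`, `ddc_mul`, `ddc_normSq`, `Qf_arC`, `Qf_sqF`, and the Lagrange identity
`(A |du| ^ 2 + B |dv| ^ 2) N - |A conj u du + B conj v dv| ^ 2 = A B |u dv - v du| ^ 2` (expand in real and imaginary parts).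
-/

set_option autoImplicit false

noncomputable section

open scoped ContDiff Topology
open Set Filter

namespace Pool.Agent.Work.MP_bf98aa_gt.Ki

open Pool.Agent.Work.MP_bf98aa_gt.Th Pool.Agent.Work.MP_bf98aa_gt.Cp

variable {V : Type} [NormedAddCommGroup V] [NormedSpace ℝ V] [NormedSpace ℂ V]
  [IsScalarTower ℝ ℂ V] [FiniteDimensional ℝ V] [FiniteDimensional ℂ V] {f g : V → ℝ} {x : V}
  {c : V → ℂ}

theorem BDc2_ev {X : Type} [NormedAddCommGroup X] [NormedSpace ℝ X] {f : X → ℝ} {x : X}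
    (hf : ContDiffAt ℝ ∞ f x) : ∀ᶠ y in 𝓝 x, DifferentiableAt ℝ f y :=
  ((hf.of_le (m := 1) (by simp)).eventually (by simp)).mono fun _ h => h.differentiableAt (by simp)

theorem BDc2_fd {X : Type} [NormedAddCommGroup X] [NormedSpace ℝ X] {f : X → ℝ} {x : X}
    (hf : ContDiffAt ℝ ∞ f x) : HasFDerivAt (fderiv ℝ f) (D2 f x) x :=
  ((hf.fderiv_right (m := ∞) le_rfl).differentiableAt (by simp)).hasFDerivAt

theorem BDc2_comp {X : Type} [NormedAddCommGroup X] [NormedSpace ℝ X] {f : X → ℝ} {x : X}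
    {φ : ℝ → ℝ} (hf : ContDiffAt ℝ ∞ f x) (hφ : ContDiffAt ℝ ∞ φ (f x)) (a b : X) :
    D2 (fun y => φ (f y)) x a b = deriv φ (f x) * D2 f x a b +
      deriv (deriv φ) (f x) * (fderiv ℝ f x a * fderiv ℝ f x b) := by
  have e : fderiv ℝ (fun y => φ (f y)) =ᶠ[𝓝 x] fun y => deriv φ (f y) • fderiv ℝ f y := by
    filter_upwards [BDc2_ev hf, hf.continuousAt.eventually (BDc2_ev hφ)] with y h1 h2
    exact (h2.hasDerivAt.comp_hasFDerivAt y h1.hasFDerivAt).fderiv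
  have h1 := ((hφ.derivWithin (m := ∞) le_rfl).differentiableAt (by simp)).hasDerivAt
  have h2 := (h1.comp_hasFDerivAt x (hf.differentiableAt (by simp)).hasFDerivAt).smul (BDc2_fd hf)
  rw [D2, e.fderiv_eq, show fderiv ℝ (fun y => deriv φ (f y) • fderiv ℝ f y) x = _ from h2.fderiv]
  simp only [add_apply, smul_apply, ContinuousLinearMap.smulRight_apply, smul_eq_mul,
    Function.comp_apply]
  ring

theorem BDc2_mul {X : Type} [NormedAddCommGroup X] [NormedSpace ℝ X] {f g : X → ℝ} {x : X}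
    (hf : ContDiffAt ℝ ∞ f x) (hg : ContDiffAt ℝ ∞ g x) (a b : X) :
    D2 (fun y => f y * g y) x a b = f x * D2 g x a b + g x * D2 f x a b +
      (fderiv ℝ f x a * fderiv ℝ g x b + fderiv ℝ g x a * fderiv ℝ f x b) := by
  have e : fderiv ℝ (fun y => f y * g y) =ᶠ[𝓝 x]
      fun y => f y • fderiv ℝ g y + g y • fderiv ℝ f y := by
    filter_upwards [BDc2_ev hf, BDc2_ev hg] with y h1 h2
    exact fderiv_fun_mul h1 h2
  have h2 := ((hf.differentiableAt (by simp)).hasFDerivAt.smul (BDc2_fd hg)).add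
    ((hg.differentiableAt (by simp)).hasFDerivAt.smul (BDc2_fd hf))
  rw [D2, e.fderiv_eq,
    show fderiv ℝ (fun y => f y • fderiv ℝ g y + g y • fderiv ℝ f y) x = _ from h2.fderiv]
  simp only [add_apply, smul_apply, ContinuousLinearMap.smulRight_apply, smul_eq_mul]
  ring

omit [FiniteDimensional ℝ V] [FiniteDimensional ℂ V] in
theorem BDc2_sqF (l : V →L[ℝ] ℝ) (u v : V) :
    sqF l ![u, v] = l v * l (Complex.I • u) - l u * l (Complex.I • v) := by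
  rw [sqF, wedge_apply]
  change l u * -l (Complex.I • v) - l v * -l (Complex.I • u) = _
  ring

theorem ddc_comp {φ : ℝ → ℝ} (hf : ContDiffAt ℝ ∞ f x) (hφ : ContDiffAt ℝ ∞ φ (f x)) :
    ddc (fun y => φ (f y)) x =
      deriv φ (f x) • ddc f x + deriv (deriv φ) (f x) • sqF (fderiv ℝ f x) := by
  refine alt_ext_two fun u v => ?_
  rw [ddc_apply (f := fun y => φ (f y)) (hφ.comp x hf), BDc2_comp hf hφ, BDc2_comp hf hφ,
    ContinuousAlternatingMap.add_apply, ContinuousAlternatingMap.smul_apply,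
    ContinuousAlternatingMap.smul_apply, ddc_apply hf, BDc2_sqF, smul_eq_mul, smul_eq_mul]
  ring


theorem ddc_mul (hf : ContDiffAt ℝ ∞ f x) (hg : ContDiffAt ℝ ∞ g x) (e : V) :
    Qf (ddc (fun y => f y * g y) x) e = f x * Qf (ddc g x) e + g x * Qf (ddc f x) e +
      2 * (fderiv ℝ f x e * fderiv ℝ g x e +
        fderiv ℝ f x (Complex.I • e) * fderiv ℝ g x (Complex.I • e)) := by
  simp only [Qf]
  rw [ddc_apply (hf.mul hg), ddc_apply hf, ddc_apply hg, BDc2_mul hf hg, BDc2_mul hf hg, smul_smul,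
    Complex.I_mul_I, neg_one_smul]
  simp only [map_neg]
  ring


theorem normSq_sm (h : AnalyticAt ℂ c x) : ContDiffAt ℝ ∞ (fun y => ‖c y‖ ^ 2) x :=
  (an_sm h).norm_sq ℝ


theorem fderiv_normSq (h : AnalyticAt ℂ c x) (v : V) :
    fderiv ℝ (fun y => ‖c y‖ ^ 2) x v = 2 * ((starRingEnd ℂ) (c x) * fderiv ℂ c x v).re := by
  rw [((an_sm h).differentiableAt (by simp)).hasFDerivAt.norm_sq.fderiv, ← an_fderiv h]
  simp only [smul_apply, ContinuousLinearMap.comp_apply, innerSL_apply_apply, Complex.inner,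
    nsmul_eq_mul, Nat.cast_ofNat, mul_comm]


theorem BDc2_ar (z : ℂ) : ddc (fun y : ℂ => ‖y‖ ^ 2) z = (4 : ℝ) • ar := by
  have e : ∀ a b : ℂ, D2 (fun y : ℂ => ‖y‖ ^ 2) z a b = 2 * (a.re * b.re + a.im * b.im) := by
    intro a b
    rw [D2, fderiv_norm_sq, show fderiv ℝ (2 • ⇑(innerSL ℝ (E := ℂ))) z = _ from
      (2 • innerSL ℝ (E := ℂ)).fderiv]
    change 2 • inner ℝ a b = _
    simp only [Complex.inner, nsmul_eq_mul, Nat.cast_ofNat, Complex.mul_re, Complex.conj_re,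
      Complex.conj_im]
    ring
  refine alt_ext_two fun u v => ?_
  rw [ddc_apply (contDiff_norm_sq ℝ).contDiffAt, e, e, ContinuousAlternatingMap.smul_apply,
    ar_apply]
  simp only [smul_eq_mul, Complex.I_mul_re, Complex.I_mul_im]
  ring

theorem ddc_normSq (h : AnalyticAt ℂ c x) :
    ddc (fun y => ‖c y‖ ^ 2) x = (4 : ℝ) • arC (fderiv ℂ c x) := by
  rw [ddc_pb (f' := fun y : ℂ => ‖y‖ ^ 2) h (contDiff_norm_sq ℝ).contDiffAt,
    ← pb_ar h fun _ => 4]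
  exact pb_congr' (BDc2_ar _)


theorem sqF_normSq (h : AnalyticAt ℂ c x) :
    sqF (fderiv ℝ (fun y => ‖c y‖ ^ 2) x) = (4 * ‖c x‖ ^ 2) • arC (fderiv ℂ c x) := by
  refine alt_ext_two fun u v => ?_
  rw [BDc2_sqF, ContinuousAlternatingMap.smul_apply, arC_apply, Complex.sq_norm,
    Complex.normSq_apply]
  simp only [fderiv_normSq h, map_smul, smul_eq_mul, Complex.mul_re, Complex.mul_im,
    Complex.conj_re, Complex.conj_im, Complex.I_re, Complex.I_im]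
  ring


theorem ddc_rad {φ : ℝ → ℝ} (h : AnalyticAt ℂ c x) (hφ : ContDiffAt ℝ ∞ φ (‖c x‖ ^ 2)) :
    ddc (fun y => φ (‖c y‖ ^ 2)) x = (4 * (deriv φ (‖c x‖ ^ 2) +
      ‖c x‖ ^ 2 * deriv (deriv φ) (‖c x‖ ^ 2))) • arC (fderiv ℂ c x) := by
  rw [ddc_comp (f := fun y => ‖c y‖ ^ 2) (normSq_sm h) hφ, ddc_normSq h, sqF_normSq h, smul_smul,
    smul_smul, ← add_smul]
  exact congrArg (· • _) (by ring)


theorem ker_comp {φ : ℂ → ℝ} (h : AnalyticAt ℂ c x) (hφ : ContDiffAt ℝ ∞ φ (c x)) {e : V}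
    (he : fderiv ℂ c x e = 0) : fderiv ℝ (fun y => φ (c y)) x e = 0 ∧
      fderiv ℝ (fun y => φ (c y)) x (Complex.I • e) = 0 ∧ Qf (ddc (fun y => φ (c y)) x) e = 0 := by
  have he' : fderiv ℂ c x (Complex.I • e) = 0 := by rw [map_smul, he, smul_zero]
  have h1 : ∀ w, fderiv ℝ (fun y => φ (c y)) x w = fderiv ℝ φ (c x) (fderiv ℂ c x w) := fun w => by
    rw [← an_fderiv h w]
    exact congrArg (fun L : V →L[ℝ] ℝ => L w)
      (fderiv_comp x (hφ.differentiableAt (by simp)) ((an_sm h).differentiableAt (by simp)))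
  refine ⟨by rw [h1, he, map_zero], by rw [h1, he', map_zero], ?_⟩
  rw [ddc_pb h hφ, Qf, pb, IPf_comp]
  exact IPf_zero _ (Or.inl (by rw [an_fderiv h, he]))

theorem BDc2_log (hf : ContDiffAt ℝ ∞ f x) (h0 : f x ≠ 0) :
    ddc (fun y => Real.log (f y)) x =
      (f x)⁻¹ • ddc f x + (-(f x ^ 2)⁻¹) • sqF (fderiv ℝ f x) := by
  rw [ddc_comp hf (Real.contDiffAt_log.2 h0), Real.deriv_log', deriv_inv]

theorem BDc2_term {A : V → ℝ} (h : AnalyticAt ℂ c x) (hA : ContDiffAt ℝ ∞ A x) {e : V}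
    (kA : fderiv ℝ A x e = 0 ∧ fderiv ℝ A x (Complex.I • e) = 0 ∧ Qf (ddc A x) e = 0) :
    fderiv ℝ (fun y => ‖c y‖ ^ 2 * A y) x e =
        A x * (2 * ((starRingEnd ℂ) (c x) * fderiv ℂ c x e).re) ∧
      fderiv ℝ (fun y => ‖c y‖ ^ 2 * A y) x (Complex.I • e) =
        A x * (2 * ((starRingEnd ℂ) (c x) * (Complex.I * fderiv ℂ c x e)).re) ∧
      Qf (ddc (fun y => ‖c y‖ ^ 2 * A y) x) e = A x * (4 * ‖fderiv ℂ c x e‖ ^ 2) := by
  have h1 : ∀ w, fderiv ℝ (fun y => ‖c y‖ ^ 2 * A y) x w =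
      ‖c x‖ ^ 2 * fderiv ℝ A x w + A x * fderiv ℝ (fun y => ‖c y‖ ^ 2) x w := fun w => by
    rw [fderiv_fun_mul ((normSq_sm h).differentiableAt (by simp)) (hA.differentiableAt (by simp))]
    rfl
  refine ⟨?_, ?_, ?_⟩
  · rw [h1, kA.1, mul_zero, zero_add, fderiv_normSq h]
  · rw [h1, kA.2.1, mul_zero, zero_add, fderiv_normSq h, map_smul, smul_eq_mul]
  · rw [ddc_mul (normSq_sm h) hA, kA.1, kA.2.1, kA.2.2, ddc_normSq h, Qf_smul, Qf_arC]
    ring

theorem Qf_fs {u v : V → ℂ} {A B : V → ℝ} (hu : AnalyticAt ℂ u x) (hv : AnalyticAt ℂ v x)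
    (hA : ContDiffAt ℝ ∞ A x) (hB : ContDiffAt ℝ ∞ B x) {e : V}
    (kA : fderiv ℝ A x e = 0 ∧ fderiv ℝ A x (Complex.I • e) = 0 ∧ Qf (ddc A x) e = 0)
    (kB : fderiv ℝ B x e = 0 ∧ fderiv ℝ B x (Complex.I • e) = 0 ∧ Qf (ddc B x) e = 0)
    (hN : ‖u x‖ ^ 2 * A x + ‖v x‖ ^ 2 * B x ≠ 0) :
    Qf (ddc (fun y => Real.log (‖u y‖ ^ 2 * A y + ‖v y‖ ^ 2 * B y)) x) e =
      4 * A x * B x * ‖u x * fderiv ℂ v x e - v x * fderiv ℂ u x e‖ ^ 2 /
        (‖u x‖ ^ 2 * A x + ‖v x‖ ^ 2 * B x) ^ 2 := by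
  have su := (normSq_sm hu).mul hA
  have sv := (normSq_sm hv).mul hB
  have h1 := BDc2_log (su.add sv) hN
  have h2 : ∀ w, fderiv ℝ (fun y => ‖u y‖ ^ 2 * A y + ‖v y‖ ^ 2 * B y) x w =
      fderiv ℝ (fun y => ‖u y‖ ^ 2 * A y) x w + fderiv ℝ (fun y => ‖v y‖ ^ 2 * B y) x w :=
    fun w => by
      rw [fderiv_fun_add (su.differentiableAt (by simp)) (sv.differentiableAt (by simp))]
      rfl
  obtain ⟨a1, a2, a3⟩ := BDc2_term hu hA kA
  obtain ⟨b1, b2, b3⟩ := BDc2_term hv hB kB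
  rw [h1, Qf_add, Qf_smul, Qf_smul, ddc_add su sv, Qf_add, Qf_sqF, h2, h2, a1, a2, a3, b1, b2, b3]
  generalize fderiv ℂ u x e = p at *
  generalize fderiv ℂ v x e = q at *
  generalize u x = s at *
  generalize v x = t at *
  have key : (A x * (4 * ‖p‖ ^ 2) + B x * (4 * ‖q‖ ^ 2)) * (‖s‖ ^ 2 * A x + ‖t‖ ^ 2 * B x) -
      ((A x * (2 * ((starRingEnd ℂ) s * p).re) + B x * (2 * ((starRingEnd ℂ) t * q).re)) ^ 2 +
        (A x * (2 * ((starRingEnd ℂ) s * (Complex.I * p)).re) +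
          B x * (2 * ((starRingEnd ℂ) t * (Complex.I * q)).re)) ^ 2) =
      4 * A x * B x * ‖s * q - t * p‖ ^ 2 := by
    simp only [Complex.sq_norm, Complex.normSq_apply, Complex.mul_re, Complex.mul_im,
      Complex.sub_re, Complex.sub_im, Complex.conj_re, Complex.conj_im, Complex.I_re, Complex.I_im]
    ring
  rw [← key]
  generalize ‖s‖ ^ 2 * A x + ‖t‖ ^ 2 * B x = N at *
  field_simp
  ring

theorem ddc_of_log (hf : ContDiffAt ℝ ∞ f x) (h0 : f x ≠ 0) :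
    ddc f x = f x • ddc (fun y => Real.log (f y)) x + (f x)⁻¹ • sqF (fderiv ℝ f x) := by
  rw [BDc2_log hf h0, smul_add, smul_smul, smul_smul, mul_inv_cancel₀ h0, one_smul, add_assoc,
    ← add_smul]
  have e : f x * -(f x ^ 2)⁻¹ + (f x)⁻¹ = 0 := by
    field_simp
    ring
  rw [e, zero_smul, add_zero]

end Pool.Agent.Work.MP_bf98aa_gt.Ki
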