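import Pool.Agent.Work.MP_bf98aa_gt.Ki.ADef

/-!
Definitions for the manifold: factors, toric charts, forms. See the team-store file
`h86_bf98aa_infl.md`, part B.
-/

set_option autoImplicit false

noncomputable section

open scoped ContDiff Topology
open Set Filter

namespace Pool.Agent.Work.MP_bf98aa_gt.Ki

open Pool.Agent.Work.MP_bf98aa_gt.Th Pool.Agent.Work.MP_bf98aa_gt.Cp

/-- Gaussian integers. -/
def La (z : ℂ) : Prop := ∃ m n : ℤ, z = m + n * Complex.I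

abbrev Ix : Type := Bool × Bool

/-- A curve presented by charts on which an involution reads `x ↦ -x`. -/
structure Fac (W : Ix → Set ℂ) (r : Ix → ℂ → Ix → ℂ → Prop) : Prop where
  opn : ∀ i, IsOpen (W i)
  mem : ∀ {i x j z}, r i x j z → x ∈ W i
  refl : ∀ {i x}, x ∈ W i → r i x i x
  symm : ∀ {i x j z}, r i x j z → r j z i x
  trans : ∀ {i x j z l y}, r i x j z → r j z l y → r i x l y
  inj : ∀ {i x}, x ∈ W i → ∀ᶠ p in 𝓝 (x, x), r i p.1 i p.2 → p.1 = p.2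
  clo : ∀ {i x j z}, x ∈ W i → z ∈ W j → ¬ r i x j z → ∀ᶠ p in 𝓝 (x, z), ¬ r i p.1 j p.2
  neg : ∀ {i x j z}, r i x j z → r i (-x) j (-z)
  hol : ∀ {i x j z}, r i x j z →
    ∃ g : ℂ → ℂ, AnalyticAt ℂ g x ∧ g x = z ∧ ∀ᶠ t in 𝓝 x, r i t j (g t)
  fix : ∀ {i x}, r i x i (-x) → x = 0
  small : ∀ {i x j z}, r i x j z → ‖x‖ ≤ 1 / 10 → j = i ∧ z = x
  cpt : ∃ K : Ix → Set ℂ, (∀ i, IsCompact (K i) ∧ K i ⊆ W i) ∧
    ∀ i, ∀ x ∈ W i, ∃ j, ∃ z ∈ K j, r i x j z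

/-- The squares of the points of a chart. -/
def Dm (W : Ix → Set ℂ) (i : Ix) : Set ℂ := {P | ∃ x ∈ W i, x ^ 2 = P}

/-- The multiplier relation. -/
def RR (r : Ix → ℂ → Ix → ℂ → Prop) (i : Ix) (P : ℂ) (j : Ix) (m : ℂ) : Prop :=
  ∃ x, x ^ 2 = P ∧ m ≠ 0 ∧ (x = 0 → m = 1) ∧ r i x j (m * x)

def sg (b : Bool) : ℂ := if b then -1 else 1

def Yf (P : ℂ) : ℂ := (1 + P) / (10 * (1 - P))

/-- The derivative of `Yf`. -/
def Yd (P : ℂ) : ℂ := 1 / (5 * (1 - P) ^ 2)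

/-- The inverse of `Yf`. -/
def Yi (y : ℂ) : ℂ := (10 * y - 1) / (10 * y + 1)

def DC : Set ℂ := {P | P ≠ 1 ∧ ‖Yf P‖ < 4 / 5 ∧ -(1 / 20) < (Yf P).re}

def WC (i : Ix) : Set ℂ := {x | i.2 = false ∧ x ^ 2 ∈ DC}

/-- The genus two curve. -/
def rC (i : Ix) (x : ℂ) (j : Ix) (z : ℂ) : Prop :=
  x ∈ WC i ∧ z ∈ WC j ∧ La (sg i.1 * Yf (x ^ 2) - sg j.1 * Yf (z ^ 2)) ∧
    ((i = j ∧ z = x) ∨ (i ≠ j ∧ x * z = 1) ∨ 0 < x.re * z.re)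

def tau (i : Ix) : ℂ := (if i.1 then 1 / 2 else 0) + if i.2 then Complex.I / 2 else 0

def WE (_ : Ix) : Set ℂ := Metric.ball 0 (2 / 5)

/-- The elliptic curve. -/
def rE (i : Ix) (x : ℂ) (j : Ix) (z : ℂ) : Prop :=
  ‖x‖ < 2 / 5 ∧ ‖z‖ < 2 / 5 ∧ La (tau i + x - tau j - z)

def Wk : Fin 3 → Ix → Set ℂ := ![WC, WC, WE]

def rk : Fin 3 → Ix → ℂ → Ix → ℂ → Prop := ![rC, rC, rE]

/-- The squares of the coordinates in the four toric charts. -/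
def tP (T : Fin 4) (p : E3) (k : Fin 3) : ℂ :=
  ![![p.1 ^ 2 * p.2.1 * p.2.2, p.2.1, p.2.2], ![p.1, p.2.1 ^ 2 * p.1 * p.2.2, p.2.2],
    ![p.1, p.2.1, p.2.2 ^ 2 * p.1 * p.2.1], ![p.2.1 * p.2.2, p.1 * p.2.2, p.1 * p.2.1]] T k

def tu (T : Fin 4) (p : E3) (k : Fin 3) : ℂ :=
  ![![p.1, 1, 1], ![1, p.2.1, 1], ![1, 1, p.2.2], ![1, 1, 1]] T k

def tv (T : Fin 4) (p : E3) (k : Fin 3) : ℂ :=
  ![![1, p.1 * p.2.2, p.1 * p.2.1], ![p.2.1 * p.2.2, 1, p.2.1 * p.1],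
    ![p.2.2 * p.2.1, p.2.2 * p.1, 1], ![p.1, p.2.1, p.2.2]] T k

def t0 (p : E3) : ℂ := p.1 * p.2.1 * p.2.2

/-- The coordinates of a point of the toric variety in the chart `T`. -/
def ex (T : Fin 4) (P u v : Fin 3 → ℂ) : E3 :=
  ![(u 0 / v 0, P 1, P 2), (P 0, u 1 / v 1, P 2), (P 0, P 1, u 2 / v 2),
    (v 0 / u 0, v 1 / u 1, v 2 / u 2)] T

/-- The point lies in the chart `T`. -/
def Den (T : Fin 4) (u v : Fin 3 → ℂ) : Prop :=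
  ![v 0 ≠ 0, v 1 ≠ 0, v 2 ≠ 0, u 0 ≠ 0 ∧ u 1 ≠ 0 ∧ u 2 ≠ 0] T

/-- The torus element `m` moves the point `p` of the chart `T` to the point `q` of the chart `S`. -/
def TR (m : Fin 3 → ℂ) (T : Fin 4) (p : E3) (S : Fin 4) (q : E3) : Prop :=
  ∀ k, tP S q k = m k ^ 2 * tP T p k ∧
    m k * tu T p k * tv S q k = m (k + 1) * m (k + 2) * tv T p k * tu S q k

def act (m : Fin 3 → ℂ) (T S : Fin 4) (p : E3) : E3 :=
  ex S (fun k => m k ^ 2 * tP T p k) (fun k => m k * tu T p k)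
    fun k => m (k + 1) * m (k + 2) * tv T p k

def DenA (m : Fin 3 → ℂ) (T S : Fin 4) (p : E3) : Prop :=
  Den S (fun k => m k * tu T p k) fun k => m (k + 1) * m (k + 2) * tv T p k

abbrev Jx : Type := (Fin 3 → Ix) × Fin 4

/-- The multipliers `m` relate the two points. -/
def Rm (m : Fin 3 → ℂ) (i : Jx) (p : E3) (j : Jx) (q : E3) : Prop :=
  (∀ k, RR (rk k) (i.1 k) (tP i.2 p k) (j.1 k) (m k)) ∧ TR m i.2 p j.2 q

/-- The manifold. -/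
def PM : Pres E3 where
  ι := Jx
  W i := {p | ∀ k, tP i.2 p k ∈ Dm (Wk k) (i.1 k)}
  r i p j q := ∃ m, Rm m i p j q

/-- A holomorphic lift with holomorphic multipliers. -/
def HL (i j : Jx) (p : E3) (γ : E3 → E3) (μ : Fin 3 → ℂ → ℂ) : Prop :=
  AnalyticAt ℂ γ p ∧ (∀ k, AnalyticAt ℂ (μ k) (tP i.2 p k)) ∧
    (∀ k, ∀ᶠ Q in 𝓝 (tP i.2 p k), RR (rk k) (i.1 k) Q (j.1 k) (μ k Q)) ∧
    ∀ᶠ x in 𝓝 p, Rm (fun k => μ k (tP i.2 x k)) i x j (γ x)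

section
variable {V : Type} [NormedAddCommGroup V] [NormedSpace ℝ V] [NormedSpace ℂ V]
  [IsScalarTower ℝ ℂ V]

def dc (f : V → ℝ) : Fm V 1 := fun x => alt1 (-((fderiv ℝ f x).comp (mulI V)))

def ddc (f : V → ℝ) : Fm V 2 := extDeriv (dc f)

end

def psi (t : ℝ) : ℝ := Real.smoothTransition (20000 * t - 1)

def kk (r : ℝ) : ℝ := ∫ t in (0 : ℝ)..r, psi t / t

def c0 : ℝ := kk (1 / 10000) - Real.log (1 / 10000)

def lw (P : ℂ) : ℝ := -(kk (‖P‖ ^ 2) / 2)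

def wt (P : ℂ) : ℝ := Real.exp (lw P)

def lH (a b : ℝ) : ℝ := if b = 0 then Real.log a + c0 else Real.log b + kk (a / b)

/-- The coordinates of the base torus. -/
def yk (k : Fin 3) (i : Jx) (p : E3) : ℂ := sg (i.1 k).1 * Yf (tP i.2 p k)

def dP (k : Fin 3) (i : Jx) (p : E3) : E3 →L[ℂ] ℂ := fderiv ℂ (fun x => tP i.2 x k) p

def dy (k : Fin 3) (i : Jx) (p : E3) : E3 →L[ℂ] ℂ := fderiv ℂ (yk k i) p

def lam (k : Fin 3) (i : Jx) : Fm E3 2 := ddc fun p => lw (tP i.2 p k)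

def fA (i : Jx) (p : E3) : ℝ :=
  lw (tP i.2 p 0) - Real.log (‖Yd (tP i.2 p 0)‖ ^ 2) +
    (lw (tP i.2 p 1) - Real.log (‖Yd (tP i.2 p 1)‖ ^ 2))

def AA (i : Jx) : Fm E3 1 := fun p => (1 / 2 : ℝ) • dc (fA i) p

def rho (i : Jx) : Fm E3 2 := fun p => (1 / (4 * Real.pi)) • (lam 0 i p + lam 1 i p)

/-- The density of the curvature. -/
def fd (P : ℂ) : ℝ := -(deriv psi (‖P‖ ^ 2) / (2 * Real.pi * ‖Yd P‖ ^ 2))

def sig (i : Jx) : Fm E3 2 := fun p =>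
  arC (dy 0 i p) + arC (dy 1 i p) + wt (tP i.2 p 2) • arC (dP 2 i p)

def Na (k : Fin 3) (i : Jx) (p : E3) : ℝ := ‖tu i.2 p k‖ ^ 2 * wt (tP i.2 p k)

def Nb (k : Fin 3) (i : Jx) (p : E3) : ℝ :=
  ‖tv i.2 p k‖ ^ 2 * (wt (tP i.2 p (k + 1)) * wt (tP i.2 p (k + 2)))

def tauk (k : Fin 3) (i : Jx) : Fm E3 2 := ddc fun p => Real.log (Na k i p + Nb k i p)

def ta (i : Jx) : Fm E3 2 := fun p => tauk 0 i p + tauk 1 i p + tauk 2 i p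

def The (i : Jx) : Fm E3 2 := fun p => ddc (fun x => lH (Na 2 i x) (Nb 2 i x)) p - lam 2 i p

def rr (i : Jx) (p : E3) : ℝ := Na 2 i p / Nb 2 i p

def gg (i : Jx) (p : E3) : ℝ := if Nb 2 i p = 0 then 0 else deriv psi (rr i p) / rr i p

def gg' (i : Jx) (p : E3) : ℝ := if Nb 2 i p = 0 then 0 else 4 * Real.pi * (1 - psi (rr i p))

/-- A form on the plane which descends to the torus from the disc of radius `4 / 5`. -/
def Per {n : ℕ} (w : Fm ℂ n) : Prop :=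
  ContDiff ℝ ∞ w ∧ ∀ y z, La (y - z) → ‖y‖ < 4 / 5 → ‖z‖ < 4 / 5 → w y = w z

/-- The density of the curvature on the base curve. -/
def FF (y : ℂ) : ℝ := fd (Yi y) + fd (Yi (-y))

end Pool.Agent.Work.MP_bf98aa_gt.Ki
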