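import Pool.Agent.Work.MP_bf98aa_gt.Ki.BLa

/-!
The genus two factor.

PLAN. Write `l = sg i.1 * Yf (x ^ 2) - sg j.1 * Yf (z ^ 2)`. If `l = 0`: for `i = j` get `z ^ 2 = x ^ 2` (`Yi_Yf`), for `i ≠ j` (second components are
`false`, so `sg j.1 = - sg i.1`) get `(x z) ^ 2 = 1` (`Yi_neg`); with the third alternative `0 < x.re * z.re` this gives `z = x`, resp. `x z = 1`
(`rC_zero`). If `l ≠ 0` both `Yf` have norm above `1 / 5` (`La_small`), so `x ^ 2`, `z ^ 2` have positive real part (`DC_re`) and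
`x.re ≠ 0`, `z.re ≠ 0`. `trans`: nine cases; `x z = 1` gives `z.re * normSq x = x.re`. `clo`: `La_closed`, `La_ev'`, then the cases `l ≠ 0` (the product of the real
parts is negative near the point), `l = 0`. `hol`: identity, inversion, or `g t = z * exp (log (G t / G x) / 2)` with `G t = Yi (sg j.1 * (sg i.1 * Yf (t ^ 2) - l))`.
`cpt`: `K i = {x | i.2 = false, ‖x‖ ≤ 1, 2 * ‖1 + x ^ 2‖ ≤ 15 * ‖1 - x ^ 2‖}`; reduce `y = sg i.1 * Yf (x ^ 2)` by `La_round`, choose `j` with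
`0 ≤ (sg j.1 * y').re`, a square root `z` of `Yi (sg j.1 * y')` and its sign. `lnkC`: `x = z = I` or `x = I`, `z = -I`.
-/

set_option autoImplicit false

noncomputable section

open scoped ContDiff Topology
open Set Filter

namespace Pool.Agent.Work.MP_bf98aa_gt.Ki

open Pool.Agent.Work.MP_bf98aa_gt.Th Pool.Agent.Work.MP_bf98aa_gt.Cp

theorem BFacC_re {x z : ℂ} {c : ℝ} (h : x * z = c) : z.re * Complex.normSq x = c * x.re := by
  have h1 := congrArg Complex.re h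
  have h2 := congrArg Complex.im h
  simp only [Complex.mul_re, Complex.mul_im, Complex.ofReal_re, Complex.ofReal_im] at h1 h2
  rw [Complex.normSq_apply]
  linear_combination x.re * h1 + x.im * h2

theorem BFacC_sg {i j : Ix} (hi : i.2 = false) (hj : j.2 = false) (h : i ≠ j) :
    sg j.1 = -sg i.1 := by
  obtain ⟨a, b⟩ := i
  obtain ⟨c, d⟩ := j
  obtain rfl : b = false := hi
  obtain rfl : d = false := hj
  cases a <;> cases c <;> simp [sg] at h ⊢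

theorem BFacC_ne (b : Bool) : sg b ≠ 0 := left_ne_zero_of_mul_eq_one (sg_sq b)

theorem BFacC_norm (i j : Ix) (a b : ℂ) : ‖sg i.1 * a - sg j.1 * b‖ ≤ ‖a‖ + ‖b‖ := by
  simpa only [norm_mul, norm_sg, one_mul] using norm_sub_le (sg i.1 * a) (sg j.1 * b)

theorem rC_zero {i j : Ix} {x z : ℂ} (h : rC i x j z)
    (h0 : sg i.1 * Yf (x ^ 2) = sg j.1 * Yf (z ^ 2)) : (i = j ∧ z = x) ∨ (i ≠ j ∧ x * z = 1) := by
  obtain ⟨hx, hz, -, a | a | a⟩ := h
  · exact Or.inl a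
  · exact Or.inr a
  by_cases c : i = j
  · subst c
    have e := congrArg Yi (mul_left_cancel₀ (BFacC_ne _) h0)
    rw [Yi_Yf hx.2.1, Yi_Yf hz.2.1] at e
    rcases sq_eq_sq_iff_eq_or_eq_neg.1 e.symm with k | k
    · exact Or.inl ⟨rfl, k⟩
    · rw [k, Complex.neg_re] at a
      nlinarith [sq_nonneg x.re]
  · rw [BFacC_sg hx.1 hz.1 c, neg_mul, ← mul_neg] at h0
    have e := congrArg Yi (mul_left_cancel₀ (BFacC_ne _) h0)
    rw [Yi_neg, Yi_Yf hx.2.1, Yi_Yf hz.2.1] at e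
    have z0 : z ≠ 0 := fun k => by simp [k] at a
    have e1 : (x * z) ^ 2 = 1 ^ 2 := by rw [mul_pow, e, inv_mul_cancel₀ (pow_ne_zero _ z0), one_pow]
    rcases sq_eq_sq_iff_eq_or_eq_neg.1 e1 with k | k
    · exact Or.inr ⟨c, k⟩
    · have b := BFacC_re (c := -1) (k.trans (by simp))
      have x0 : x.re ≠ 0 := left_ne_zero_of_mul a.ne'
      have f := mul_nonneg a.le (Complex.normSq_nonneg x)
      rw [mul_assoc, b] at f
      linarith [mul_self_pos.2 x0]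

theorem rC_ne {i j : Ix} {x z : ℂ} (hx : x ∈ WC i) (hz : z ∈ WC j)
    (h : La (sg i.1 * Yf (x ^ 2) - sg j.1 * Yf (z ^ 2)))
    (h0 : sg i.1 * Yf (x ^ 2) ≠ sg j.1 * Yf (z ^ 2)) : x.re ≠ 0 ∧ z.re ≠ 0 := by
  have a := (not_lt.1 (mt (La_small h) (sub_ne_zero.2 h0))).trans (BFacC_norm i j _ _)
  have k : ∀ w : ℂ, 0 < (w ^ 2).re → w.re ≠ 0 := fun w hw e => by
    rw [sq, Complex.mul_re, e] at hw
    nlinarith [sq_nonneg w.im]
  exact ⟨k x (DC_re hx.2.1 (by linarith [hz.2.2.1])), k z (DC_re hz.2.1 (by linarith [hx.2.2.1]))⟩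

theorem isOpen_WC (i : Ix) : IsOpen (WC i) := by
  exact isOpen_const.and (isOpen_DC.preimage (continuous_pow 2))

theorem BFacC_pos {x z y : ℂ} (h : x * z = 1) (h' : 0 < z.re * y.re) : 0 < x.re * y.re := by
  have b := BFacC_re (c := 1) h
  have c := mul_pos h' (Complex.normSq_pos.2 (left_ne_zero_of_mul_eq_one h))
  rwa [mul_right_comm, b, one_mul] at c

theorem rC_trans {i j l : Ix} {x z y : ℂ} (h : rC i x j z) (h' : rC j z l y) : rC i x l y := by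
  have e := h.2.2.1.add h'.2.2.1
  rw [sub_add_sub_cancel] at e
  rcases h.2.2.2 with ⟨rfl, rfl⟩ | a
  · exact h'
  rcases h'.2.2.2 with ⟨rfl, rfl⟩ | b
  · exact h
  refine ⟨h.1, h'.2.1, e, ?_⟩
  rcases a with a | a <;> rcases b with b | b
  · refine Or.inl ⟨by_contra fun c => ?_, by rw [← one_mul y, ← a.2, mul_assoc, b.2, mul_one]⟩
    have e1 := BFacC_sg h.1.1 h.2.1.1 a.1
    have e2 := BFacC_sg h.2.1.1 h'.2.1.1 b.1
    rw [e1, neg_neg, BFacC_sg h.1.1 h'.2.1.1 c] at e2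
    exact BFacC_ne _ (CharZero.neg_eq_self_iff.1 e2)
  · exact Or.inr (Or.inr (BFacC_pos a.2 b))
  · exact Or.inr (Or.inr (mul_comm y.re _ ▸ BFacC_pos ((mul_comm _ _).trans b.2) (mul_comm x.re _ ▸ a)))
  · refine Or.inr (Or.inr (not_le.1 fun c => ?_))
    nlinarith [mul_pos a b, mul_nonneg (neg_nonneg.2 c) (sq_nonneg z.re)]

theorem rC_inj {i : Ix} {x : ℂ} (hx : x ∈ WC i) :
    ∀ᶠ p in 𝓝 (x, x), rC i p.1 i p.2 → p.1 = p.2 := by
  have c : ContinuousAt (fun t : ℂ => sg i.1 * Yf (t ^ 2)) x := continuousAt_const.mul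
    ((analyticAt_Yf hx.2.1).continuousAt.comp (f := (· ^ 2)) (continuous_pow 2).continuousAt)
  have e := La_ev' (x := (x, x)) ((c.comp continuousAt_fst).sub (c.comp continuousAt_snd))
    (by simpa using La_zero)
  filter_upwards [e] with p hp h
  rcases rC_zero h (sub_eq_zero.1 ((hp h.2.2.1).trans (sub_self _))) with k | k
  exacts [k.2.symm, absurd rfl k.1]

theorem rC_small {i j : Ix} {x z : ℂ} (h : rC i x j z) (hx : ‖x‖ ≤ 1 / 10) : j = i ∧ z = x := by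
  obtain ⟨-, a, b⟩ := DC_small (P := x ^ 2) (by
    rw [norm_pow]
    nlinarith [norm_nonneg x])
  have e := sub_eq_zero.1 (La_small h.2.2.1
    ((BFacC_norm i j _ _).trans_lt (by linarith [h.2.1.2.2.1])))
  rcases rC_zero h e with k | k
  · exact ⟨k.1.symm, k.2⟩
  · rw [BFacC_sg h.1.1 h.2.1.1 k.1, neg_mul, ← mul_neg] at e
    have c := h.2.1.2.2.2
    rw [mul_left_cancel₀ (BFacC_ne _) e, Complex.neg_re] at b
    linarith

theorem BFacC_an {i : Ix} {x : ℂ} (hx : x ∈ WC i) :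
    AnalyticAt ℂ (fun t => sg i.1 * Yf (t ^ 2)) x :=
  analyticAt_const.mul ((analyticAt_Yf hx.2.1).comp (f := fun t => t ^ 2) (analyticAt_id.pow 2))

theorem BFacC_nn {i j : Ix} {x z : ℂ} (h : rC i x j z) : 0 ≤ x.re * z.re := by
  rcases h.2.2.2 with ⟨-, rfl⟩ | ⟨-, e⟩ | e
  · exact mul_self_nonneg _
  · rw [eq_inv_of_mul_eq_one_right e, Complex.inv_re, ← mul_div_assoc]
    exact div_nonneg (mul_self_nonneg _) (Complex.normSq_nonneg _)
  · exact e.le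

theorem BFacC_den {y : ℂ} (h : -(1 / 20) < y.re) : 10 * y + 1 ≠ 0 := fun e => by
  have := congrArg Complex.re e
  simp at this
  linarith

theorem rC_clo {i j : Ix} {x z : ℂ} (hx : x ∈ WC i) (hz : z ∈ WC j) (h : ¬ rC i x j z) :
    ∀ᶠ p in 𝓝 (x, z), ¬ rC i p.1 j p.2 := by
  have c : ContinuousAt (fun p : ℂ × ℂ => sg i.1 * Yf (p.1 ^ 2) - sg j.1 * Yf (p.2 ^ 2)) (x, z) :=
    ((BFacC_an hx).continuousAt.comp (f := Prod.fst) (x := (x, z)) continuousAt_fst).sub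
      ((BFacC_an hz).continuousAt.comp (f := Prod.snd) (x := (x, z)) continuousAt_snd)
  by_cases l : La (sg i.1 * Yf (x ^ 2) - sg j.1 * Yf (z ^ 2))
  swap
  · exact (c.eventually (La_closed.isOpen_compl.mem_nhds l)).mono fun p hp k => hp k.2.2.1
  have h' : ¬ _ := fun k => h ⟨hx, hz, l, k⟩
  simp only [not_or, not_and] at h'
  by_cases e : sg i.1 * Yf (x ^ 2) = sg j.1 * Yf (z ^ 2)
  · have k := La_ev' c l
    simp only [e, sub_self, sub_eq_zero] at k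
    by_cases ij : i = j
    · filter_upwards [k, (continuousAt_snd.ne_iff_eventually_ne continuousAt_fst).1 (h'.1 ij)]
        with p h1 h2 r
      exact (rC_zero r (h1 r.2.2.1)).elim (fun q => h2 q.2) fun q => q.1 ij
    · filter_upwards [k, ((continuousAt_fst.mul continuousAt_snd).ne_iff_eventually_ne
        continuousAt_const).1 (h'.2.1 ij)] with p h1 h2 r
      exact (rC_zero r (h1 r.2.2.1)).elim (fun q => ij q.1) fun q => h2 q.2
  · obtain ⟨h1, h2⟩ := rC_ne hx hz l e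
    have c' : Continuous fun p : ℂ × ℂ => p.1.re * p.2.re := by fun_prop
    exact (c'.continuousAt.eventually (gt_mem_nhds ((not_lt.1 h'.2.2).lt_of_ne
      (mul_ne_zero h1 h2)))).mono fun p hp r => hp.not_ge (BFacC_nn r)

theorem rC_hol {i j : Ix} {x z : ℂ} (h : rC i x j z) :
    ∃ g : ℂ → ℂ, AnalyticAt ℂ g x ∧ g x = z ∧ ∀ᶠ t in 𝓝 x, rC i t j (g t) := by
  have o : ∀ᶠ t in 𝓝 x, t ∈ WC i := (isOpen_WC i).mem_nhds h.1
  have o' : ∀ {g : ℂ → ℂ}, AnalyticAt ℂ g x → g x = z → ∀ᶠ t in 𝓝 x, g t ∈ WC j := fun a e =>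
    a.continuousAt.eventually ((isOpen_WC j).mem_nhds (e ▸ h.2.1))
  by_cases e : sg i.1 * Yf (x ^ 2) = sg j.1 * Yf (z ^ 2)
  · rcases rC_zero h e with ⟨rfl, rfl⟩ | ⟨ij, q⟩
    · exact ⟨id, analyticAt_id, rfl, o.mono fun t ht =>
        ⟨ht, ht, by rw [id, sub_self]; exact La_zero, Or.inl ⟨rfl, rfl⟩⟩⟩
    · have x0 := left_ne_zero_of_mul_eq_one q
      have a : AnalyticAt ℂ (fun t : ℂ => t⁻¹) x := analyticAt_id.inv x0
      have e' := (eq_inv_of_mul_eq_one_right q).symm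
      refine ⟨_, a, e', ?_⟩
      filter_upwards [o, o' a e', isOpen_ne.mem_nhds x0] with t h1 h2 h3
      refine ⟨h1, h2, ?_, Or.inr (Or.inl ⟨ij, mul_inv_cancel₀ h3⟩)⟩
      rw [inv_pow, Yf_inv (pow_ne_zero 2 h3) h1.2.1, BFacC_sg h1.1 h2.1 ij, neg_mul_neg, sub_self]
      exact La_zero
  obtain ⟨h1, h2⟩ := rC_ne h.1 h.2.1 h.2.2.1 e
  have z0 : z ^ 2 ≠ 0 := pow_ne_zero 2 fun k => h2 (by rw [k, Complex.zero_re])
  obtain ⟨l, hl⟩ : ∃ l, l = sg i.1 * Yf (x ^ 2) - sg j.1 * Yf (z ^ 2) := ⟨_, rfl⟩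
  obtain ⟨w, hw⟩ : ∃ w : ℂ → ℂ, w = fun t => sg j.1 * (sg i.1 * Yf (t ^ 2) - l) := ⟨_, rfl⟩
  have aw : AnalyticAt ℂ w x := hw ▸ analyticAt_const.mul ((BFacC_an h.1).sub analyticAt_const)
  have wx : w x = Yf (z ^ 2) := by
    rw [hw, hl]
    linear_combination Yf (z ^ 2) * sg_sq j.1
  have d : 10 * w x + 1 ≠ 0 := wx ▸ BFacC_den h.2.1.2.2.2
  have ad : AnalyticAt ℂ (fun t => 10 * w t + 1) x := by fun_prop
  have aG : AnalyticAt ℂ (fun t => Yi (w t) / z ^ 2) x :=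
    (AnalyticAt.div (by fun_prop) ad d).div analyticAt_const z0
  have Gx : Yi (w x) / z ^ 2 = 1 := by rw [wx, Yi_Yf h.2.1.2.1, div_self z0]
  have a : AnalyticAt ℂ (fun t => z * Complex.exp (Complex.log (Yi (w t) / z ^ 2) / 2)) x :=
    analyticAt_const.mul ((aG.clog (Gx ▸ Complex.one_mem_slitPlane)).div_const).cexp'
  have e' : z * Complex.exp (Complex.log (Yi (w x) / z ^ 2) / 2) = z := by simp [Gx]
  refine ⟨_, a, e', ?_⟩
  have c := ((Complex.continuous_re.continuousAt (x := x)).mul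
    (Complex.continuous_re.continuousAt.comp a.continuousAt)).eventually (lt_mem_nhds (a := 0) (by
      rw [Pi.mul_apply, Function.comp_apply, e']
      exact (BFacC_nn h).lt_of_ne' (mul_ne_zero h1 h2)))
  filter_upwards [o, o' a e', c, ad.continuousAt.eventually_ne d,
    aG.continuousAt.eventually_ne (Gx.trans_ne one_ne_zero)] with t k1 k2 k3 k4 k5
  refine ⟨k1, k2, ?_, Or.inr (Or.inr k3)⟩
  rw [mul_pow, ← Complex.exp_nat_mul, Nat.cast_ofNat, mul_div_cancel₀ _ two_ne_zero,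
    Complex.exp_log k5, mul_div_cancel₀ _ z0, (Yf_Yi k4).2, hw, ← mul_assoc, sg_sq, one_mul,
    sub_sub_cancel, hl]
  exact h.2.2.1

theorem BFacC_K {P : ℂ} (h : ‖P‖ ≤ 1) (h' : 2 * ‖1 + P‖ ≤ 15 * ‖1 - P‖) : P ∈ DC := by
  have p1 : P ≠ 1 := fun e => by norm_num [e] at h'
  have p2 : 0 < ‖1 - P‖ := norm_pos_iff.2 (sub_ne_zero.2 p1.symm)
  refine ⟨p1, ?_, lt_of_lt_of_le (b := 0) (by norm_num) ?_⟩
  · rw [Yf, norm_div, norm_mul, Complex.norm_ofNat, div_lt_iff₀ (by positivity)]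
    linarith
  · have := Complex.sq_norm P
    rw [Yf, Complex.div_re, ← add_div]
    refine div_nonneg ?_ (Complex.normSq_nonneg _)
    simp only [Complex.normSq_apply] at this
    simp
    nlinarith [norm_nonneg P]

theorem rC_cpt : ∃ K : Ix → Set ℂ, (∀ i, IsCompact (K i) ∧ K i ⊆ WC i) ∧
    ∀ i, ∀ x ∈ WC i, ∃ j, ∃ z ∈ K j, rC i x j z := by
  have sub : ∀ (i : Ix) (x : ℂ), i.2 = false ∧ ‖x‖ ≤ 1 ∧ 2 * ‖1 + x ^ 2‖ ≤ 15 * ‖1 - x ^ 2‖ →
      x ∈ WC i := fun i x h =>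
    ⟨h.1, BFacC_K (by rw [norm_pow]; exact pow_le_one₀ (norm_nonneg _) h.2.1) h.2.2⟩
  refine ⟨fun i => {x | i.2 = false ∧ ‖x‖ ≤ 1 ∧ 2 * ‖1 + x ^ 2‖ ≤ 15 * ‖1 - x ^ 2‖},
    fun i => ⟨(isCompact_closedBall 0 1).of_isClosed_subset (isClosed_const.inter
      ((isClosed_le continuous_norm continuous_const).inter (isClosed_le
        (f := fun x : ℂ => 2 * ‖1 + x ^ 2‖) (g := fun x => 15 * ‖1 - x ^ 2‖) (by fun_prop)
        (by fun_prop)))) fun x hx => mem_closedBall_zero_iff.2 hx.2.1, sub i⟩, fun i x hx => ?_⟩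
  obtain ⟨w, lw, h1, h2⟩ := La_round (sg i.1 * Yf (x ^ 2))
  obtain ⟨y, hy⟩ : ∃ y, y = sg i.1 * Yf (x ^ 2) - w := ⟨_, rfl⟩
  rw [← hy] at h1 h2
  obtain ⟨b, hb⟩ : ∃ b, 0 ≤ (sg b * y).re := by
    rcases le_total 0 y.re with k | k
    exacts [⟨false, by simpa [sg] using k⟩, ⟨true, by simpa [sg] using k⟩]
  obtain ⟨u, hu⟩ : ∃ u, u = sg b * y := ⟨_, rfl⟩
  rw [← hu] at hb
  have d := BFacC_den (y := u) (by linarith)
  obtain ⟨p1, p2⟩ := Yf_Yi d
  have nu : ‖u‖ ≤ 3 / 4 := by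
    rw [hu, norm_mul, norm_sg, one_mul]
    refine (pow_le_pow_iff_left₀ (norm_nonneg _) (by norm_num) two_ne_zero).1 ?_
    rw [Complex.sq_norm, Complex.normSq_apply]
    nlinarith [abs_le.1 h1, abs_le.1 h2]
  have nP : ‖Yi u‖ ≤ 1 := by
    rw [Yi, norm_div]
    refine div_le_one_of_le₀ ((pow_le_pow_iff_left₀ (norm_nonneg _) (norm_nonneg _)
      two_ne_zero).1 ?_) (norm_nonneg _)
    simp only [Complex.sq_norm, Complex.normSq_apply]
    simp
    nlinarith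
  have key : ∀ z, z ^ 2 = Yi u → (false = false ∧ ‖z‖ ≤ 1 ∧
      2 * ‖1 + z ^ 2‖ ≤ 15 * ‖1 - z ^ 2‖) ∧ sg i.1 * Yf (x ^ 2) - sg b * Yf (z ^ 2) = w :=
    fun z e => ⟨⟨rfl, (pow_le_one_iff_of_nonneg (norm_nonneg _) two_ne_zero).1
      (by rwa [← norm_pow, e]), by
        have p3 : 0 < ‖1 - Yi u‖ := norm_pos_iff.2 (sub_ne_zero.2 p1.symm)
        rw [← p2, Yf, norm_div, norm_mul, Complex.norm_ofNat, div_le_iff₀ (by positivity)] at nu
        rw [e]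
        linarith⟩, by rw [e, p2, hu, ← mul_assoc, sg_sq, one_mul, hy, sub_sub_cancel]⟩
  suffices k : ∃ z, z ^ 2 = Yi u ∧
      ((i = (b, false) ∧ z = x) ∨ (i ≠ (b, false) ∧ x * z = 1) ∨ 0 < x.re * z.re) by
    obtain ⟨z, e, k⟩ := k
    exact ⟨(b, false), z, (key z e).1, hx, sub _ z (key z e).1, (key z e).2 ▸ lw, k⟩
  rcases eq_or_ne w 0 with rfl | w0
  · rw [sub_zero] at hy
    by_cases ij : i = (b, false)
    · refine ⟨x, ?_, Or.inl ⟨ij, rfl⟩⟩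
      rw [hu, hy, ij, ← mul_assoc, sg_sq, one_mul, Yi_Yf hx.2.1]
    · have e : u = -Yf (x ^ 2) := by
        rw [hu, hy, show sg b = _ from BFacC_sg hx.1 rfl ij]
        linear_combination -Yf (x ^ 2) * sg_sq i.1
      refine ⟨x⁻¹, by rw [e, Yi_neg, Yi_Yf hx.2.1, inv_pow],
        Or.inr (Or.inl ⟨ij, mul_inv_cancel₀ fun x0 => ?_⟩)⟩
      norm_num [e, x0, Yf] at hb
  · obtain ⟨z, e⟩ := IsAlgClosed.exists_pow_nat_eq (Yi u) two_pos
    obtain ⟨k1, k2⟩ := rC_ne hx (sub (b, false) z (key z e).1) ((key z e).2 ▸ lw)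
      (sub_ne_zero.1 ((key z e).2 ▸ w0))
    rcases lt_or_gt_of_ne (mul_ne_zero k1 k2) with k | k
    · exact ⟨-z, by rwa [neg_sq], Or.inr (Or.inr (by simpa using k))⟩
    · exact ⟨z, e, Or.inr (Or.inr k)⟩

theorem facC : Fac WC rC := by
  refine ⟨isOpen_WC, fun h => h.1, fun h => ⟨h, h, ?_, Or.inl ⟨rfl, rfl⟩⟩,
    fun h => ⟨h.2.1, h.1, ?_, ?_⟩, rC_trans, rC_inj, rC_clo, fun h => ?_, rC_hol, fun h => ?_,
    rC_small, rC_cpt⟩
  · rw [sub_self]
    exact La_zero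
  · rw [← neg_sub]
    exact h.2.2.1.neg
  · exact h.2.2.2.imp (fun k => ⟨k.1.symm, k.2.symm⟩) (Or.imp
      (fun k => ⟨k.1.symm, (mul_comm _ _).trans k.2⟩) fun k => k.trans_eq (mul_comm _ _))
  · simpa only [rC, WC, mem_ofPred_eq, neg_sq, neg_inj, neg_mul_neg, Complex.neg_re] using h
  · rcases h.2.2.2 with k | k | k
    · exact CharZero.neg_eq_self_iff.1 k.2
    · exact absurd rfl k.1
    · rw [Complex.neg_re, mul_neg, neg_pos] at k
      exact absurd (mul_self_nonneg _) k.not_ge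

theorem lnkC {i j : Ix} (hi : i.2 = false) (hj : j.2 = false) : ∃ x z, x ≠ 0 ∧ rC i x j z := by
  have y : Yf (-1) = 0 := by simp [Yf]
  have d : (-1 : ℂ) ∈ DC := ⟨by norm_num, by rw [y]; norm_num, by rw [y]; norm_num⟩
  have e : (-Complex.I) ^ 2 = -1 := by rw [neg_sq, Complex.I_sq]
  by_cases c : i = j
  · subst c
    exact ⟨_, _, Complex.I_ne_zero, facC.refl ⟨hi, Complex.I_sq ▸ d⟩⟩
  · refine ⟨_, -Complex.I, Complex.I_ne_zero, ⟨hi, Complex.I_sq ▸ d⟩, ⟨hj, e ▸ d⟩, ?_,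
      Or.inr (Or.inl ⟨c, by simp⟩)⟩
    rw [e, Complex.I_sq, y, mul_zero, mul_zero, sub_zero]
    exact La_zero

theorem DmC (i : Ix) : Dm WC i = {P | i.2 = false ∧ P ∈ DC} := by
  ext P
  refine ⟨?_, fun h => ?_⟩
  · rintro ⟨x, hx, rfl⟩
    exact hx
  · obtain ⟨x, rfl⟩ := IsAlgClosed.exists_pow_nat_eq P two_pos
    exact ⟨x, h, rfl⟩

theorem fack (k : Fin 3) : Fac (Wk k) (rk k) := by
  fin_cases k
  exacts [facC, facC, facE]

end Pool.Agent.Work.MP_bf98aa_gt.Ki
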