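import Pool.Agent.Work.MP_bf98aa_gt.Ki.BRR

/-!
The profile functions.

PLAN. `psi t / t` is smooth: it vanishes for `t < 1 / 20000` and `t ≠ 0` elsewhere. `kk`: `Continuous.deriv_integral`/`intervalIntegral.integral_hasDerivAt_right`, `contDiff_infty_iff_deriv`.
`kk_log`: `kk r - log r` has derivative `0` on `[1 / 10000, r]`, or split the integral (`integral_inv_of_pos`). `deriv_psi_nonneg`: `Real.smoothTransition.monotone`, `Monotone.deriv_nonneg`.
`exists_mid`: mean value theorem on `[1 / 20000, 3 / 40000]`. `kk_le`, `kk_ge`: `log r - kk r` is monotone on `r > 0` (derivative `(1 - psi r) / r`), constant from `1 / 10000` on, `0 ≤ kk r`.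
`RR_wt`: `RR.small`, else `kk_log` twice. `lH`: on `a > b / 10000`, `0 ≤ b` it equals `log a + c0` (`kk_log`, `Real.log_div`); `lH_sm`: at `b > 0` the second formula holds nearby for the function
`if`; at `b = 0 < a` use `lH_far` nearby (only on the set `0 ≤ b`, hence the formulation with functions).
-/

set_option autoImplicit false

noncomputable section

open scoped ContDiff Topology
open Set Filter

namespace Pool.Agent.Work.MP_bf98aa_gt.Ki

open Pool.Agent.Work.MP_bf98aa_gt.Th Pool.Agent.Work.MP_bf98aa_gt.Cp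

theorem contDiff_psi : ContDiff ℝ ∞ psi :=
  Real.smoothTransition.contDiff.comp (by fun_prop : ContDiff ℝ ∞ fun t : ℝ => 20000 * t - 1)

theorem psi_mem (t : ℝ) : 0 ≤ psi t ∧ psi t ≤ 1 :=
  ⟨Real.smoothTransition.nonneg _, Real.smoothTransition.le_one _⟩

theorem psi_one {t : ℝ} (h : 1 / 10000 ≤ t) : psi t = 1 :=
  Real.smoothTransition.one_of_one_le (by linarith)

theorem deriv_psi_nonneg (t : ℝ) : 0 ≤ deriv psi t :=
  Monotone.deriv_nonneg fun _ _ h => Real.smoothTransition.monotone (by linarith)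

theorem BProf_zero {t : ℝ} (h : t ≤ 1 / 20000) : psi t = 0 :=
  Real.smoothTransition.zero_of_nonpos (by linarith)

theorem deriv_psi_zero {t : ℝ} (h : t < 1 / 20000 ∨ 1 / 10000 < t) : deriv psi t = 0 := by
  rcases h with h | h
  · exact (EventuallyEq.deriv_eq ((eventually_lt_nhds h).mono fun _ hy =>
      BProf_zero hy.le)).trans (deriv_const t 0)
  · exact (EventuallyEq.deriv_eq ((eventually_gt_nhds h).mono fun _ hy =>
      psi_one hy.le)).trans (deriv_const t 1)

theorem exists_mid : ∃ t, 1 / 20000 < t ∧ t < 1 / 10000 ∧ 0 < deriv psi t ∧ psi t < 1 := by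
  obtain ⟨t, ⟨h1, h2⟩, h⟩ := exists_deriv_eq_slope psi (a := 1 / 20000) (b := 3 / 40000)
    (by norm_num) contDiff_psi.continuous.continuousOn
    (contDiff_psi.differentiable (by simp)).differentiableOn
  refine ⟨t, h1, by linarith, ?_, Real.smoothTransition.lt_one_of_lt_one (by linarith)⟩
  rw [h, BProf_zero le_rfl, sub_zero]
  exact div_pos (Real.smoothTransition.pos_of_pos (by norm_num)) (by norm_num)

theorem BProf_sm : ContDiff ℝ ∞ fun t => psi t / t := by
  refine contDiff_iff_contDiffAt.2 fun t => ?_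
  rcases eq_or_ne t 0 with rfl | h
  · exact (contDiffAt_const (c := (0 : ℝ))).congr_of_eventuallyEq
      ((eventually_lt_nhds (show (0 : ℝ) < 1 / 20000 by norm_num)).mono fun y hy => by
        simp only [BProf_zero hy.le, zero_div])
  · exact contDiff_psi.contDiffAt.div contDiffAt_id h

theorem BProf_d (r : ℝ) : HasDerivAt kk (psi r / r) r :=
  (BProf_sm.continuous.integral_hasStrictDerivAt 0 r).hasDerivAt

theorem contDiff_kk : ContDiff ℝ ∞ kk :=
  contDiff_infty_iff_deriv.2 ⟨fun r => (BProf_d r).differentiableAt,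
    (funext fun r => (BProf_d r).deriv : deriv kk = _) ▸ BProf_sm⟩

theorem deriv_kk (r : ℝ) : deriv kk r = psi r / r :=
  (BProf_d r).deriv

theorem mul_deriv_kk (r : ℝ) : r * deriv kk r = psi r := by
  rcases eq_or_ne r 0 with rfl | h
  · rw [zero_mul, BProf_zero (by norm_num)]
  · rw [deriv_kk, mul_div_cancel₀ _ h]

theorem kk_lap (r : ℝ) : deriv kk r + r * deriv (deriv kk) r = deriv psi r := by
  have h := (hasDerivAt_id' r).mul
    ((contDiff_infty_iff_deriv.1 contDiff_kk).2.differentiable (by simp) r).hasDerivAt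
  rw [one_mul] at h
  rw [← funext mul_deriv_kk]
  exact h.deriv.symm

theorem kk_zero {r : ℝ} (h : r ≤ 1 / 20000) : kk r = 0 :=
  (intervalIntegral.integral_congr (g := fun _ => 0) fun t ht => by
    simp only [BProf_zero (ht.2.trans (max_le (by norm_num) h)), zero_div]).trans
    intervalIntegral.integral_zero

theorem BProf_split (a r : ℝ) : kk r = kk a + ∫ t in a..r, psi t / t :=
  (intervalIntegral.integral_add_adjacent_intervals (BProf_sm.continuous.intervalIntegrable _ _)
    (BProf_sm.continuous.intervalIntegrable _ _)).symm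

theorem kk_log {r : ℝ} (h : 1 / 10000 ≤ r) : kk r = Real.log r + c0 := by
  have h0 : (0 : ℝ) < 1 / 10000 := by norm_num
  rw [BProf_split (1 / 10000), intervalIntegral.integral_congr (g := fun t => 1 / t) fun t ht => by
    simp only [psi_one ((le_min le_rfl h).trans ht.1)],
    integral_one_div_of_pos h0 (h0.trans_le h), Real.log_div (h0.trans_le h).ne' h0.ne', c0]
  ring

theorem kk_le {r : ℝ} (h : 0 ≤ r) : r * Real.exp (-kk r) ≤ 1 / 10000 := by
  have k : ∀ r, 0 ≤ r → r * Real.exp (-kk r) ≤ r := fun r hr => mul_le_of_le_one_right hr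
    (Real.exp_le_one_iff.2 (neg_nonpos.2 (intervalIntegral.integral_nonneg hr fun t ht =>
      div_nonneg (psi_mem t).1 ht.1)))
  have e : ∀ r, 1 / 10000 ≤ r → r * Real.exp (-kk r) = Real.exp (-c0) := fun r hr => by
    have : 0 < r := by linarith
    rw [kk_log hr, neg_add, Real.exp_add, Real.exp_neg, Real.exp_log this,
      mul_inv_cancel_left₀ this.ne']
  rcases le_total r (1 / 10000) with h' | h'
  · exact (k r h).trans h'
  · exact ((e r h').trans (e _ le_rfl).symm).trans_le (k _ (by norm_num))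

theorem kk_ge {r : ℝ} (h : 1 / 20000 ≤ r) : 1 / 20000 ≤ r * Real.exp (-kk r) := by
  have h0 : (0 : ℝ) < 1 / 20000 := by norm_num
  have h1 := h0.trans_le h
  have k : kk r ≤ Real.log (r / (1 / 20000)) := by
    rw [BProf_split (1 / 20000), kk_zero le_rfl, zero_add, ← integral_one_div_of_pos h0 h1]
    exact intervalIntegral.integral_mono_on h (BProf_sm.continuous.intervalIntegrable _ _)
      (intervalIntegral.intervalIntegrable_one_div (fun t ht => (h0.trans_le
        ((le_min le_rfl h).trans ht.1)).ne') continuousOn_id) fun t ht =>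
      div_le_div_of_nonneg_right (psi_mem t).2 (h0.le.trans ht.1)
  rw [Real.exp_neg, ← div_eq_mul_inv, le_div_iff₀' (Real.exp_pos _), ← le_div_iff₀ h0]
  exact (Real.le_log_iff_exp_le (div_pos h1 h0)).1 k

theorem contDiff_lw : ContDiff ℝ ∞ lw := by
  exact ((contDiff_kk.comp (contDiff_norm_sq ℝ)).div_const 2).neg

theorem contDiff_wt : ContDiff ℝ ∞ wt := by
  exact contDiff_lw.exp

theorem wt_pos (P : ℂ) : 0 < wt P := by
  exact Real.exp_pos _

theorem BProf_sq (P : ℂ) : (‖P‖ * wt P) ^ 2 = ‖P‖ ^ 2 * Real.exp (-kk (‖P‖ ^ 2)) := by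
  rw [mul_pow, wt, ← Real.exp_nat_mul, lw]
  congr 2
  push_cast
  ring

theorem wt_le (P : ℂ) : ‖P‖ * wt P ≤ 1 / 100 := by
  have h := kk_le (sq_nonneg ‖P‖)
  rw [← BProf_sq] at h
  nlinarith [mul_nonneg (norm_nonneg P) (wt_pos P).le]

theorem wt_small {P : ℂ} (h : ‖P‖ * wt P < 1 / 200) : ‖P‖ ^ 2 < 1 / 20000 := by
  by_contra k
  have h1 := kk_ge (not_lt.1 k)
  rw [← BProf_sq] at h1
  nlinarith [mul_nonneg (norm_nonneg P) (wt_pos P).le]

theorem lw_zero {P : ℂ} (h : ‖P‖ ^ 2 ≤ 1 / 20000) : lw P = 0 := by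
  rw [lw, kk_zero h, zero_div, neg_zero]

theorem RR_lw {W : Ix → Set ℂ} {r : Ix → ℂ → Ix → ℂ → Prop} (h : Fac W r) {i j : Ix} {P m : ℂ}
    (hr : RR r i P j m) : lw (m ^ 2 * P) = lw P - Real.log (‖m‖ ^ 2) := by
  by_cases hs : ‖P‖ ≤ 1 / 100 ∨ ‖m ^ 2 * P‖ ≤ 1 / 100
  · rw [(hr.small h hs).2]
    simp
  · rw [not_or, not_le, not_le] at hs
    have k : ∀ Q : ℂ, 1 / 100 < ‖Q‖ → lw Q = -(Real.log ‖Q‖ + c0 / 2) := fun Q a => by
      rw [lw, kk_log (by nlinarith), Real.log_pow]
      push_cast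
      ring
    have hm : ‖m‖ ^ 2 ≠ 0 := pow_ne_zero 2 (norm_ne_zero_iff.2 hr.ne)
    rw [k _ hs.1, k _ hs.2, norm_mul, norm_pow, Real.log_mul hm (by linarith [hs.1])]
    ring

theorem RR_wt {W : Ix → Set ℂ} {r : Ix → ℂ → Ix → ℂ → Prop} (h : Fac W r) {i j : Ix} {P m : ℂ}
    (hr : RR r i P j m) : wt (m ^ 2 * P) * ‖m‖ ^ 2 = wt P := by
  rw [wt, RR_lw h hr, Real.exp_sub, Real.exp_log (pow_pos (norm_pos_iff.2 hr.ne) 2),
    div_mul_cancel₀ _ (pow_ne_zero 2 (norm_ne_zero_iff.2 hr.ne)), wt]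

theorem lH_far {a b : ℝ} (hb : 0 ≤ b) (h : b / 10000 < a) : lH a b = Real.log a + c0 := by
  rw [lH]
  split_ifs with e
  · rfl
  · have h1 : 0 < b := hb.lt_of_ne' e
    have h2 : 0 < a := by linarith
    rw [kk_log ((le_div_iff₀ h1).2 (by linarith)), Real.log_div h2.ne' e]
    ring

theorem lH_mul {a b s : ℝ} (hs : 0 < s) (h : a ≠ 0 ∨ b ≠ 0) :
    lH (s * a) (s * b) = lH a b + Real.log s := by
  by_cases e : b = 0
  · rw [lH, lH, if_pos e, if_pos (by rw [e, mul_zero]),
      Real.log_mul hs.ne' (h.resolve_right (not_not.2 e))]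
    ring
  · rw [lH, lH, if_neg e, if_neg (mul_ne_zero hs.ne' e), Real.log_mul hs.ne' e,
      mul_div_mul_left _ _ hs.ne']
    ring

theorem lH_sm {X : Type} [NormedAddCommGroup X] [NormedSpace ℝ X] {a b : X → ℝ} {x : X}
    (ha : ContDiffAt ℝ ∞ a x) (hb : ContDiffAt ℝ ∞ b x) (h0 : ∀ y, 0 ≤ b y)
    (h : 0 < a x ∨ 0 < b x) : ContDiffAt ℝ ∞ (fun y => lH (a y) (b y)) x := by
  rcases (h0 x).eq_or_lt with e | e
  · have h1 : 0 < a x := h.resolve_right e.not_lt
    refine ((ha.log h1.ne').add (contDiffAt_const (c := c0))).congr_of_eventuallyEq ?_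
    filter_upwards [(hb.continuousAt.div_const 10000).eventually_lt ha.continuousAt
      (by rw [← e, zero_div]; exact h1)] with y hy using lH_far (h0 y) hy
  · refine ((hb.log e.ne').add (contDiff_kk.contDiffAt.comp x
      (ha.div hb e.ne'))).congr_of_eventuallyEq ?_
    filter_upwards [hb.continuousAt.eventually_ne e.ne'] with y hy using if_neg hy

end Pool.Agent.Work.MP_bf98aa_gt.Ki
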