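import Pool.Agent.Work.MP_bf98aa_gt.Ki.BMan
import Pool.Agent.Work.MP_bf98aa_gt.Ki.BProf
import Pool.Agent.Work.MP_bf98aa_gt.Ki.BDc

/-!
Derivatives of the gluing maps.

PLAN. `E_deriv`: if `‖P‖ < 1 / 100` then `μ = 1` nearby (`RR.small`). Else take the root `s` of `exists_root`; `tau i + s Q - tau j - μ Q * s Q` is Gaussian (`RR.root`), hence locally constant (`La_ev`); so
`μ Q ^ 2 * Q = (s Q + c) ^ 2` and `2 s s' = 1`. `C_deriv`: `sg i.1 * Yf Q - sg j.1 * Yf (μ Q ^ 2 * Q)` is locally constant; differentiate. `HL.det0`: differentiate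
`(tP j (γ x) k)_k = (G k (tP i x k))_k` (`det_tP`, `det_diag`, `LinearMap.det_comp`), use `TR.t0`. `HL.det`: `HL.ev`, `HL.det0`, both sides are continuous near `p` and agree on the dense set `t0 ≠ 0` (`dense_t0`;
continuity of `x ↦ (fderiv ℂ γ x).det`: `AnalyticAt.fderiv`, `ContinuousLinearMap.continuous_det`). `AA_cmp`: `lift_HL`, `cmp_dc` with `c = jac`, `RR_lw`, `norm_sg`, `Real.log_mul`, `Real.log_div`.
-/

set_option autoImplicit false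

noncomputable section

open scoped ContDiff Topology
open Set Filter

namespace Pool.Agent.Work.MP_bf98aa_gt.Ki

open Pool.Agent.Work.MP_bf98aa_gt.Th Pool.Agent.Work.MP_bf98aa_gt.Cp

variable {i j : Jx} {p q : E3} {m : Fin 3 → ℂ} {γ : E3 → E3} {μ : Fin 3 → ℂ → ℂ}

theorem RR_C {a b : Ix} {P n : ℂ} (h : RR rC a P b n) :
    La (sg a.1 * Yf P - sg b.1 * Yf (n ^ 2 * P)) := by
  obtain ⟨x, rfl, -, -, k⟩ := h
  rw [← mul_pow]
  exact k.2.2.1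

theorem E_deriv {a b : Ix} {P : ℂ} {ν : ℂ → ℂ} (hν : AnalyticAt ℂ ν P)
    (h : ∀ᶠ Q in 𝓝 P, RR rE a Q b (ν Q)) : HasDerivAt (fun Q => ν Q ^ 2 * Q) (ν P) P := by
  by_cases h0 : P = 0
  · have e : ∀ᶠ Q in 𝓝 P, ν Q = 1 := by
      have k : ∀ᶠ Q in 𝓝 P, ‖Q‖ < 1 / 100 :=
        continuous_norm.continuousAt.eventually_lt continuousAt_const (by rw [h0]; norm_num)
      filter_upwards [h, k] with Q h1 h2 using (h1.small facE (Or.inl h2.le)).2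
    rw [e.self_of_nhds]
    refine (hasDerivAt_id P).congr_of_eventuallyEq ?_
    filter_upwards [e] with Q h1
    rw [h1, one_pow, one_mul, id]
  obtain ⟨x, rfl, -⟩ := h.self_of_nhds
  obtain ⟨s, s1, s2, s3⟩ := exists_root (x := x) fun e => h0 (by rw [e]; norm_num)
  have k := La_ev (f := fun Q => tau a + s Q - tau b - ν Q * s Q)
    (((continuousAt_const.add s1.continuousAt).sub continuousAt_const).sub
      (hν.continuousAt.mul s1.continuousAt))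
    (by filter_upwards [h, s3] with Q h1 h2 using (h1.root facE h2).2.2)
  have d := s1.differentiableAt.hasDerivAt
  have e1 : ((2 : ℕ) : ℂ) * s (x ^ 2) ^ (2 - 1) * deriv s (x ^ 2) = 1 :=
    (d.fun_pow 2).unique ((hasDerivAt_id _).congr_of_eventuallyEq s3)
  have d2 := (d.add_const (ν (x ^ 2) * s (x ^ 2) - s (x ^ 2))).fun_pow 2
  refine (d2.congr_of_eventuallyEq ?_).congr_deriv ?_
  · filter_upwards [k, s3] with Q h1 h2
    have : s Q + (ν (x ^ 2) * s (x ^ 2) - s (x ^ 2)) = ν Q * s Q := by linear_combination h1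
    rw [this, mul_pow, h2]
  · norm_num at e1 ⊢
    linear_combination ν (x ^ 2) * e1

theorem BJac_ne {a b : Ix} {P n : ℂ} (h : RR rC a P b n) : P ≠ 1 ∧ n ^ 2 * P ≠ 1 := by
  obtain ⟨x, rfl, -, -, k⟩ := h
  rw [← mul_pow]
  exact ⟨k.1.2.1, k.2.1.2.1⟩

theorem BJac_sg (b : Bool) : sg b ≠ 0 := left_ne_zero_of_mul_eq_one (sg_sq b)

theorem C_deriv {a b : Ix} {P : ℂ} {ν : ℂ → ℂ} (hν : AnalyticAt ℂ ν P)
    (h : ∀ᶠ Q in 𝓝 P, RR rC a Q b (ν Q)) :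
    HasDerivAt (fun Q => ν Q ^ 2 * Q) (sg a.1 * Yd P / (sg b.1 * Yd (ν P ^ 2 * P))) P := by
  obtain ⟨n1, n2⟩ := BJac_ne h.self_of_nhds
  have d := ((hν.pow 2).mul analyticAt_id).differentiableAt.hasDerivAt
  obtain ⟨D, d⟩ : ∃ D, HasDerivAt (fun Q => ν Q ^ 2 * Q) D P := ⟨_, d⟩
  have d1 : HasDerivAt (fun Q => sg a.1 * Yf Q - sg b.1 * Yf (ν Q ^ 2 * Q))
      (sg a.1 * Yd P - sg b.1 * (Yd (ν P ^ 2 * P) * D)) P :=
    ((hasDerivAt_Yf n1).const_mul _).sub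
      ((HasDerivAt.comp (h := fun Q => ν Q ^ 2 * Q) P (hasDerivAt_Yf n2) d).const_mul _)
  have k := La_ev d1.continuousAt (h.mono fun Q e => RR_C e)
  have e := d1.unique ((hasDerivAt_const P _).congr_of_eventuallyEq k)
  refine d.congr_deriv ?_
  rw [eq_div_iff (mul_ne_zero (BJac_sg _) (Yd_ne n2))]
  linear_combination -e

/-- The complex Jacobian. -/
def jac (i j : Jx) (μ : Fin 3 → ℂ → ℂ) (x : E3) : ℂ :=
  sg (i.1 0).1 * Yd (tP i.2 x 0) /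
      (sg (j.1 0).1 * Yd (μ 0 (tP i.2 x 0) ^ 2 * tP i.2 x 0) * μ 0 (tP i.2 x 0)) *
    (sg (i.1 1).1 * Yd (tP i.2 x 1) /
      (sg (j.1 1).1 * Yd (μ 1 (tP i.2 x 1) ^ 2 * tP i.2 x 1) * μ 1 (tP i.2 x 1)))

theorem BJac_an {a b : Ix} {f : E3 → ℂ} {ν : ℂ → ℂ} (hf : AnalyticAt ℂ f p)
    (hν : AnalyticAt ℂ ν (f p)) (h : RR rC a (f p) b (ν (f p))) :
    AnalyticAt ℂ (fun x => sg a.1 * Yd (f x) / (sg b.1 * Yd (ν (f x) ^ 2 * f x) * ν (f x))) p ∧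
      sg a.1 * Yd (f p) / (sg b.1 * Yd (ν (f p) ^ 2 * f p) * ν (f p)) ≠ 0 := by
  obtain ⟨n1, n2⟩ := BJac_ne h
  have k := mul_ne_zero (mul_ne_zero (BJac_sg b.1) (Yd_ne n2)) h.ne
  have a1 : AnalyticAt ℂ (fun x => ν (f x)) p := hν.comp hf
  have a2 : AnalyticAt ℂ (fun x => Yd (f x)) p := (analyticAt_Yd n1).comp hf
  have a3 : AnalyticAt ℂ (fun x => Yd (ν (f x) ^ 2 * f x)) p :=
    (analyticAt_Yd n2).comp (f := fun x => ν (f x) ^ 2 * f x) ((a1.pow 2).mul hf)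
  exact ⟨(analyticAt_const.mul a2).div ((analyticAt_const.mul a3).mul a1) k,
    div_ne_zero (mul_ne_zero (BJac_sg _) (Yd_ne n1)) k⟩

theorem HL.jac_an (h : HL i j p γ μ) : AnalyticAt ℂ (jac i j μ) p ∧ jac i j μ p ≠ 0 := by
  obtain ⟨a1, n1⟩ := BJac_an (analyticAt_tP i.2 0 p) (h.2.1 0) (h.2.2.1 0).self_of_nhds
  obtain ⟨a2, n2⟩ := BJac_an (analyticAt_tP i.2 1 p) (h.2.1 1) (h.2.2.1 1).self_of_nhds
  exact ⟨a1.mul a2, mul_ne_zero n1 n2⟩

theorem BJac_det (A B : E3 →L[ℂ] E3) : (A.comp B).det = A.det * B.det :=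
  LinearMap.det_comp (A : E3 →ₗ[ℂ] E3) (B : E3 →ₗ[ℂ] E3)

theorem HL.det0 (h : HL i j p γ μ) : t0 p * (fderiv ℂ γ p).det = t0 p * jac i j μ p := by
  have R := h.2.2.2.self_of_nhds
  have dT : ∀ T x, DifferentiableAt ℂ (fun x => ((tP T x 0, tP T x 1, tP T x 2) : E3)) x :=
    fun T x => ((analyticAt_tP T 0 x).prod
      ((analyticAt_tP T 1 x).prod (analyticAt_tP T 2 x))).differentiableAt
  obtain ⟨d1, d2⟩ := det_diag (G := fun k Q => μ k Q ^ 2 * Q) (d := ![_, _, _])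
    (z := (tP i.2 p 0, tP i.2 p 1, tP i.2 p 2)) (C_deriv (h.2.1 0) (h.2.2.1 0))
    (C_deriv (h.2.1 1) (h.2.2.1 1)) (E_deriv (h.2.1 2) (h.2.2.1 2))
  have e : (fun x => ((tP j.2 x 0, tP j.2 x 1, tP j.2 x 2) : E3)) ∘ γ =ᶠ[𝓝 p]
      (fun x : E3 => ((μ 0 x.1 ^ 2 * x.1, μ 1 x.2.1 ^ 2 * x.2.1, μ 2 x.2.2 ^ 2 * x.2.2) : E3)) ∘
        fun x => ((tP i.2 x 0, tP i.2 x 1, tP i.2 x 2) : E3) :=
    h.2.2.2.mono fun x hx => Prod.ext (hx.2 0).1 (Prod.ext (hx.2 1).1 (hx.2 2).1)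
  have k := congrArg ContinuousLinearMap.det (e.fderiv_eq (𝕜 := ℂ))
  rw [fderiv_comp p (dT _ _) h.1.differentiableAt, fderiv_comp p d1 (dT _ _), BJac_det, BJac_det,
    det_tP, det_tP, d2, R.2.t0 R.ne] at k
  have m0 := R.ne 0
  have m1 := R.ne 1
  refine mul_left_cancel₀ (mul_ne_zero (mul_ne_zero (mul_ne_zero two_ne_zero m0) m1) (R.ne 2)) ?_
  rw [jac, ← div_div _ _ (μ 0 _), ← div_div _ _ (μ 1 _)]
  refine Eq.trans (by ring) (k.trans ?_)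
  simp only [Matrix.cons_val_zero, Matrix.cons_val_one, Matrix.cons_val]
  generalize sg (i.1 0).1 * _ / _ = a
  generalize sg (i.1 1).1 * _ / _ = b
  field_simp

theorem HL.det (h : HL i j p γ μ) : ∀ᶠ x in 𝓝 p, (fderiv ℂ γ x).det = jac i j μ x := by
  filter_upwards [h.ev] with x hx
  refine tendsto_nhds_unique_of_frequently_eq
    (ContinuousLinearMap.continuous_det.continuousAt.comp hx.1.fderiv.continuousAt)
    hx.jac_an.1.continuousAt ?_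
  exact ((mem_closure_iff_frequently.1 (dense_t0 x)).and_eventually hx.ev).mono
    fun y hy => mul_left_cancel₀ hy.1 hy.2.det0

theorem HL.dP_two (h : HL i j p γ μ) (v : E3) :
    dP 2 j (γ p) (fderiv ℂ γ p v) = μ 2 (tP i.2 p 2) * dP 2 i p v := by
  have d1 := (analyticAt_tP j.2 2 (γ p)).differentiableAt.hasFDerivAt.comp p
    h.1.differentiableAt.hasFDerivAt
  have d2 := (E_deriv (h.2.1 2) (h.2.2.1 2)).comp_hasFDerivAt p
    (analyticAt_tP i.2 2 p).differentiableAt.hasFDerivAt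
  have e := d1.unique (d2.congr_of_eventuallyEq (h.2.2.2.mono fun x k => (k.2 2).1))
  exact congrArg (fun L : E3 →L[ℂ] ℂ => L v) e

theorem fA_sm (hp : p ∈ PM.W i) : ContDiffAt ℝ ∞ (fA i) p := by
  have k : ∀ k, tP i.2 p k ∈ DC → ContDiffAt ℝ ∞
      (fun x => lw (tP i.2 x k) - Real.log (‖Yd (tP i.2 x k)‖ ^ 2)) p := fun k hk =>
    (contDiff_lw.contDiffAt.comp p (an_sm (analyticAt_tP i.2 k p))).sub
      (log_sm ((analyticAt_Yd hk.1).comp' (f := fun x => tP i.2 x k) (analyticAt_tP i.2 k p))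
        (Yd_ne hk.1))
  exact (k 0 (W_DC hp).1).add (k 1 (W_DC hp).2)

theorem BJac_log (a b : Bool) {A B m : ℂ} (hA : A ≠ 0) (hB : B ≠ 0) (hm : m ≠ 0) :
    ‖sg a * A / (sg b * B * m)‖ ^ 2 ≠ 0 ∧ Real.log (‖sg a * A / (sg b * B * m)‖ ^ 2) =
      Real.log (‖A‖ ^ 2) - Real.log (‖B‖ ^ 2) - Real.log (‖m‖ ^ 2) := by
  have a0 := norm_pos_iff.2 hA
  have b0 := norm_pos_iff.2 hB
  have m0 := norm_pos_iff.2 hm
  simp only [norm_div, norm_mul, norm_sg, one_mul, div_pow, mul_pow]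
  refine ⟨by positivity, ?_⟩
  rw [Real.log_div (by positivity) (by positivity), Real.log_mul (by positivity) (by positivity)]
  ring

theorem AA_cmp (h : Lift (sl PM.r i j) p γ) :
    Cmp γ (fun _ => ContinuousLinearMap.id ℝ E3) (AA i) (fun _ => ContinuousLinearMap.id ℝ E3)
      (AA j) p := by
  obtain ⟨μ, h⟩ := lift_HL h
  have R := h.2.2.2.self_of_nhds
  refine cmp_dc h.1 (fA_sm R.mem.1) (fA_sm R.mem.2) h.jac_an.1 h.jac_an.2 h.det ?_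
  filter_upwards [h.2.2.2] with y R
  have a := W_DC R.mem.1
  have b := W_DC R.mem.2
  rw [(R.2 0).1, (R.2 1).1] at b
  obtain ⟨n0, l0⟩ := BJac_log (i.1 0).1 (j.1 0).1 (Yd_ne a.1.1) (Yd_ne b.1.1) (R.ne 0)
  obtain ⟨n1, l1⟩ := BJac_log (i.1 1).1 (j.1 1).1 (Yd_ne a.2.1) (Yd_ne b.2.1) (R.ne 1)
  rw [fA, fA, (R.2 0).1, (R.2 1).1, RR_lw (fack 0) (R.1 0), RR_lw (fack 1) (R.1 1), jac, norm_mul,
    mul_pow, Real.log_mul n0 n1, l0, l1]
  ring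

end Pool.Agent.Work.MP_bf98aa_gt.Ki
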