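import Pool.Agent.Work.MP_bf98aa_gt.Ki.BTr
import Pool.Agent.Work.MP_bf98aa_gt.Ki.BDc2

/-!
The curvature form and the pieces of the Kaehler form.

PLAN. `lam_gc`: `cl_ddc`, `lift_HL`, `ddc_inv` with `c x = (μ k (tP i.2 x k))⁻¹`, `RR_lw`. `lam_eq`: `ddc_rad` with `φ r = -(kk r / 2)`, `kk_lap`. `rho_eq`: `lam_eq`, `dy_eq`, `arC_smul`. `AA_d`: `isD_dc`, `ddc_add`, `ddc_sub`, `ddc_log`.
`sig_gc`: the first two terms are `pb (yk k i) (fun _ => ar)` on `W` (`pb_ar`, `Per.gc`), the third is `pb (tP i.2 · 2) (fun z => wt z • ar)`, closed by `extDeriv_pb`, `extDeriv_top`, invariant by `HL.dP_two`, `RR_wt`.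
`N_mul`: `HL.scal`, `RR_wt`. `tauk_gc`: `ddc_inv`. `ta_pos`: `Qf sig e = 0` gives `dP k e = 0` for all `k` (`Qf_arC`, `dy_eq`, `Yd_ne`, `wt_pos`); `Qf_fs` with `ker_comp` (for `B` a product: `ddc_mul`); if all three terms vanish `tor_imm` gives `e = 0`.
-/

set_option autoImplicit false

noncomputable section

open scoped ContDiff Topology
open Set Filter

namespace Pool.Agent.Work.MP_bf98aa_gt.Ki

open Pool.Agent.Work.MP_bf98aa_gt.Th Pool.Agent.Work.MP_bf98aa_gt.Cp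

variable {i j : Jx} {p q : E3} {γ : E3 → E3} {μ : Fin 3 → ℂ → ℂ}

theorem gc_congr {n : ℕ} {a b : Jx → Fm E3 n} (h : PM.GC a) (e : ∀ i, ∀ y ∈ PM.W i, b i y = a i y) :
    PM.GC b := by
  refine ⟨fun i => ⟨(h.1 i).1.congr (e i), fun x hx => ?_⟩, fun i j y γ hl => ?_⟩
  · have e' : b i =ᶠ[𝓝 x] a i := eventually_of_mem ((isOpen_W i).mem_nhds hx) (e i)
    rw [e'.extDeriv_eq, (h.1 i).2 x hx]
  · rw [e i y (PM_good.mem hl.self), h.2 i j y γ hl]
    exact pb_congr' (e j _ (PM_good.mem' hl.self)).symm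

theorem BKap_lw (k : Fin 3) (i : Jx) (p : E3) : ContDiffAt ℝ ∞ (fun x => lw (tP i.2 x k)) p :=
  contDiff_lw.contDiffAt.comp p (an_sm (analyticAt_tP i.2 k p))

theorem lam_gc (k : Fin 3) : PM.GC (lam k) := by
  refine ⟨fun i => cl_ddc (isOpen_W i) fun p _ => (BKap_lw k i p).contDiffWithinAt,
    fun i j y γ hl => ?_⟩
  obtain ⟨μ, h⟩ := lift_HL hl
  have h0 : μ k (tP i.2 y k) ≠ 0 := h.2.2.2.self_of_nhds.ne k
  refine ddc_inv (c := fun x => (μ k (tP i.2 x k))⁻¹) h.1 (BKap_lw k i y) (BKap_lw k j _)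
    (((h.2.1 k).comp_of_eq (analyticAt_tP i.2 k y) rfl).inv h0) (inv_ne_zero h0) ?_
  filter_upwards [h.2.2.2] with x hx
  rw [(hx.2 k).1, RR_lw (fack k) (hx.1 k), norm_inv, inv_pow, Real.log_inv, sub_eq_add_neg]

theorem lam_eq (k : Fin 3) (i : Jx) (p : E3) :
    lam k i p = (-(2 * deriv psi (‖tP i.2 p k‖ ^ 2))) • arC (dP k i p) := by
  have hd : ∀ f : ℝ → ℝ, deriv (fun r => -(f r / 2)) = fun r => -(deriv f r / 2) := by
    intro f
    funext r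
    rw [deriv.fun_neg, deriv_div_const]
  have h := ddc_rad (φ := fun r => -(kk r / 2)) (analyticAt_tP i.2 k p)
    ((contDiff_kk.div_const 2).neg.contDiffAt)
  rw [hd, hd] at h
  refine h.trans ?_
  rw [← kk_lap]
  congr 1
  ring

theorem rho_gc : PM.GC rho := by
  exact ((lam_gc 0).add PM_good (lam_gc 1)).smul PM_good _

theorem rho_eq (hp : p ∈ PM.W i) :
    rho i p = fd (tP i.2 p 0) • arC (dy 0 i p) + fd (tP i.2 p 1) • arC (dy 1 i p) := by
  have h0 : ‖Yd (tP i.2 p 0)‖ ≠ 0 := norm_ne_zero_iff.2 (Yd_ne (W_DC hp).1.1)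
  have h1 : ‖Yd (tP i.2 p 1)‖ ≠ 0 := norm_ne_zero_iff.2 (Yd_ne (W_DC hp).2.1)
  have hπ := Real.pi_ne_zero
  rw [rho, lam_eq, lam_eq, dy_eq (by decide) hp, dy_eq (by decide) hp, arC_smul, arC_smul,
    smul_add, smul_smul, smul_smul, smul_smul, smul_smul, norm_mul, norm_mul, norm_sg, norm_sg,
    fd, fd]
  congr 2 <;> field_simp <;> ring

theorem fd_le (P : ℂ) : fd P ≤ 0 := by
  exact neg_nonpos.2 (div_nonneg (deriv_psi_nonneg _) (by positivity))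

theorem AA_d (i : Jx) : IsD (AA i) (fun y => (2 * Real.pi) • rho i y) (PM.W i) := by
  have h := isD_dc (isOpen_W i) fun p hp => (fA_sm hp).contDiffWithinAt
  refine ⟨ContDiffOn.const_smul _ h.1, fun x hx => ?_⟩
  have a : ∀ k, tP i.2 x k ≠ 1 → AnalyticAt ℂ (fun y => Yd (tP i.2 y k)) x := fun k hk =>
    (analyticAt_Yd hk).comp_of_eq (analyticAt_tP i.2 k x) rfl
  have n0 := (W_DC hx).1.1
  have n1 := (W_DC hx).2.1
  have l0 := log_sm (a 0 n0) (Yd_ne n0)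
  have l1 := log_sm (a 1 n1) (Yd_ne n1)
  have e : ddc (fA i) x = lam 0 i x + lam 1 i x := by
    unfold fA
    rw [ddc_add ((BKap_lw 0 i x).sub l0) ((BKap_lw 1 i x).sub l1), ddc_sub (BKap_lw 0 i x) l0,
      ddc_sub (BKap_lw 1 i x) l1, ddc_log (a 0 n0) (Yd_ne n0), ddc_log (a 1 n1) (Yd_ne n1),
      sub_zero, sub_zero]
    rfl
  have hπ := Real.pi_ne_zero
  change extDeriv ((1 / 2 : ℝ) • dc (fA i)) x = (2 * Real.pi) • rho i x
  rw [extDeriv_smul, h.2 x hx, e, rho, smul_smul]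
  congr 1
  field_simp
  ring

theorem BKap_two : PM.GC fun i => pb (fun x => tP i.2 x 2) fun z => wt z • ar := by
  refine ⟨fun i => Cl.pb (W := univ) ⟨(contDiff_wt.smul contDiff_const).contDiffOn,
    fun z _ => extDeriv_top _ z⟩ (isOpen_W i) isOpen_univ
    (fun p _ => (an_sm (analyticAt_tP i.2 2 p)).contDiffWithinAt) (mapsTo_univ _ _),
    fun i j y γ hl => ?_⟩
  obtain ⟨μ, h⟩ := lift_HL hl
  have hr := h.2.2.2.self_of_nhds
  have e : (arC (dP 2 j (γ y))).compContinuousLinearMap (fderiv ℝ γ y) =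
      arC (μ 2 (tP i.2 y 2) • dP 2 i y) := by
    refine alt_ext_two fun u v => ?_
    have e' : ∀ w : Alt E3 2, w.compContinuousLinearMap (fderiv ℝ γ y) ![u, v] =
        w ![fderiv ℝ γ y u, fderiv ℝ γ y v] := by
      intro w
      rw [ContinuousAlternatingMap.compContinuousLinearMap_apply]
      congr 1
      funext l
      fin_cases l <;> rfl
    rw [e', arC_apply, arC_apply, an_fderiv h.1, an_fderiv h.1, h.dP_two, h.dP_two]
    rfl
  have e2 : pb γ (pb (fun x => tP j.2 x 2) fun z => wt z • ar) y =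
      wt (tP j.2 (γ y) 2) • (arC (dP 2 j (γ y))).compContinuousLinearMap (fderiv ℝ γ y) := by
    rw [pb, pb_ar (analyticAt_tP j.2 2 _)]
    rfl
  refine (pb_ar (analyticAt_tP i.2 2 y) wt).trans (Eq.trans ?_ e2.symm)
  rw [e, arC_smul, smul_smul, (hr.2 2).1, RR_wt (fack 2) (hr.1 2)]
  rfl

theorem sig_gc : PM.GC sig := by
  have h : ∀ k : Fin 3, k ≠ 2 → PM.GC fun i => pb (yk k i) fun _ => ar := fun k hk =>
    (per_const ar).gc hk (extDeriv_top _)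
  refine gc_congr (((h 0 (by decide)).add PM_good (h 1 (by decide))).add PM_good BKap_two)
    fun i y hy => ?_
  have e : ∀ k : Fin 3, k ≠ 2 → pb (yk k i) (fun _ => ar) y = arC (dy k i y) := fun k hk => by
    simpa [dy] using pb_ar (yk_an hk hy).1 fun _ => 1
  rw [e 0 (by decide), e 1 (by decide), pb_ar (analyticAt_tP i.2 2 y)]
  rfl

theorem sig_inv (i : Jx) (p : E3) : Inv11 (sig i p) := by
  exact ((inv11_arC _).add (inv11_arC _)).add ((inv11_arC _).smul _)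

theorem sig_ge (i : Jx) (p v : E3) : ‖dy 1 i p v‖ ^ 2 ≤ Qf (sig i p) v := by
  have h := wt_pos (tP i.2 p 2)
  rw [sig, Qf_add, Qf_add, Qf_smul, Qf_arC, Qf_arC, Qf_arC]
  nlinarith [sq_nonneg ‖dy 0 i p v‖, sq_nonneg ‖dP 2 i p v‖]

theorem BKap_wt (T : Fin 4) (k : Fin 3) (p : E3) : ContDiffAt ℝ ∞ (fun x => wt (tP T x k)) p :=
  contDiff_wt.contDiffAt.comp p (an_sm (analyticAt_tP T k p))

theorem Na_sm (k : Fin 3) (i : Jx) (p : E3) :
    ContDiffAt ℝ ∞ (Na k i) p ∧ ContDiffAt ℝ ∞ (Nb k i) p := by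
  exact ⟨(normSq_sm (analyticAt_tu i.2 k p)).mul (BKap_wt i.2 k p),
    (normSq_sm (analyticAt_tv i.2 k p)).mul ((BKap_wt i.2 _ p).mul (BKap_wt i.2 _ p))⟩

theorem N_pos (k : Fin 3) (i : Jx) (p : E3) :
    0 ≤ Na k i p ∧ 0 ≤ Nb k i p ∧ (0 < Na k i p ∨ 0 < Nb k i p) := by
  refine ⟨mul_nonneg (sq_nonneg _) (wt_pos _).le,
    mul_nonneg (sq_nonneg _) (mul_pos (wt_pos _) (wt_pos _)).le,
    (tuv_ne i.2 p k).imp (fun h => ?_) fun h => ?_⟩
  · exact mul_pos (pow_pos (norm_pos_iff.2 h) 2) (wt_pos _)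
  · exact mul_pos (pow_pos (norm_pos_iff.2 h) 2) (mul_pos (wt_pos _) (wt_pos _))

theorem N_mul (h : HL i j p γ μ) (k : Fin 3) : ∃ c : E3 → ℂ, AnalyticAt ℂ c p ∧ c p ≠ 0 ∧
    ∀ᶠ x in 𝓝 p, Na k j (γ x) = ‖c x‖ ^ 2 * Na k i x ∧ Nb k j (γ x) = ‖c x‖ ^ 2 * Nb k i x := by
  obtain ⟨c, hc, h0, H⟩ := h.scal k
  refine ⟨c, hc, h0, ?_⟩
  filter_upwards [H, h.2.2.2] with x hx hR
  have w : ∀ l, wt (tP j.2 (γ x) l) * ‖μ l (tP i.2 x l)‖ ^ 2 = wt (tP i.2 x l) := fun l => by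
    rw [(hR.2 l).1]
    exact RR_wt (fack l) (hR.1 l)
  simp only [Na, Nb]
  rw [hx.1, hx.2, ← w k, ← w (k + 1), ← w (k + 2)]
  simp only [norm_mul]
  exact ⟨by ring, by ring⟩

theorem BKap_N (k : Fin 3) (i : Jx) (p : E3) : 0 < Na k i p + Nb k i p := by
  obtain ⟨a, b, c | c⟩ := N_pos k i p <;> linarith

theorem BKap_log (k : Fin 3) (i : Jx) (p : E3) :
    ContDiffAt ℝ ∞ (fun x => Real.log (Na k i x + Nb k i x)) p :=
  ((Na_sm k i p).1.add (Na_sm k i p).2).log (BKap_N k i p).ne'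

theorem tauk_gc (k : Fin 3) : PM.GC (tauk k) := by
  refine ⟨fun i => cl_ddc (isOpen_W i) fun p _ => (BKap_log k i p).contDiffWithinAt,
    fun i j y γ h => ?_⟩
  obtain ⟨μ, H⟩ := lift_HL h
  obtain ⟨c, hc, h0, e⟩ := N_mul H k
  refine ddc_inv H.1 (BKap_log k i y) (BKap_log k j _) hc h0 ?_
  filter_upwards [e, hc.continuousAt.eventually_ne h0] with x hx h1
  rw [hx.1, hx.2, ← mul_add, Real.log_mul (pow_ne_zero 2 (norm_ne_zero_iff.2 h1))
    (BKap_N k i x).ne', add_comm]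

theorem ta_gc : PM.GC ta := by
  exact ((tauk_gc 0).add PM_good (tauk_gc 1)).add PM_good (tauk_gc 2)

theorem ta_inv (i : Jx) (p : E3) : Inv11 (ta i p) := by
  exact ((inv_ddc (BKap_log 0 i p)).add (inv_ddc (BKap_log 1 i p))).add (inv_ddc (BKap_log 2 i p))

theorem BKap_Qf {e : E3} (h : ∀ k, dP k i p e = 0) (k : Fin 3) : ∃ s : ℝ, 0 < s ∧
    Qf (tauk k i p) e = s * ‖tu i.2 p k * fderiv ℂ (fun x => tv i.2 x k) p e -
      tv i.2 p k * fderiv ℂ (fun x => tu i.2 x k) p e‖ ^ 2 := by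
  have K := fun l => ker_comp (analyticAt_tP i.2 l p) contDiff_wt.contDiffAt (h l)
  have S := fun l => BKap_wt i.2 l p
  have D := fun l => (S l).differentiableAt (by simp)
  have N := BKap_N k i p
  have e1 := Qf_fs (analyticAt_tu i.2 k p) (analyticAt_tv i.2 k p) (S k)
    ((S (k + 1)).mul (S (k + 2))) (K k) ⟨?_, ?_, ?_⟩ N.ne'
  · refine ⟨4 * wt (tP i.2 p k) * (wt (tP i.2 p (k + 1)) * wt (tP i.2 p (k + 2))) /
      (Na k i p + Nb k i p) ^ 2, div_pos (mul_pos (mul_pos four_pos (wt_pos _))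
        (mul_pos (wt_pos _) (wt_pos _))) (pow_pos N 2), e1.trans ?_⟩
    rw [mul_div_right_comm]
    rfl
  · rw [fderiv_fun_mul (D _) (D _)]
    simp [(K _).1]
  · rw [fderiv_fun_mul (D _) (D _)]
    simp only [ContinuousLinearMap.add_apply, ContinuousLinearMap.smul_apply, (K _).2.1, smul_zero,
      add_zero]
  · rw [ddc_mul (S _) (S _), (K _).1, (K _).2.1, (K (k + 1)).2.2, (K (k + 2)).2.2]
    ring

theorem ta_pos (hp : p ∈ PM.W i) {e : E3} (he : e ≠ 0) (h : Qf (sig i p) e = 0) :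
    0 < Qf (ta i p) e := by
  simp only [sig, Qf_add, Qf_smul, Qf_arC] at h
  have w := mul_nonneg (wt_pos (tP i.2 p 2)).le (sq_nonneg ‖dP 2 i p e‖)
  have a0 : ‖dy 0 i p e‖ ^ 2 = 0 := by nlinarith [sq_nonneg ‖dy 0 i p e‖, sq_nonneg ‖dy 1 i p e‖]
  have a1 : ‖dy 1 i p e‖ ^ 2 = 0 := by nlinarith [sq_nonneg ‖dy 0 i p e‖, sq_nonneg ‖dy 1 i p e‖]
  have a2 : wt (tP i.2 p 2) * ‖dP 2 i p e‖ ^ 2 = 0 := by linarith
  have hs : ∀ b, sg b ≠ 0 := fun b => norm_ne_zero_iff.1 (by rw [norm_sg]; exact one_ne_zero)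
  rw [dy_eq (by decide) hp] at a0 a1
  have hd : ∀ k, dP k i p e = 0 := fun k => by
    fin_cases k
    · simpa [hs, Yd_ne (W_DC hp).1.1] using a0
    · simpa [hs, Yd_ne (W_DC hp).2.1] using a1
    · simpa [(wt_pos _).ne'] using a2
  choose s s0 hq using BKap_Qf hd
  have nn : ∀ k, 0 ≤ Qf (tauk k i p) e := fun k => by
    rw [hq]
    exact mul_nonneg (s0 k).le (sq_nonneg _)
  by_contra hn
  simp only [ta, Qf_add, not_lt] at hn
  refine he (tor_imm i.2 p e hd fun k => ?_)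
  have z : Qf (tauk k i p) e = 0 := by
    have n0 := nn 0
    have n1 := nn 1
    have n2 := nn 2
    fin_cases k
    exacts [show Qf (tauk 0 i p) e = 0 by linarith, show Qf (tauk 1 i p) e = 0 by linarith,
      show Qf (tauk 2 i p) e = 0 by linarith]
  rw [hq, mul_eq_zero, sq_eq_zero_iff, norm_eq_zero, sub_eq_zero] at z
  exact z.resolve_left (s0 k).ne'

end Pool.Agent.Work.MP_bf98aa_gt.Ki
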