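import Pool.Agent.Work.MP_bf98aa_gt.Ki.BDef

/-!
Gaussian integers, the Moebius maps, the elliptic factor.

PLAN. `La_small`: `m ^ 2 + n ^ 2 < 1`. `La_ev`: a continuous function with values in `La` near a point is locally constant
(`La_small` for the difference). `La_closed`: the complement is open (real and imaginary parts, `Int.isClosedEmbedding_coe_real`,
or round). `La_round`: `m = round z.re`, `n = round z.im`, `abs_sub_round`. `facE`: `small`: `2 (x - z)` is a Gaussian integer of norm less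
than `1`, so `z = x`; then `tau i - tau j` is Gaussian, four by four cases. `cpt`: closed disc of radius `9 / 25`, `La_round` for
`2 (tau i + x)`, the parities of `m, n` give `j`. `hol`: translations.
-/

set_option autoImplicit false

noncomputable section

open scoped ContDiff Topology
open Set Filter

namespace Pool.Agent.Work.MP_bf98aa_gt.Ki

open Pool.Agent.Work.MP_bf98aa_gt.Th Pool.Agent.Work.MP_bf98aa_gt.Cp

theorem La_zero : La 0 := by
  exact ⟨0, 0, by simp⟩

theorem La.add {z w : ℂ} (h : La z) (h' : La w) : La (z + w) := by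
  obtain ⟨m, n, rfl⟩ := h
  obtain ⟨m', n', rfl⟩ := h'
  exact ⟨m + m', n + n', by push_cast; ring⟩

theorem La.neg {z : ℂ} (h : La z) : La (-z) := by
  obtain ⟨m, n, rfl⟩ := h
  exact ⟨-m, -n, by push_cast; ring⟩

theorem La.sub {z w : ℂ} (h : La z) (h' : La w) : La (z - w) := by
  rw [sub_eq_add_neg]
  exact h.add h'.neg

theorem La_small {z : ℂ} (h : La z) (h1 : ‖z‖ < 1) : z = 0 := by
  obtain ⟨m, n, rfl⟩ := h
  have h2 := (Complex.abs_re_le_norm _).trans_lt h1
  have h3 := (Complex.abs_im_le_norm _).trans_lt h1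
  simp only [Complex.add_re, Complex.intCast_re, Complex.mul_re, Complex.I_re, mul_zero,
    Complex.intCast_im, Complex.I_im, mul_one, sub_zero, add_zero, Complex.add_im,
    Complex.mul_im, zero_add] at h2 h3
  have h4 : |m| < 1 := by exact_mod_cast h2
  have h5 : |n| < 1 := by exact_mod_cast h3
  rw [Int.abs_lt_one_iff.1 h4, Int.abs_lt_one_iff.1 h5]
  simp

theorem La_closed : IsClosed {z | La z} := by
  have e : {z | La z} = Complex.re ⁻¹' range ((↑) : ℤ → ℝ) ∩ Complex.im ⁻¹' range ((↑) : ℤ → ℝ) := by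
    ext z
    constructor
    · rintro ⟨m, n, rfl⟩
      exact ⟨⟨m, by simp⟩, n, by simp⟩
    · rintro ⟨⟨m, hm⟩, n, hn⟩
      exact ⟨m, n, Complex.ext (by simp [hm]) (by simp [hn])⟩
  rw [e]
  exact (Int.isClosedEmbedding_coe_real.isClosed_range.preimage Complex.continuous_re).inter
    (Int.isClosedEmbedding_coe_real.isClosed_range.preimage Complex.continuous_im)

theorem BLa_ev {X : Type} [TopologicalSpace X] {f : X → ℂ} {x : X} (hf : ContinuousAt f x)
    (h : La (f x)) : ∀ᶠ y in 𝓝 x, La (f y) → f y = f x := by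
  filter_upwards [hf.eventually (Metric.ball_mem_nhds (f x) one_pos)] with y hy hl
  exact sub_eq_zero.1 (La_small (hl.sub h) (mem_ball_iff_norm.1 hy))



theorem La_ev {X : Type} [TopologicalSpace X] {f : X → ℂ} {x : X} (hf : ContinuousAt f x)
    (h : ∀ᶠ y in 𝓝 x, La (f y)) : ∀ᶠ y in 𝓝 x, f y = f x := by
  filter_upwards [h, BLa_ev hf h.self_of_nhds] with y h1 h2
  exact h2 h1

theorem La_ev' {X : Type} [TopologicalSpace X] {f : X → ℂ} {x : X} (hf : ContinuousAt f x)
    (h : La (f x)) : ∀ᶠ y in 𝓝 x, La (f y) → f y = f x := by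
  exact BLa_ev hf h

theorem La_round (z : ℂ) : ∃ w, La w ∧ |(z - w).re| ≤ 1 / 2 ∧ |(z - w).im| ≤ 1 / 2 := by
  refine ⟨_, ⟨round z.re, round z.im, rfl⟩, ?_, ?_⟩
  · simpa using abs_sub_round z.re
  · simpa using abs_sub_round z.im

theorem La_tau (i : Ix) : La (2 * tau i) := by
  obtain ⟨a, b⟩ := i
  refine ⟨if a then 1 else 0, if b then 1 else 0, ?_⟩
  cases a <;> cases b <;> simp [tau] <;> ring

theorem sg_sq (b : Bool) : sg b * sg b = 1 := by
  cases b <;> simp [sg]

theorem norm_sg (b : Bool) : ‖sg b‖ = 1 := by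
  cases b <;> simp [sg]

theorem Yi_Yf {P : ℂ} (h : P ≠ 1) : Yi (Yf P) = P := by
  have h1 : 1 - P ≠ 0 := sub_ne_zero.2 h.symm
  have e1 : 10 * Yf P + 1 = 2 / (1 - P) := by
    unfold Yf
    field_simp
    ring
  have e2 : 10 * Yf P - 1 = 2 * P / (1 - P) := by
    unfold Yf
    field_simp
    ring
  rw [Yi, e1, e2]
  field_simp

theorem Yf_Yi {y : ℂ} (h : 10 * y + 1 ≠ 0) : Yi y ≠ 1 ∧ Yf (Yi y) = y := by
  have e1 : 1 - Yi y = 2 / (10 * y + 1) := by
    unfold Yi
    field_simp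
    ring
  have e2 : 1 + Yi y = 20 * y / (10 * y + 1) := by
    unfold Yi
    field_simp
    ring
  refine ⟨fun h1 => ?_, ?_⟩
  · rw [h1, sub_self] at e1
    exact div_ne_zero two_ne_zero h e1.symm
  · rw [Yf, e1, e2]
    generalize 10 * y + 1 = d at h
    field_simp
    ring

theorem Yf_inv {P : ℂ} (h0 : P ≠ 0) (h : P ≠ 1) : Yf P⁻¹ = -Yf P := by
  have h1 : 1 - P ≠ 0 := sub_ne_zero.2 h.symm
  have e1 : 1 - P⁻¹ = -(1 - P) / P := by
    field_simp
    ring
  have e2 : 1 + P⁻¹ = (1 + P) / P := by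
    field_simp
    ring
  rw [Yf, Yf, e1, e2]
  field_simp

theorem Yi_neg (y : ℂ) : Yi (-y) = (Yi y)⁻¹ := by
  rw [Yi, Yi, inv_div, ← neg_div_neg_eq]
  congr 1 <;> ring

theorem hasDerivAt_Yf {P : ℂ} (h : P ≠ 1) : HasDerivAt Yf (Yd P) P := by
  have h1 : 1 - P ≠ 0 := sub_ne_zero.2 h.symm
  have h2 := ((hasDerivAt_id P).const_add 1).div (((hasDerivAt_id P).const_sub 1).const_mul 10)
    (mul_ne_zero (by norm_num) h1)
  refine h2.congr_deriv ?_
  simp only [Yd, id]
  field_simp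
  ring

theorem analyticAt_Yf {P : ℂ} (h : P ≠ 1) : AnalyticAt ℂ Yf P := by
  exact (analyticAt_const.add analyticAt_id).div
    (analyticAt_const.mul (analyticAt_const.sub analyticAt_id))
    (mul_ne_zero (by norm_num) (sub_ne_zero.2 h.symm))

theorem analyticAt_Yd {P : ℂ} (h : P ≠ 1) : AnalyticAt ℂ Yd P := by
  exact analyticAt_const.div (analyticAt_const.mul ((analyticAt_const.sub analyticAt_id).pow 2))
    (mul_ne_zero (by norm_num) (pow_ne_zero 2 (sub_ne_zero.2 h.symm)))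

theorem Yd_ne {P : ℂ} (h : P ≠ 1) : Yd P ≠ 0 := by
  exact one_div_ne_zero (mul_ne_zero (by norm_num) (pow_ne_zero 2 (sub_ne_zero.2 h.symm)))

theorem isOpen_DC : IsOpen DC := by
  refine isOpen_iff_mem_nhds.2 fun P hP => ?_
  have hc := (analyticAt_Yf hP.1).continuousAt
  filter_upwards [isOpen_ne.mem_nhds hP.1, hc.norm.eventually_lt_const hP.2.1,
    (Complex.continuous_re.continuousAt.comp hc).eventually_const_lt hP.2.2] with Q h1 h2 h3
  exact ⟨h1, h2, h3⟩

theorem BLa_den {y : ℂ} (h : -(1 / 20) < y.re) : 1 / 2 < ‖10 * y + 1‖ := by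
  refine lt_of_lt_of_le ?_ (Complex.re_le_norm _)
  simp only [Complex.add_re, Complex.mul_re, Complex.re_ofNat, Complex.im_ofNat, zero_mul,
    sub_zero, Complex.one_re]
  linarith



theorem DC_norm {P : ℂ} (h : P ∈ DC) : ‖P‖ < 18 := by
  have h1 := BLa_den h.2.2
  have h2 : ‖10 * Yf P - 1‖ < 9 := by
    refine (norm_sub_le _ _).trans_lt ?_
    rw [norm_mul, norm_one, Complex.norm_ofNat]
    linarith [h.2.1]
  rw [← Yi_Yf h.1, Yi, norm_div, div_lt_iff₀ (by linarith)]
  linarith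

theorem DC_pre : IsPreconnected DC := by
  have hn : ∀ y : ℂ, -(1 / 20) < y.re → 10 * y + 1 ≠ 0 := fun y hy =>
    norm_pos_iff.1 (lt_trans (by norm_num) (BLa_den hy))
  have e : DC = Yi '' (Metric.ball 0 (4 / 5) ∩ {y : ℂ | -(1 / 20) < y.re}) := by
    ext P
    constructor
    · intro h
      exact ⟨Yf P, ⟨mem_ball_zero_iff.2 h.2.1, h.2.2⟩, Yi_Yf h.1⟩
    · rintro ⟨y, ⟨h1, h2⟩, rfl⟩
      obtain ⟨h3, h4⟩ := Yf_Yi (hn y h2)
      refine ⟨h3, ?_, ?_⟩ <;> rw [h4]
      · exact mem_ball_zero_iff.1 h1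
      · exact h2
  rw [e]
  refine ((convex_ball _ _).inter (convex_halfSpace_re_gt _)).isPreconnected.image _ ?_
  exact ContinuousOn.div (by fun_prop) (by fun_prop) fun y hy => hn y hy.2

theorem DC_small {P : ℂ} (h : ‖P‖ ≤ 1 / 100) : P ∈ DC ∧ ‖Yf P‖ < 1 / 5 ∧ 1 / 20 < (Yf P).re := by
  have h0 : 99 / 100 ≤ ‖1 - P‖ := by
    have := norm_sub_norm_le (1 : ℂ) P
    rw [norm_one] at this
    linarith
  have h1 : 1 - P ≠ 0 := norm_pos_iff.1 (by linarith)
  have e : Yf P = 1 / 10 + P / (5 * (1 - P)) := by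
    unfold Yf
    field_simp
    ring
  have h2 : ‖P / (5 * (1 - P))‖ ≤ 1 / 100 := by
    rw [norm_div, norm_mul, Complex.norm_ofNat, div_le_iff₀ (by linarith)]
    linarith
  have h3 : ‖Yf P‖ < 1 / 5 := by
    rw [e]
    refine (norm_add_le _ _).trans_lt ?_
    rw [norm_div, norm_one, Complex.norm_ofNat]
    linarith
  have h4 : 1 / 20 < (Yf P).re := by
    have h5 := (abs_le.1 ((Complex.abs_re_le_norm _).trans h2)).1
    have h6 : (1 / 10 : ℂ).re = 1 / 10 := by norm_num
    rw [e, Complex.add_re, h6]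
    linarith
  exact ⟨⟨(sub_ne_zero.1 h1).symm, by linarith, by linarith⟩, h3, h4⟩

theorem DC_re {P : ℂ} (h : P ≠ 1) (h1 : 1 / 5 < ‖Yf P‖) : 0 < P.re := by
  have h2 : 0 < ‖1 - P‖ := norm_pos_iff.2 (sub_ne_zero.2 h.symm)
  rw [Yf, norm_div, norm_mul, Complex.norm_ofNat, lt_div_iff₀ (by linarith)] at h1
  have h3 : ‖1 - P‖ ^ 2 < ‖1 + P‖ ^ 2 := by nlinarith
  rw [Complex.sq_norm, Complex.sq_norm, Complex.normSq_apply, Complex.normSq_apply] at h3
  simp only [Complex.sub_re, Complex.one_re, Complex.sub_im, Complex.one_im, Complex.add_re,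
    Complex.add_im] at h3
  nlinarith

theorem BLa_bool (a b : Bool) (m : ℤ)
    (h : ((if a then 1 / 2 else 0 : ℝ) - if b then 1 / 2 else 0) = m) : a = b := by
  have k : ∀ c : ℝ, (c = 1 / 2 ∨ c = -(1 / 2)) → c ≠ m := by
    rintro c (rfl | rfl) e
    · have : ((2 * m : ℤ) : ℝ) = (1 : ℤ) := by push_cast; linarith
      have := Int.cast_injective this
      omega
    · have : ((2 * m : ℤ) : ℝ) = (-1 : ℤ) := by push_cast; linarith
      have := Int.cast_injective this
      omega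
  cases a <;> cases b
  · rfl
  · exact absurd h (k _ (Or.inr (by simp)))
  · exact absurd h (k _ (Or.inl (by simp)))
  · rfl

theorem BLa_re (i : Ix) : (tau i).re = if i.1 then 1 / 2 else 0 := by
  rcases i with ⟨_ | _, _ | _⟩ <;> simp [tau]

theorem BLa_im (i : Ix) : (tau i).im = if i.2 then 1 / 2 else 0 := by
  rcases i with ⟨_ | _, _ | _⟩ <;> simp [tau]

theorem BLa_inj {i j : Ix} (h : La (tau i - tau j)) : i = j := by
  obtain ⟨m, n, h⟩ := h
  have h1 := congrArg Complex.re h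
  have h2 := congrArg Complex.im h
  rw [Complex.sub_re, BLa_re, BLa_re] at h1
  rw [Complex.sub_im, BLa_im, BLa_im] at h2
  exact Prod.ext (BLa_bool _ _ m (by simpa using h1)) (BLa_bool _ _ n (by simpa using h2))

theorem BLa_par {w : ℂ} (h : La w) : ∃ j, La (w / 2 - tau j) := by
  obtain ⟨m, n, rfl⟩ := h
  obtain ⟨a, rfl | rfl⟩ := Int.even_or_odd' m <;> obtain ⟨b, rfl | rfl⟩ := Int.even_or_odd' n
  · exact ⟨(false, false), a, b, by simp [tau]; ring⟩
  · exact ⟨(false, true), a, b, by simp [tau]; ring⟩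
  · exact ⟨(true, false), a, b, by simp [tau]; ring⟩
  · exact ⟨(true, true), a, b, by simp [tau]; ring⟩

theorem BLa_nm {w : ℂ} (h1 : |w.re| ≤ 1 / 2) (h2 : |w.im| ≤ 1 / 2) : ‖w / 2‖ ≤ 9 / 25 := by
  have e : ‖w‖ ^ 2 = w.re * w.re + w.im * w.im := by rw [Complex.sq_norm, Complex.normSq_apply]
  have a1 := abs_le.1 h1
  have a2 := abs_le.1 h2
  have : ‖w‖ ≤ 18 / 25 := by
    refine le_of_sq_le_sq ?_ (by norm_num)
    nlinarith
  rw [norm_div, Complex.norm_two]
  linarith

theorem BLa_eq {z w : ℂ} (h : La z) (e : w = z) : La w := e ▸ h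

theorem facE : Fac WE rE := by
  refine ⟨fun _ => Metric.isOpen_ball, fun h => mem_ball_zero_iff.2 h.1, fun h => ?_,
    fun h => ⟨h.2.1, h.1, BLa_eq h.2.2.neg (by ring)⟩,
    fun h h' => ⟨h.1, h'.2.1, BLa_eq (h.2.2.add h'.2.2) (by ring)⟩,
    fun _ => Eventually.of_forall fun p h => ?_, fun {i x j z} hx hz h => ?_,
    fun {i x j z} h => ?_, fun {i x j z} h => ?_, fun {i x} h => ?_, fun {i x j z} h hx => ?_,
    fun _ => Metric.closedBall 0 (9 / 25),
    fun _ => ⟨isCompact_closedBall _ _, Metric.closedBall_subset_ball (by norm_num)⟩,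
    fun i x hx => ?_⟩
  · exact ⟨mem_ball_zero_iff.1 h, mem_ball_zero_iff.1 h, BLa_eq La_zero (by ring)⟩
  · have h1 : La (p.1 - p.2) := BLa_eq h.2.2 (by ring)
    refine sub_eq_zero.1 (La_small h1 ?_)
    have := norm_sub_le p.1 p.2
    linarith [h.1, h.2.1]
  · have h1 : tau i + x - tau j - z ∈ {z | La z}ᶜ := fun h1 =>
      h ⟨mem_ball_zero_iff.1 hx, mem_ball_zero_iff.1 hz, h1⟩
    have h2 : ContinuousAt (fun p : ℂ × ℂ => tau i + p.1 - tau j - p.2) (x, z) := by fun_prop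
    filter_upwards [h2.eventually (La_closed.isOpen_compl.mem_nhds h1)] with p hp hr
    exact hp hr.2.2
  · exact ⟨by rw [norm_neg]; exact h.1, by rw [norm_neg]; exact h.2.1,
      BLa_eq (((La_tau i).sub (La_tau j)).sub h.2.2) (by ring)⟩
  · refine ⟨fun t => t + (z - x), by fun_prop, by ring, ?_⟩
    have c1 : ContinuousAt (fun t : ℂ => ‖t‖) x := by fun_prop
    have c2 : ContinuousAt (fun t : ℂ => ‖t + (z - x)‖) x := by fun_prop
    have e : ‖x + (z - x)‖ < 2 / 5 := by
      rw [add_sub_cancel]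
      exact h.2.1
    filter_upwards [c1.eventually (gt_mem_nhds h.1), c2.eventually (gt_mem_nhds e)] with t h1 h2
    exact ⟨h1, h2, BLa_eq h.2.2 (by ring)⟩
  · have h1 : La (x + x) := BLa_eq h.2.2 (by ring)
    have h2 := La_small h1 (by
      have := norm_add_le x x
      linarith [h.1])
    linear_combination h2 / 2
  · have h1 : La (x - z + (x - z)) :=
      BLa_eq (((h.2.2.add h.2.2).sub (La_tau i)).add (La_tau j)) (by ring)
    have h2 := La_small h1 (by
      have := norm_add_le (x - z) (x - z)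
      have := norm_sub_le x z
      linarith [h.2.1])
    have h3 : z = x := by linear_combination -h2 / 2
    refine ⟨(BLa_inj (BLa_eq h.2.2 ?_)).symm, h3⟩
    rw [h3]
    ring
  · obtain ⟨w, hw, h1, h2⟩ := La_round (2 * (tau i + x))
    obtain ⟨j, hj⟩ := BLa_par hw
    have h3 := BLa_nm h1 h2
    exact ⟨j, _, mem_closedBall_zero_iff.2 h3, mem_ball_zero_iff.1 hx, by linarith,
      BLa_eq hj (by ring)⟩

theorem lnkE (i j : Ix) : ∃ x z, x ≠ 0 ∧ rE i x j z := by
  have h : ‖(tau j - tau i) / 2‖ ≤ 9 / 25 := by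
    refine BLa_nm ?_ ?_
    · rw [Complex.sub_re, BLa_re, BLa_re, abs_le]
      split_ifs <;> norm_num
    · rw [Complex.sub_im, BLa_im, BLa_im, abs_le]
      split_ifs <;> norm_num
  have e : ‖(1 / 50 : ℂ)‖ = 1 / 50 := by simp
  refine ⟨1 / 50 + (tau j - tau i) / 2, 1 / 50 - (tau j - tau i) / 2, fun h0 => ?_, ?_, ?_,
    BLa_eq La_zero (by ring)⟩
  · have h1 : La (2 / 25) := BLa_eq ((La_tau i).sub (La_tau j)) (by linear_combination 4 * h0)
    have h2 := La_small h1 (by norm_num)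
    norm_num at h2
  · have := norm_add_le (1 / 50 : ℂ) ((tau j - tau i) / 2)
    linarith
  · have := norm_sub_le (1 / 50 : ℂ) ((tau j - tau i) / 2)
    linarith

theorem DmE (i : Ix) : Dm WE i = Metric.ball 0 (4 / 25) := by
  ext P
  rw [mem_ball_zero_iff]
  constructor
  · rintro ⟨x, hx, rfl⟩
    have h := mem_ball_zero_iff.1 hx
    rw [norm_pow]
    nlinarith [norm_nonneg x]
  · intro h
    obtain ⟨x, rfl⟩ := IsAlgClosed.exists_pow_nat_eq P (n := 2) (by norm_num)
    refine ⟨x, mem_ball_zero_iff.2 ?_, rfl⟩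
    rw [norm_pow] at h
    by_contra h1
    nlinarith [not_lt.1 h1]

end Pool.Agent.Work.MP_bf98aa_gt.Ki
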