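import Pool.Agent.Work.MP_bf98aa_gt.Ki.BTh
import Pool.Agent.Work.MP_bf98aa_gt.Ki.BCpt
import Pool.Agent.Work.MP_bf98aa_gt.Ki.AMain

/-!
The theorem.
-/

set_option autoImplicit false

namespace Pool.Agent.Work.MP_bf98aa_gt.Ki

open Pool.Agent.Work.MP_bf98aa_gt.Th Pool.Agent.Work.MP_bf98aa_gt.Cp

theorem goal : Goal := by
  obtain ⟨b, hb, hb'⟩ := exists_b
  obtain ⟨a, ξ, ha, hξ, hd⟩ := exists_exact
  refine goal_of PM PM_good PM_cpt PM_conn
    ⟨dy 0, dy 1, b, a, ξ, AA, sig, ta, rho, The, fun i y => fd (tP i.2 y 0),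
      fun i y => fd (tP i.2 y 1), gg, gg', fun i y => fderiv ℝ (rr i) y⟩
    ⟨hb, fun i y hy v => (hb' i y hy v).1, fun i y hy v => (hb' i y hy v).2.1,
      fun i y hy v => (hb' i y hy v).2.2.1, fun i y hy v => (hb' i y hy v).2.2.2, ha, hξ,
      fun i y hy u v => ?_, AA_d, fun _ _ _ _ => AA_cmp, sig_gc, ta_gc, rho_gc, The_gc,
      fun i y _ => sig_inv i y, fun i y _ => ta_inv i y, fun i y _ => sig_ge i y,
      fun _ _ hy _ hv => ta_pos hy hv, fun _ _ => rho_eq, fun _ _ _ => ⟨fd_le _, fd_le _⟩,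
      fun i y _ => The_eq i y, fun i y _ => gg_ge i y, fun _ _ => The_zero, exists_pt⟩
  exact (hd i y hy u v).trans (by rw [← rho_eq hy])

end Pool.Agent.Work.MP_bf98aa_gt.Ki
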