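import Pool.Agent.Work.MP_bf98aa_gt.Ki.BDef

/-!
The multiplier relation of a factor.

PLAN. `W i` is symmetric (`refl`, `neg`, `mem`). `RR.root`: both square roots serve (`neg`, `sq_eq_sq'`/`sq_eq_sq_iff_eq_or_eq_neg`). `exists_root`: for `x ≠ 0`,
`s Q = x * exp (log (Q / x ^ 2) / 2)`. `root_near`: all square roots of `Q` near `x ^ 2` are near `x` or `-x` (`‖t - x‖ * ‖t + x‖ = ‖t ^ 2 - x ^ 2‖`).
`isOpen_Dm`: `root_near`. `RR.loc`: if `x = 0` take `μ = 1` (`small`, `refl`), else `μ Q = g (s Q) / s Q`. `RR.uniq`: `m' x = ± m x`, `fix`.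
`RR_clo`: let `x ∈ W i`, `z ∈ W j` be roots of `P`, `P'`. Nearby related roots can be taken near `x` (`RR.root`, `root_near`) and near `z` or `-z`; by `clo`
one of `r i x j z`, `r i x j (-z)` holds; if `x ≠ 0` the multiplier is near `z / x` resp. `-z / x`, which lies in `U`; if `x = 0` use `small`. `RR_inj`: `inj`, `clo`, `fix`, `small`.
-/

set_option autoImplicit false

noncomputable section

open scoped ContDiff Topology
open Set Filter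

namespace Pool.Agent.Work.MP_bf98aa_gt.Ki

open Pool.Agent.Work.MP_bf98aa_gt.Th Pool.Agent.Work.MP_bf98aa_gt.Cp

variable {W : Ix → Set ℂ} {r : Ix → ℂ → Ix → ℂ → Prop} {i j l : Ix} {P P' m m' : ℂ}

theorem exists_root {x : ℂ} (hx : x ≠ 0) :
    ∃ s : ℂ → ℂ, AnalyticAt ℂ s (x ^ 2) ∧ s (x ^ 2) = x ∧ ∀ᶠ Q in 𝓝 (x ^ 2), s Q ^ 2 = Q := by
  have h2 : x ^ 2 ≠ 0 := pow_ne_zero 2 hx
  refine ⟨fun Q => x * Complex.exp (Complex.log (Q / x ^ 2) / 2), ?_, ?_, ?_⟩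
  · have h1 : AnalyticAt ℂ (fun Q : ℂ => Complex.log (Q / x ^ 2)) (x ^ 2) :=
      (analyticAt_id.div_const (c := x ^ 2)).clog (by simp [div_self h2])
    exact analyticAt_const.mul (h1.div_const (c := 2)).cexp'
  · simp [div_self h2]
  · filter_upwards [isOpen_ne.mem_nhds h2] with Q hQ
    rw [mul_pow, ← Complex.exp_nat_mul, Nat.cast_ofNat, mul_div_cancel₀ _ two_ne_zero,
      Complex.exp_log (div_ne_zero hQ h2), mul_div_cancel₀ _ h2]

theorem root_near (x : ℂ) {U : Set ℂ} (hU : U ∈ 𝓝 x) :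
    ∀ᶠ Q in 𝓝 (x ^ 2), ∀ t, t ^ 2 = Q → t ∈ U ∨ -t ∈ U := by
  obtain ⟨ε, hε, hb⟩ := Metric.mem_nhds_iff.1 hU
  filter_upwards [Metric.ball_mem_nhds (x ^ 2) (mul_pos hε hε)] with Q hQ t ht
  by_contra hn
  rw [not_or] at hn
  have h1 : ε ≤ ‖t - x‖ := not_lt.1 fun a => hn.1 (hb (mem_ball_iff_norm.2 a))
  have h2 : ε ≤ ‖-t - x‖ := not_lt.1 fun a => hn.2 (hb (mem_ball_iff_norm.2 a))
  have h3 : ‖t - x‖ * ‖-t - x‖ = ‖Q - x ^ 2‖ := by
    rw [← norm_mul, ← ht, ← norm_neg]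
    ring_nf
  have h4 := mem_ball_iff_norm.1 hQ
  exact absurd (mul_le_mul h1 h2 hε.le (norm_nonneg _)) (by rw [h3]; exact not_le.2 h4)

theorem isOpen_Dm (h : Fac W r) (i : Ix) : IsOpen (Dm W i) := by
  refine isOpen_iff_mem_nhds.2 ?_
  rintro _ ⟨x, hx, rfl⟩
  filter_upwards [root_near x ((h.opn i).mem_nhds hx)] with Q hQ
  obtain ⟨t, ht⟩ := IsAlgClosed.exists_pow_nat_eq Q two_pos
  rcases hQ t ht with a | a
  · exact ⟨t, a, ht⟩
  · exact ⟨-t, a, by rw [neg_sq, ht]⟩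

theorem RR.root (h : Fac W r) (hr : RR r i P j m) {x : ℂ} (hx : x ^ 2 = P) : r i x j (m * x) := by
  obtain ⟨y, hy, -, -, hr⟩ := hr
  rcases sq_eq_sq_iff_eq_or_eq_neg.1 (hx.trans hy.symm) with rfl | rfl
  · exact hr
  · rw [mul_neg]
    exact h.neg hr

theorem RR.ne (hr : RR r i P j m) : m ≠ 0 := by
  obtain ⟨_, -, hm, -⟩ := hr
  exact hm

theorem RR.mem (h : Fac W r) (hr : RR r i P j m) : P ∈ Dm W i ∧ m ^ 2 * P ∈ Dm W j := by
  obtain ⟨x, hx, -, -, hr⟩ := hr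
  exact ⟨⟨x, h.mem hr, hx⟩, m * x, h.mem (h.symm hr), by rw [mul_pow, hx]⟩

theorem RR_refl (h : Fac W r) (hP : P ∈ Dm W i) : RR r i P i 1 := by
  obtain ⟨x, hx, e⟩ := hP
  exact ⟨x, e, one_ne_zero, fun _ => rfl, by rw [one_mul]; exact h.refl hx⟩

theorem RR.symm (h : Fac W r) (hr : RR r i P j m) : RR r j (m ^ 2 * P) i m⁻¹ := by
  obtain ⟨x, hx, hm, h0, hr⟩ := hr
  refine ⟨m * x, by rw [mul_pow, hx], inv_ne_zero hm, fun a => ?_, ?_⟩
  · rw [h0 ((mul_eq_zero.1 a).resolve_left hm), inv_one]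
  · rw [inv_mul_cancel_left₀ hm]
    exact h.symm hr

theorem BRR_zero (hr : RR r i P j m) (hP : P = 0) : m = 1 := by
  obtain ⟨x, hx, -, h0, -⟩ := hr
  exact h0 (pow_eq_zero_iff two_ne_zero |>.1 (hx.trans hP))

theorem RR.trans (h : Fac W r) (hr : RR r i P j m) (hr' : RR r j (m ^ 2 * P) l m') :
    RR r i P l (m' * m) := by
  obtain ⟨x, hx, hm, h0, hr⟩ := hr
  refine ⟨x, hx, mul_ne_zero hr'.ne hm, fun a => ?_, ?_⟩
  · rw [h0 a, BRR_zero hr' (by rw [← hx, a]; simp), one_mul]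
  · rw [mul_assoc]
    exact h.trans hr (hr'.root h (by rw [mul_pow, hx]))

theorem RR_of (h : Fac W r) {x z : ℂ} (hr : r i x j z) : ∃ m, RR r i (x ^ 2) j m ∧ z = m * x := by
  by_cases hx : x = 0
  · have e : z = 1 * x := by rw [(h.small hr (by rw [hx]; norm_num)).2, one_mul]
    exact ⟨1, ⟨x, rfl, one_ne_zero, fun _ => rfl, e ▸ hr⟩, e⟩
  · have hz : z ≠ 0 := fun a => hx (((h.small (h.symm hr) (by rw [a]; norm_num)).2).trans a)
    have e : z = z / x * x := (div_mul_cancel₀ z hx).symm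
    exact ⟨z / x, ⟨x, rfl, div_ne_zero hz hx, fun a => absurd a hx, e ▸ hr⟩, e⟩

theorem RR.small (h : Fac W r) (hr : RR r i P j m)
    (hs : ‖P‖ ≤ 1 / 100 ∨ ‖m ^ 2 * P‖ ≤ 1 / 100) : j = i ∧ m = 1 := by
  obtain ⟨x, hx, -, h0, hr⟩ := hr
  have key : ∀ y : ℂ, ‖y ^ 2‖ ≤ 1 / 100 → ‖y‖ ≤ 1 / 10 := fun y a => by
    rw [norm_pow] at a
    nlinarith [norm_nonneg y]
  have e : j = i ∧ m * x = x := by
    rcases hs with a | a
    · exact h.small hr (key x (by rwa [hx]))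
    · have b := h.small (h.symm hr) (key _ (by rwa [mul_pow, hx]))
      exact ⟨b.1.symm, b.2.symm⟩
  refine ⟨e.1, ?_⟩
  by_cases a : x = 0
  · exact h0 a
  · exact mul_right_cancel₀ a (by rw [e.2, one_mul])

theorem RR.loc (h : Fac W r) (hr : RR r i P j m) :
    ∃ μ : ℂ → ℂ, AnalyticAt ℂ μ P ∧ μ P = m ∧ ∀ᶠ Q in 𝓝 P, RR r i Q j (μ Q) := by
  by_cases hP : P = 0
  · obtain ⟨rfl, rfl⟩ := hr.small h (Or.inl (by rw [hP]; norm_num))
    refine ⟨fun _ => 1, analyticAt_const, rfl, ?_⟩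
    filter_upwards [(isOpen_Dm h j).mem_nhds (hr.mem h).1] with Q hQ using RR_refl h hQ
  obtain ⟨x, rfl, hm, -, hr⟩ := hr
  have hx : x ≠ 0 := fun a => hP (by rw [a]; simp)
  obtain ⟨s, hs, e, h2⟩ := exists_root hx
  obtain ⟨g, hg, e', h3⟩ := h.hol hr
  have hg' : AnalyticAt ℂ (fun Q => g (s Q)) (x ^ 2) := AnalyticAt.comp_of_eq' hg hs e
  have ht : Tendsto s (𝓝 (x ^ 2)) (𝓝 x) := by simpa only [e] using hs.continuousAt.tendsto
  refine ⟨fun Q => g (s Q) / s Q, hg'.div hs (by rwa [e]), ?_, ?_⟩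
  · simp only [e, e', mul_div_cancel_right₀ _ hx]
  · filter_upwards [h2, ht.eventually h3, ht.eventually_ne hx,
      hg'.continuousAt.eventually_ne (y := 0) (by simpa only [e, e'] using mul_ne_zero hm hx)]
      with Q a b c d
    exact ⟨s Q, a, div_ne_zero d c, fun k => absurd k c, by rwa [div_mul_cancel₀ _ c]⟩

theorem RR.uniq (h : Fac W r) (hr : RR r i P j m) (hr' : RR r i P j m')
    (e : m ^ 2 * P = m' ^ 2 * P) : m = m' := by
  by_cases hP : P = 0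
  · rw [BRR_zero hr hP, BRR_zero hr' hP]
  obtain ⟨x, rfl, hm, -, hr⟩ := hr
  have hx : x ≠ 0 := fun a => hP (by rw [a]; simp)
  have h1 := h.trans (h.symm hr) (hr'.root h rfl)
  rcases sq_eq_sq_iff_eq_or_eq_neg.1 (mul_right_cancel₀ hP e).symm with a | a
  · exact a.symm
  · rw [a, neg_mul] at h1
    exact absurd (h.fix h1) (mul_ne_zero hm hx)

theorem BRR_neg (h : Fac W r) {x : ℂ} (hx : x ∈ W i) : -x ∈ W i := h.mem (h.neg (h.refl hx))

theorem BRR_near (h : Fac W r) {x z : ℂ} {Q : ℂ × ℂ → Prop} (h1 : ∀ᶠ p in 𝓝 (x, z), Q p)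
    (h2 : ∀ᶠ p in 𝓝 (x, -z), Q p) : ∀ᶠ q in 𝓝 (x ^ 2, z ^ 2), ∀ m, RR r i q.1 j m →
      q.2 = m ^ 2 * q.1 → ∃ a, a ^ 2 = q.1 ∧ r i a j (m * a) ∧ Q (a, m * a) := by
  have c : Tendsto (fun p : ℂ × ℂ => (p.1, -p.2)) (𝓝 (x, z)) (𝓝 (x, -z)) :=
    (continuous_fst.prodMk continuous_snd.neg).tendsto (x, z)
  obtain ⟨A, hA, B, hB, k⟩ := mem_nhds_prod_iff.1 (h1.and (c.eventually h2))
  filter_upwards [(root_near x hA).prodMk_nhds (root_near z hB)] with q ⟨k1, k2⟩ m hm e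
  obtain ⟨a, ha, a2⟩ : ∃ a ∈ A, a ^ 2 = q.1 := by
    obtain ⟨t, ht, -⟩ := hm
    rcases k1 t ht with u | u
    exacts [⟨t, u, ht⟩, ⟨-t, u, by rw [neg_sq, ht]⟩]
  refine ⟨a, a2, hm.root h a2, ?_⟩
  rcases k2 (m * a) (by rw [mul_pow, a2, e]) with u | u
  · exact (k (mk_mem_prod ha u)).1
  · simpa only [neg_neg] using (k (mk_mem_prod ha u)).2

theorem BRR_small (P' : ℂ) : ∀ᶠ q : ℂ × ℂ in 𝓝 (0, P'), ‖q.1‖ ≤ 1 / 100 :=
  (continuous_fst.norm.continuousAt.eventually_lt continuousAt_const (by norm_num)).mono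
    fun _ => le_of_lt

theorem RR_clo (h : Fac W r) (hP : P ∈ Dm W i) (hP' : P' ∈ Dm W j) {U : Set ℂ} (hU : IsOpen U)
    (hm : ∀ m, RR r i P j m → P' = m ^ 2 * P → m ∈ U) :
    ∀ᶠ q in 𝓝 (P, P'), ∀ m, RR r i q.1 j m → q.2 = m ^ 2 * q.1 → m ∈ U := by
  obtain ⟨x, hx, rfl⟩ := id hP
  obtain ⟨z, hz, rfl⟩ := hP'
  by_cases h0 : x = 0
  · rw [h0, zero_pow two_ne_zero] at hP hm ⊢
    by_cases e : z ^ 2 = 0
    · filter_upwards [BRR_small (z ^ 2)] with q k m hr _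
      obtain ⟨rfl, rfl⟩ := hr.small h (Or.inl k)
      exact hm 1 (RR_refl h hP) (by rw [e, mul_zero])
    · filter_upwards [BRR_small (z ^ 2), (isOpen_ne_fun continuous_snd continuous_fst).mem_nhds e]
        with q k k' m hr e'
      rw [(hr.small h (Or.inl k)).2, one_pow, one_mul] at e'
      exact (k' e').elim
  · have key : ∀ w ∈ W j, w ^ 2 = z ^ 2 → ∀ᶠ p : ℂ × ℂ in 𝓝 (x, w),
        p.1 ≠ 0 ∧ (r i p.1 j p.2 → p.2 / p.1 ∈ U) := fun w hw e => by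
      refine (continuous_fst.continuousAt.eventually_ne h0).and ?_
      by_cases k : r i x j w
      · obtain ⟨m, k1, k2⟩ := RR_of h k
        have k3 : w / x ∈ U := by
          rw [k2, mul_div_cancel_right₀ _ h0]
          exact hm m k1 (by rw [← e, k2, mul_pow])
        exact (((continuousAt_snd (p := (x, w))).div continuousAt_fst h0).eventually
          (hU.mem_nhds k3)).mono fun _ u _ => u
      · exact (h.clo hx hw k).mono fun _ u v => (u v).elim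
    filter_upwards [BRR_near (i := i) (j := j) h (key z hz rfl) (key _ (BRR_neg h hz) (neg_sq z))]
      with q k m hr e
    obtain ⟨a, -, k1, k2, k3⟩ := k m hr e
    simpa only [mul_div_cancel_right₀ _ k2] using k3 k1

theorem RR_inj (h : Fac W r) (hP : P ∈ Dm W i) :
    ∀ᶠ q in 𝓝 (P, P), ∀ m, RR r i q.1 i m → q.2 = m ^ 2 * q.1 → m = 1 := by
  obtain ⟨x, hx, rfl⟩ := hP
  by_cases h0 : x = 0
  · rw [h0, zero_pow two_ne_zero]
    filter_upwards [BRR_small 0] with q k m hr _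
    exact (hr.small h (Or.inl k)).2
  · have n : ∀ w, ∀ᶠ p : ℂ × ℂ in 𝓝 (x, w), p.1 ≠ 0 := fun w =>
      continuous_fst.continuousAt.eventually_ne h0
    filter_upwards [BRR_near (i := i) (j := i) h ((n x).and (h.inj hx)) ((n (-x)).and
      ((h.clo hx (BRR_neg h hx) fun k => h0 (h.fix k)).mono fun _ u v => (u v).elim))]
      with q k m hr e
    obtain ⟨a, -, k1, k2, k3⟩ := k m hr e
    exact (mul_eq_right₀ k2).1 (k3 k1).symm

theorem RR_cpt (h : Fac W r) : ∃ K : Ix → Set ℂ, (∀ i, IsCompact (K i) ∧ K i ⊆ Dm W i) ∧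
    ∀ i, ∀ P ∈ Dm W i, ∃ j m, RR r i P j m ∧ m ^ 2 * P ∈ K j := by
  obtain ⟨K, h1, h2⟩ := h.cpt
  refine ⟨fun i => (fun x => x ^ 2) '' K i, fun i => ⟨(h1 i).1.image (continuous_pow 2),
    image_mono (h1 i).2⟩, ?_⟩
  rintro i _ ⟨x, hx, rfl⟩
  obtain ⟨j, z, hz, k⟩ := h2 i x hx
  obtain ⟨m, k1, k2⟩ := RR_of h k
  exact ⟨j, m, k1, z, hz, k2 ▸ mul_pow m x 2⟩

end Pool.Agent.Work.MP_bf98aa_gt.Ki
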