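import Pool.Agent.Work.MP_bf98aa_gt.Ki.BDef

/-!
The toric charts: algebra.

PLAN. Everything by `fin_cases` on the charts and on `k`, `simp [tP, tu, tv, ...]`, `field_simp`, `linear_combination`. It pays to prove once, for data `(P, u, v)` with
`u k ≠ 0 ∨ v k ≠ 0` and `v (k+1) * v (k+2) = u (k+1) * u (k+2) * P k` for all `k` (these hold for the data of a chart and are kept by the torus action), that `Den S u v` implies
`tP S (ex S P u v) = P` and `u k * tv S (ex S P u v) k = v k * tu S (ex S P u v) k` (four cases). `TR.trans`: cross products, the middle vector `(tu, tv)` is not zero.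
`exists_den`: if `‖u k‖ ≤ ‖v k‖` for some `k` take the corner `k`, else the centre.
-/

set_option autoImplicit false

noncomputable section

open scoped ContDiff Topology
open Set Filter

namespace Pool.Agent.Work.MP_bf98aa_gt.Ki

open Pool.Agent.Work.MP_bf98aa_gt.Th Pool.Agent.Work.MP_bf98aa_gt.Cp

variable {m m' : Fin 3 → ℂ} {T S R : Fin 4} {p q x : E3}

theorem tuv_ne (T : Fin 4) (p : E3) (k : Fin 3) : tu T p k ≠ 0 ∨ tv T p k ≠ 0 := by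
  fin_cases T <;> fin_cases k <;> simp [tu, tv]

theorem tv_mul (T : Fin 4) (p : E3) (k : Fin 3) :
    tv T p (k + 1) * tv T p (k + 2) = tu T p (k + 1) * tu T p (k + 2) * tP T p k := by
  fin_cases T <;> fin_cases k <;> simp [tP, tu, tv] <;> ring

theorem tu_sq (T : Fin 4) (p : E3) :
    tu T p 2 ^ 2 * (tP T p 0 * tP T p 1) = tv T p 2 ^ 2 * tP T p 2 := by
  fin_cases T <;> simp [tP, tu, tv] <;> ring

theorem tv_ne (T : Fin 4) (h : t0 p ≠ 0) : tv T p 2 ≠ 0 := by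
  have h1 : p.1 ≠ 0 := fun e => h (by simp [t0, e])
  have h2 : p.2.1 ≠ 0 := fun e => h (by simp [t0, e])
  have h3 : p.2.2 ≠ 0 := fun e => h (by simp [t0, e])
  fin_cases T <;> simp [tv, h1, h2, h3]

theorem dense_t0 : Dense {p : E3 | t0 p ≠ 0} := by
  have h := dense_compl_singleton (0 : ℂ)
  refine (h.prod (h.prod h)).mono fun p hp => ?_
  exact mul_ne_zero (mul_ne_zero hp.1 hp.2.1) hp.2.2

theorem TR_refl (T : Fin 4) (p : E3) : TR (fun _ => 1) T p T p := by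
  intro k
  constructor <;> ring

theorem TR.symm (h : TR m T p S q) (hm : ∀ k, m k ≠ 0) : TR (fun k => (m k)⁻¹) S q T p := by
  intro k
  have h0 := hm k
  have h1 := hm (k + 1)
  have h2 := hm (k + 2)
  refine ⟨?_, ?_⟩
  · rw [(h k).1]
    field_simp
  · field_simp
    linear_combination -(h k).2

theorem TR.trans (h : TR m T p S q) (h' : TR m' S q R x) : TR (fun k => m' k * m k) T p R x := by
  intro k
  refine ⟨by rw [(h' k).1, (h k).1]; ring, ?_⟩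
  rcases tuv_ne S q k with h0 | h0
  · refine mul_left_cancel₀ h0 ?_
    linear_combination m k * tu T p k * (h' k).2 + m' (k + 1) * m' (k + 2) * tu R x k * (h k).2
  · refine mul_left_cancel₀ h0 ?_
    linear_combination m' k * tv R x k * (h k).2 + m (k + 1) * m (k + 2) * tv T p k * (h' k).2

theorem BTor_ne (hm : ∀ k, m k ≠ 0) (T : Fin 4) (p : E3) (k : Fin 3) :
    m k * tu T p k ≠ 0 ∨ m (k + 1) * m (k + 2) * tv T p k ≠ 0 :=
  (tuv_ne T p k).imp (mul_ne_zero (hm k)) (mul_ne_zero (mul_ne_zero (hm _) (hm _)))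

theorem BTor_one {u v a : ℂ} (h : u ≠ 0 ∨ v ≠ 0) (e : u * 1 = v * a) : v ≠ 0 ∧ a = u / v := by
  have hv : v ≠ 0 := fun hv => by simp_all
  exact ⟨hv, by rw [eq_div_iff hv, mul_comm, ← e, mul_one]⟩

theorem BTor_ex {P u v : Fin 3 → ℂ} (h1 : ∀ k, u k ≠ 0 ∨ v k ≠ 0)
    (h : ∀ k, tP S q k = P k ∧ u k * tv S q k = v k * tu S q k) :
    Den S u v ∧ q = ex S P u v := by
  obtain ⟨a, b, c⟩ := q
  fin_cases S
  · obtain ⟨e1, e2⟩ := BTor_one (h1 0) (h 0).2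
    exact ⟨e1, Prod.ext e2 (Prod.ext (h 1).1 (h 2).1)⟩
  · obtain ⟨e1, e2⟩ := BTor_one (h1 1) (h 1).2
    exact ⟨e1, Prod.ext (h 0).1 (Prod.ext e2 (h 2).1)⟩
  · obtain ⟨e1, e2⟩ := BTor_one (h1 2) (h 2).2
    exact ⟨e1, Prod.ext (h 0).1 (Prod.ext (h 1).1 e2)⟩
  · obtain ⟨e0, f0⟩ := BTor_one (h1 0).symm (h 0).2.symm
    obtain ⟨e1, f1⟩ := BTor_one (h1 1).symm (h 1).2.symm
    obtain ⟨e2, f2⟩ := BTor_one (h1 2).symm (h 2).2.symm
    exact ⟨⟨e0, e1, e2⟩, Prod.ext f0 (Prod.ext f1 f2)⟩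

theorem TR.eq_act (h : TR m T p S q) (hm : ∀ k, m k ≠ 0) : DenA m T S p ∧ q = act m T S p := by
  exact BTor_ex (BTor_ne hm T p) h

theorem BTor_corner {u0 u1 u2 v0 v1 v2 P0 P1 P2 : ℂ} (h1 : u1 ≠ 0 ∨ v1 ≠ 0)
    (h2 : u2 ≠ 0 ∨ v2 ≠ 0) (e0 : v1 * v2 = u1 * u2 * P0) (e1 : v2 * v0 = u2 * u0 * P1)
    (e2 : v0 * v1 = u0 * u1 * P2) (h : v0 ≠ 0) :
    (u0 / v0) ^ 2 * P1 * P2 = P0 ∧ u0 * 1 = v0 * (u0 / v0) ∧ u1 * (u0 / v0 * P2) = v1 * 1 ∧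
      u2 * (u0 / v0 * P1) = v2 * 1 := by
  have a1 : u1 ≠ 0 := fun a => by simp_all
  have a2 : u2 ≠ 0 := fun a => by simp_all
  refine ⟨mul_left_cancel₀ (mul_ne_zero a1 a2) ?_, ?_, ?_, ?_⟩ <;> field_simp
  · apply mul_left_cancel₀ (mul_ne_zero a1 a2)
    linear_combination v0 ^ 2 * e0 - v0 * v1 * e1 - u2 * u0 * P1 * e2
  · linear_combination -e2
  · linear_combination -e1

theorem BTor_act {P u v : Fin 3 → ℂ} (h1 : ∀ k, u k ≠ 0 ∨ v k ≠ 0)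
    (h2 : ∀ k, v (k + 1) * v (k + 2) = u (k + 1) * u (k + 2) * P k) (h : Den S u v) (k : Fin 3) :
    tP S (ex S P u v) k = P k ∧ u k * tv S (ex S P u v) k = v k * tu S (ex S P u v) k := by
  have e0 : v 1 * v 2 = u 1 * u 2 * P 0 := h2 0
  have e1 : v 2 * v 0 = u 2 * u 0 * P 1 := h2 1
  have e2 : v 0 * v 1 = u 0 * u 1 * P 2 := h2 2
  fin_cases S
  · obtain ⟨a, b, c, d⟩ := BTor_corner (h1 1) (h1 2) e0 e1 e2 h
    fin_cases k
    exacts [⟨a, b⟩, ⟨rfl, c⟩, ⟨rfl, d⟩]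
  · obtain ⟨a, b, c, d⟩ := BTor_corner (h1 2) (h1 0) e1 e2 e0 h
    fin_cases k
    exacts [⟨rfl, d⟩, ⟨(mul_right_comm _ _ _).trans a, b⟩, ⟨rfl, c⟩]
  · obtain ⟨a, b, c, d⟩ := BTor_corner (h1 0) (h1 1) e2 e0 e1 h
    fin_cases k
    exacts [⟨rfl, c⟩, ⟨rfl, d⟩, ⟨a, b⟩]
  · obtain ⟨a, b, c⟩ : u 0 ≠ 0 ∧ u 1 ≠ 0 ∧ u 2 ≠ 0 := h
    fin_cases k
    · refine ⟨show v 1 / u 1 * (v 2 / u 2) = P 0 from ?_, show u 0 * (v 0 / u 0) = v 0 * 1 from ?_⟩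
        <;> field_simp
      exact e0
    · refine ⟨show v 0 / u 0 * (v 2 / u 2) = P 1 from ?_, show u 1 * (v 1 / u 1) = v 1 * 1 from ?_⟩
        <;> field_simp
      linear_combination e1
    · refine ⟨show v 0 / u 0 * (v 1 / u 1) = P 2 from ?_, show u 2 * (v 2 / u 2) = v 2 * 1 from ?_⟩
        <;> field_simp
      exact e2

theorem TR_act (hm : ∀ k, m k ≠ 0) (h : DenA m T S p) : TR m T p S (act m T S p) := by
  refine BTor_act (BTor_ne hm T p) (fun k => ?_) h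
  have e := tv_mul T p k
  have e1 : k + 1 + 1 = k + 2 := by fin_cases k <;> rfl
  have e2 : k + 1 + 2 = k := by fin_cases k <;> rfl
  have e3 : k + 2 + 1 = k := by fin_cases k <;> rfl
  have e4 : k + 2 + 2 = k + 1 := by fin_cases k <;> rfl
  simp only [e1, e2, e3, e4]
  linear_combination m k ^ 2 * m (k + 1) * m (k + 2) * e

theorem TR.inj (h : TR (fun _ => 1) T p T q) : p = q := by
  rw [(h.eq_act fun _ => one_ne_zero).2, ← ((TR_refl T p).eq_act fun _ => one_ne_zero).2]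

theorem BTor_par {a b x y : ℂ} (h : a ≠ 0 ∨ b ≠ 0) (h' : x ≠ 0 ∨ y ≠ 0) (e : a * y = b * x) :
    ∃ c, c ≠ 0 ∧ x = c * a ∧ y = c * b := by
  rcases h with h | h
  · have hx : x ≠ 0 := fun hx => by simp_all
    refine ⟨x / a, div_ne_zero hx h, ?_, ?_⟩ <;> field_simp
    linear_combination e
  · have hy : y ≠ 0 := fun hy => by simp_all
    refine ⟨y / b, div_ne_zero hy h, ?_, ?_⟩ <;> field_simp
    linear_combination -e

theorem BTor_t0 (T : Fin 4) (p : E3) :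
    t0 p * tu T p 0 = tv T p 0 * tP T p 0 ∧
      t0 p * tv T p 0 = tu T p 0 * (tP T p 1 * tP T p 2) := by
  fin_cases T <;> constructor <;> simp [Ki.t0, tu, tv, tP] <;> ring

theorem TR.t0 (h : TR m T p S q) (hm : ∀ k, m k ≠ 0) : t0 q = m 0 * m 1 * m 2 * t0 p := by
  obtain ⟨c, hc, e1, e2⟩ := BTor_par (BTor_ne hm T p 0) (tuv_ne S q 0) (h 0).2
  obtain ⟨a1, a2⟩ := BTor_t0 T p
  obtain ⟨b1, b2⟩ := BTor_t0 S q
  rw [e1, e2, (h 0).1] at b1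
  rw [e1, e2, (h 1).1, (h 2).1] at b2
  have e3 : (0 : Fin 3) + 1 = 1 := rfl
  have e4 : (0 : Fin 3) + 2 = 2 := rfl
  rw [e3, e4] at b1 b2
  rcases tuv_ne T p 0 with h0 | h0
  · apply mul_left_cancel₀ (mul_ne_zero hc (mul_ne_zero (hm 0) h0))
    linear_combination b1 - c * m 0 ^ 2 * m 1 * m 2 * a1
  · apply mul_left_cancel₀ (mul_ne_zero hc (mul_ne_zero (mul_ne_zero (hm 1) (hm 2)) h0))
    linear_combination b2 - c * m 0 * m 1 ^ 2 * m 2 ^ 2 * a2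

theorem TR.scal (h : TR m T p S q) (hm : ∀ k, m k ≠ 0) (k : Fin 3) : ∃ c, c ≠ 0 ∧
    tu S q k = c * (m k * tu T p k) ∧ tv S q k = c * (m (k + 1) * m (k + 2) * tv T p k) := by
  exact BTor_par (BTor_ne hm T p k) (tuv_ne S q k) (h k).2

theorem BTor_den {P u v : Fin 3 → ℂ} (h : ∀ k, u k ≠ 0 ∨ v k ≠ 0) {B : ℝ} (h1 : 1 ≤ B)
    (hB : ∀ k, ‖P k‖ ≤ B) : ∃ S, Den S u v ∧ ‖ex S P u v‖ ≤ B := by
  have key : ∀ a b : ℂ, ‖a‖ ≤ ‖b‖ → ‖a / b‖ ≤ B := fun a b e => by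
    rw [norm_div]
    exact (div_le_one_of_le₀ e (norm_nonneg _)).trans h1
  have hv : ∀ k, ‖u k‖ ≤ ‖v k‖ → v k ≠ 0 := fun k e h0 => by
    rw [h0, norm_zero, norm_le_zero_iff] at e
    exact (h k).elim (fun a => a e) fun a => a h0
  have n3 : ∀ a b c : ℂ, ‖a‖ ≤ B → ‖b‖ ≤ B → ‖c‖ ≤ B → ‖((a, b, c) : E3)‖ ≤ B :=
    fun a b c ha hb hc => max_le ha (max_le hb hc)
  by_cases e0 : ‖u 0‖ ≤ ‖v 0‖
  · exact ⟨0, hv 0 e0, n3 _ _ _ (key _ _ e0) (hB 1) (hB 2)⟩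
  by_cases e1 : ‖u 1‖ ≤ ‖v 1‖
  · exact ⟨1, hv 1 e1, n3 _ _ _ (hB 0) (key _ _ e1) (hB 2)⟩
  by_cases e2 : ‖u 2‖ ≤ ‖v 2‖
  · exact ⟨2, hv 2 e2, n3 _ _ _ (hB 0) (hB 1) (key _ _ e2)⟩
  have hu : ∀ k, ¬ ‖u k‖ ≤ ‖v k‖ → u k ≠ 0 := fun k e h0 => e (by
    rw [h0, norm_zero]
    exact norm_nonneg _)
  exact ⟨3, ⟨hu 0 e0, hu 1 e1, hu 2 e2⟩, n3 _ _ _ (key _ _ (not_le.1 e0).le)
    (key _ _ (not_le.1 e1).le) (key _ _ (not_le.1 e2).le)⟩

theorem exists_den (hm : ∀ k, m k ≠ 0) (T : Fin 4) (p : E3) {B : ℝ} (h1 : 1 ≤ B)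
    (hB : ∀ k, ‖m k ^ 2 * tP T p k‖ ≤ B) : ∃ S, DenA m T S p ∧ ‖act m T S p‖ ≤ B := by
  exact BTor_den (fun k => (tuv_ne T p k).imp (mul_ne_zero (hm k))
    (mul_ne_zero (mul_ne_zero (hm _) (hm _)))) h1 hB

theorem denA_two (hm : ∀ k, m k ≠ 0) (h : tv T p 2 ≠ 0) : DenA m T 2 p := by
  exact mul_ne_zero (mul_ne_zero (hm (2 + 1)) (hm (2 + 2))) h

end Pool.Agent.Work.MP_bf98aa_gt.Ki
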