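import Pool.Agent.Work.MP_bf98aa_gt.Ki.BDef

/-!
The toric charts: analysis.

PLAN. `fin_cases`; `fun_prop` or `AnalyticAt.mul`, `analyticAt_fst`, `analyticAt_snd`. Derivatives: give `HasFDerivAt` over `ℂ` explicitly chart by chart
(`hasFDerivAt_fst`, `.mul`, `.pow`), or prove one lemma computing `fderiv ℂ (fun x => tP T x k) p e` and the same for `tu`, `tv` as explicit vectors in `p, e`.
`det_tP`: `LinearMap.det_toLin`/`LinearMap.det_toMatrix` with the basis of `ℂ × ℂ × ℂ`, `Matrix.det_fin_three`. `tor_imm`: in a corner chart two coordinates are `tP`, the third is `tu` with `tv = 1`;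
in the centre `tu = 1` and `tv` are the coordinates. `tor_crs`: compute one component of `crs`.
-/

set_option autoImplicit false

noncomputable section

open scoped ContDiff Topology
open Set Filter

namespace Pool.Agent.Work.MP_bf98aa_gt.Ki

open Pool.Agent.Work.MP_bf98aa_gt.Th Pool.Agent.Work.MP_bf98aa_gt.Cp

/-- A monomial. -/
def BTor2_m (n : ℕ × ℕ × ℕ) (x : E3) : ℂ := x.1 ^ n.1 * x.2.1 ^ n.2.1 * x.2.2 ^ n.2.2

def BTor2_eP : Fin 4 → Fin 3 → ℕ × ℕ × ℕ :=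
  ![![(2, 1, 1), (0, 1, 0), (0, 0, 1)], ![(1, 0, 0), (1, 2, 1), (0, 0, 1)],
    ![(1, 0, 0), (0, 1, 0), (1, 1, 2)], ![(0, 1, 1), (1, 0, 1), (1, 1, 0)]]

def BTor2_eu : Fin 4 → Fin 3 → ℕ × ℕ × ℕ :=
  ![![(1, 0, 0), (0, 0, 0), (0, 0, 0)], ![(0, 0, 0), (0, 1, 0), (0, 0, 0)],
    ![(0, 0, 0), (0, 0, 0), (0, 0, 1)], ![(0, 0, 0), (0, 0, 0), (0, 0, 0)]]

def BTor2_ev : Fin 4 → Fin 3 → ℕ × ℕ × ℕ :=
  ![![(0, 0, 0), (1, 0, 1), (1, 1, 0)], ![(0, 1, 1), (0, 0, 0), (1, 1, 0)],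
    ![(0, 1, 1), (1, 0, 1), (0, 0, 0)], ![(1, 0, 0), (0, 1, 0), (0, 0, 1)]]

theorem BTor2_P (T : Fin 4) (k : Fin 3) : (fun x => tP T x k) = BTor2_m (BTor2_eP T k) := by
  funext x
  fin_cases T <;> fin_cases k <;> simp [tP, BTor2_m, BTor2_eP, mul_comm, mul_left_comm, mul_assoc]

theorem BTor2_u (T : Fin 4) (k : Fin 3) : (fun x => tu T x k) = BTor2_m (BTor2_eu T k) := by
  funext x
  fin_cases T <;> fin_cases k <;> simp [tu, BTor2_m, BTor2_eu]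

theorem BTor2_v (T : Fin 4) (k : Fin 3) : (fun x => tv T x k) = BTor2_m (BTor2_ev T k) := by
  funext x
  fin_cases T <;> fin_cases k <;> simp [tv, BTor2_m, BTor2_ev, mul_comm]

theorem BTor2_an (n : ℕ × ℕ × ℕ) (p : E3) : AnalyticAt ℂ (BTor2_m n) p :=
  ((analyticAt_fst.pow _).mul ((analyticAt_fst.comp analyticAt_snd).pow _)).mul
    ((analyticAt_snd.comp analyticAt_snd).pow _)

theorem BTor2_fd (n : ℕ × ℕ × ℕ) (p e : E3) : fderiv ℂ (BTor2_m n) p e =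
    n.1 * p.1 ^ (n.1 - 1) * p.2.1 ^ n.2.1 * p.2.2 ^ n.2.2 * e.1 +
      n.2.1 * p.1 ^ n.1 * p.2.1 ^ (n.2.1 - 1) * p.2.2 ^ n.2.2 * e.2.1 +
      n.2.2 * p.1 ^ n.1 * p.2.1 ^ n.2.1 * p.2.2 ^ (n.2.2 - 1) * e.2.2 := by
  have h : HasFDerivAt (𝕜 := ℂ) (BTor2_m n) _ p :=
    ((hasFDerivAt_fst.pow n.1).mul ((hasFDerivAt_fst.comp p hasFDerivAt_snd).pow n.2.1)).mul
      ((hasFDerivAt_snd.comp p hasFDerivAt_snd).pow n.2.2)
  rw [h.fderiv]
  simp
  ring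

theorem analyticAt_tP (T : Fin 4) (k : Fin 3) (p : E3) : AnalyticAt ℂ (fun x => tP T x k) p := by
  rw [BTor2_P]
  exact BTor2_an _ p

theorem analyticAt_tu (T : Fin 4) (k : Fin 3) (p : E3) : AnalyticAt ℂ (fun x => tu T x k) p := by
  rw [BTor2_u]
  exact BTor2_an _ p

theorem analyticAt_tv (T : Fin 4) (k : Fin 3) (p : E3) : AnalyticAt ℂ (fun x => tv T x k) p := by
  rw [BTor2_v]
  exact BTor2_an _ p

theorem BTor2_ex {P u v : E3 → Fin 3 → ℂ} {S : Fin 4} {p : E3}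
    (hP : ∀ k, AnalyticAt ℂ (fun x => P x k) p) (hu : ∀ k, AnalyticAt ℂ (fun x => u x k) p)
    (hv : ∀ k, AnalyticAt ℂ (fun x => v x k) p) (h : Den S (u p) (v p)) :
    AnalyticAt ℂ (fun x => ex S (P x) (u x) (v x)) p ∧ ∀ᶠ x in 𝓝 p, Den S (u x) (v x) := by
  fin_cases S
  · exact ⟨((hu 0).div (hv 0) h).prod ((hP 1).prod (hP 2)), (hv 0).continuousAt.eventually_ne h⟩
  · exact ⟨(hP 0).prod (((hu 1).div (hv 1) h).prod (hP 2)), (hv 1).continuousAt.eventually_ne h⟩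
  · exact ⟨(hP 0).prod ((hP 1).prod ((hu 2).div (hv 2) h)), (hv 2).continuousAt.eventually_ne h⟩
  · exact ⟨((hv 0).div (hu 0) h.1).prod (((hv 1).div (hu 1) h.2.1).prod ((hv 2).div (hu 2) h.2.2)),
      ((hu 0).continuousAt.eventually_ne h.1).and (((hu 1).continuousAt.eventually_ne h.2.1).and
        ((hu 2).continuousAt.eventually_ne h.2.2))⟩

theorem act_an {μ : E3 → Fin 3 → ℂ} {T S : Fin 4} {p : E3}
    (hμ : ∀ k, AnalyticAt ℂ (fun x => μ x k) p) (h : DenA (μ p) T S p) :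
    AnalyticAt ℂ (fun x => act (μ x) T S x) p ∧ ∀ᶠ x in 𝓝 p, DenA (μ x) T S x := by
  exact BTor2_ex (fun k => ((hμ k).pow 2).mul (analyticAt_tP T k p))
    (fun k => (hμ k).mul (analyticAt_tu T k p))
    (fun k => ((hμ (k + 1)).mul (hμ (k + 2))).mul (analyticAt_tv T k p)) h

theorem BTor2_det (L : E3 →L[ℂ] E3) : L.det =
    (L (1, 0, 0)).1 * (L (0, 1, 0)).2.1 * (L (0, 0, 1)).2.2 -
      (L (1, 0, 0)).1 * (L (0, 0, 1)).2.1 * (L (0, 1, 0)).2.2 -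
      (L (0, 1, 0)).1 * (L (1, 0, 0)).2.1 * (L (0, 0, 1)).2.2 +
      (L (0, 1, 0)).1 * (L (0, 0, 1)).2.1 * (L (1, 0, 0)).2.2 +
      (L (0, 0, 1)).1 * (L (1, 0, 0)).2.1 * (L (0, 1, 0)).2.2 -
      (L (0, 0, 1)).1 * (L (0, 1, 0)).2.1 * (L (1, 0, 0)).2.2 := by
  let e : E3 ≃ₗ[ℂ] (Fin 3 → ℂ) :=
    { toFun := fun x => ![x.1, x.2.1, x.2.2]
      invFun := fun y => (y 0, y 1, y 2)
      map_add' := fun x y => by ext i; fin_cases i <;> rfl
      map_smul' := fun c x => by ext i; fin_cases i <;> rfl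
      left_inv := fun _ => rfl
      right_inv := fun y => by ext i; fin_cases i <;> rfl }
  rw [ContinuousLinearMap.det, ← LinearMap.det_conj _ e, ← LinearMap.det_toMatrix',
    Matrix.det_fin_three]
  rfl

theorem det_tP (T : Fin 4) (p : E3) :
    (fderiv ℂ (fun x => ((tP T x 0, tP T x 1, tP T x 2) : E3)) p).det = 2 * t0 p := by
  have d := fun k => (analyticAt_tP T k p).differentiableAt
  rw [(d 0).fderiv_prodMk ((d 1).prodMk (d 2)), (d 1).fderiv_prodMk (d 2), BTor2_det]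
  simp only [ContinuousLinearMap.prod_apply, BTor2_P, BTor2_fd]
  fin_cases T <;> simp [BTor2_eP, t0] <;> ring

theorem det_diag {G : Fin 3 → ℂ → ℂ} {d : Fin 3 → ℂ} {z : E3} (h0 : HasDerivAt (G 0) (d 0) z.1)
    (h1 : HasDerivAt (G 1) (d 1) z.2.1) (h2 : HasDerivAt (G 2) (d 2) z.2.2) :
    DifferentiableAt ℂ (fun x : E3 => ((G 0 x.1, G 1 x.2.1, G 2 x.2.2) : E3)) z ∧
      (fderiv ℂ (fun x : E3 => ((G 0 x.1, G 1 x.2.1, G 2 x.2.2) : E3)) z).det = d 0 * d 1 * d 2 := by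
  have f1 : HasFDerivAt (𝕜 := ℂ) (fun x : E3 => x.2.1) _ z := hasFDerivAt_fst.comp z hasFDerivAt_snd
  have f2 : HasFDerivAt (𝕜 := ℂ) (fun x : E3 => x.2.2) _ z := hasFDerivAt_snd.comp z hasFDerivAt_snd
  have h := (h0.comp_hasFDerivAt z (hasFDerivAt_fst (𝕜 := ℂ))).prodMk
    ((h1.comp_hasFDerivAt z f1).prodMk (h2.comp_hasFDerivAt z f2))
  refine ⟨h.differentiableAt, (congrArg _ h.fderiv).trans ?_⟩
  rw [BTor2_det]
  simp

theorem tor_imm (T : Fin 4) (p e : E3) (h1 : ∀ k, fderiv ℂ (fun x => tP T x k) p e = 0)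
    (h2 : ∀ k, tu T p k * fderiv ℂ (fun x => tv T x k) p e =
      tv T p k * fderiv ℂ (fun x => tu T x k) p e) : e = 0 := by
  simp only [BTor2_P, BTor2_u, BTor2_v, BTor2_fd] at h1 h2
  have a0 := h1 0
  have a1 := h1 1
  have a2 := h1 2
  have b0 := h2 0
  have b1 := h2 1
  have b2 := h2 2
  refine Prod.ext ?_ (Prod.ext ?_ ?_) <;> fin_cases T <;>
    simp [BTor2_eP, BTor2_eu, BTor2_ev, tu, tv] at a0 a1 a2 b0 b1 b2 ⊢ <;>
    first | assumption | (symm; assumption)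

theorem crs_smul (a b : ℂ) (α β : E3 →L[ℂ] ℂ) : crs (a • α) (b • β) = (a * b) • crs α β := by
  simp only [crs, smul_apply, smul_eq_mul, Prod.smul_mk]
  refine Prod.ext ?_ (Prod.ext ?_ ?_) <;> ring

theorem tor_crs (T : Fin 4) {p : E3} (h : tv T p 2 ≠ 0) :
    crs (fderiv ℂ (fun x => tP T x 0) p) (fderiv ℂ (fun x => tP T x 1) p) ≠ 0 := by
  simp only [crs, BTor2_P, BTor2_fd]
  fin_cases T <;> simp [BTor2_eP, tv] at h ⊢ <;> simp [h]

theorem tor_crs_two (p : E3) :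
    crs (fderiv ℂ (fun x => tP 2 x 0) p) (fderiv ℂ (fun x => tP 2 x 1) p) = (0, 0, 1) := by
  simp [crs, BTor2_P, BTor2_fd, BTor2_eP]

end Pool.Agent.Work.MP_bf98aa_gt.Ki
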