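import Pool.Agent.Work.MP_bf98aa_gt.Ki.BFacC
import Pool.Agent.Work.MP_bf98aa_gt.Ki.BRR
import Pool.Agent.Work.MP_bf98aa_gt.Ki.BTor
import Pool.Agent.Work.MP_bf98aa_gt.Ki.BTor2
import Pool.Agent.Work.MP_bf98aa_gt.Cp.PBas

/-!
The presentation is good.

PLAN. `exists_HL`: `RR.loc` for the three factors, `γ x = act (fun k => μ k (tP i.2 x k)) i.2 j.2 x`, `act_an`, `TR.eq_act`, `TR_act`. `inj`: `RR_inj` along the continuous map
`(x, x') ↦ (tP x k, tP x' k)`, then `TR.inj`. `clo`: if for some `k` there is no `m` with `RR .. m` and `tP q k = m ^ 2 * tP p k` use `RR_clo` with `U = ∅`; otherwise let `m₀ k` be these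
multipliers (unique by `RR.uniq`); `TR m₀` fails, so it fails for `(m, x, x')` in a product neighbourhood of `(m₀, p, q)` (the equations are continuous); `RR_clo` with the open sets `U k`.
`lift_HL`: `exists_HL`, `SMap.lift_eq` with `PM_good.smap`, `AnalyticAt.congr`. An analytic map is smooth over the reals: `AnalyticAt.contDiffAt`, `ContDiffAt.restrict_scalars`.
-/

set_option autoImplicit false

noncomputable section

open scoped ContDiff Topology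
open Set Filter

namespace Pool.Agent.Work.MP_bf98aa_gt.Ki

open Pool.Agent.Work.MP_bf98aa_gt.Th Pool.Agent.Work.MP_bf98aa_gt.Cp

variable {i j : Jx} {p q : E3} {m : Fin 3 → ℂ} {γ : E3 → E3} {μ : Fin 3 → ℂ → ℂ}

theorem Rm.ne (h : Rm m i p j q) (k : Fin 3) : m k ≠ 0 := by
  exact (h.1 k).ne

theorem Rm.mem (h : Rm m i p j q) : p ∈ PM.W i ∧ q ∈ PM.W j := by
  refine ⟨fun k => ((h.1 k).mem (fack k)).1, fun k => ?_⟩
  rw [(h.2 k).1]
  exact ((h.1 k).mem (fack k)).2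

theorem isOpen_W (i : Jx) : IsOpen (PM.W i) := by
  have e : PM.W i = ⋂ k, (fun p => tP i.2 p k) ⁻¹' Dm (Wk k) (i.1 k) := by
    ext x
    rw [mem_iInter]
    rfl
  rw [e]
  exact isOpen_iInter_of_finite fun k => (isOpen_Dm (fack k) _).preimage
    (continuous_iff_continuousAt.2 fun p => (analyticAt_tP i.2 k p).continuousAt)

theorem exists_HL (h : Rm m i p j q) : ∃ γ μ, γ p = q ∧ HL i j p γ μ := by
  choose μ h1 h2 h3 using fun k => (h.1 k).loc (fack k)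
  have e : (fun k => μ k (tP i.2 p k)) = m := funext h2
  obtain ⟨d1, d2⟩ := h.2.eq_act h.ne
  obtain ⟨a1, a2⟩ := act_an (μ := fun x k => μ k (tP i.2 x k)) (T := i.2) (S := j.2) (p := p)
    (fun k => (h1 k).comp_of_eq (analyticAt_tP i.2 k p) rfl) (by rw [e]; exact d1)
  refine ⟨fun x => act (fun k => μ k (tP i.2 x k)) i.2 j.2 x, μ, ?_, a1, h1, h3, ?_⟩
  · rw [d2, ← e]
  · filter_upwards [a2, eventually_all.2 fun k =>
      (analyticAt_tP i.2 k p).continuousAt.eventually (h3 k)] with x b1 b2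
    exact ⟨b2, TR_act (fun k => (b2 k).ne) b1⟩

theorem HL.lift (h : HL i j p γ μ) : Lift (sl PM.r i j) p γ := by
  exact ⟨h.1.contDiffAt.restrict_scalars ℝ, h.2.2.2.mono fun x hx => ⟨_, hx⟩⟩

theorem BMan_cont {X : Type} [TopologicalSpace X] {f : X → E3} (hf : Continuous f) (T : Fin 4)
    (k : Fin 3) : (Continuous fun x => tP T (f x) k) ∧ (Continuous fun x => tu T (f x) k) ∧
      Continuous fun x => tv T (f x) k :=
  ⟨(continuous_iff_continuousAt.2 fun x => (analyticAt_tP T k x).continuousAt).comp hf,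
    (continuous_iff_continuousAt.2 fun x => (analyticAt_tu T k x).continuousAt).comp hf,
    (continuous_iff_continuousAt.2 fun x => (analyticAt_tv T k x).continuousAt).comp hf⟩

theorem BMan_tend (T S : Fin 4) (p q : E3) (k : Fin 3) :
    Tendsto (fun x : E3 × E3 => (tP T x.1 k, tP S x.2 k)) (𝓝 (p, q)) (𝓝 (tP T p k, tP S q k)) :=
  ((BMan_cont continuous_fst T k).1.prodMk (BMan_cont continuous_snd S k).1).tendsto (p, q)

theorem PM_inj (hp : p ∈ PM.W i) : ∀ᶠ x in 𝓝 (p, p), PM.r i x.1 i x.2 → x.1 = x.2 := by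
  filter_upwards [eventually_all.2 fun k =>
    (BMan_tend i.2 i.2 p p k).eventually (RR_inj (fack k) (hp k))] with x hx
  rintro ⟨m, a, b⟩
  obtain rfl : m = fun _ => 1 := funext fun k => hx k _ (a k) (b k).1
  exact b.inj

theorem PM_clo (hp : p ∈ PM.W i) (hq : q ∈ PM.W j) (h : ¬ PM.r i p j q) :
    ∀ᶠ x in 𝓝 (p, q), ¬ PM.r i x.1 j x.2 := by
  by_cases e : ∀ k, ∃ m, RR (rk k) (i.1 k) (tP i.2 p k) (j.1 k) m ∧ tP j.2 q k = m ^ 2 * tP i.2 p k
  · choose m₀ h1 h2 using e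
    have cl : IsClosed {z : (Fin 3 → ℂ) × E3 × E3 | TR z.1 i.2 z.2.1 j.2 z.2.2} := by
      simp only [TR, ofPred_forall, ofPred_and]
      refine isClosed_iInter fun k => ?_
      obtain ⟨a1, a2, a3⟩ := BMan_cont (X := (Fin 3 → ℂ) × E3 × E3) continuous_snd.fst i.2 k
      obtain ⟨b1, b2, b3⟩ := BMan_cont (X := (Fin 3 → ℂ) × E3 × E3) continuous_snd.snd j.2 k
      have c := fun k => (continuous_apply k).comp (continuous_fst (X := Fin 3 → ℂ) (Y := E3 × E3))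
      exact (isClosed_eq b1 (((c k).pow 2).mul a1)).inter
        (isClosed_eq (((c k).mul a2).mul b3) ((((c _).mul (c _)).mul a3).mul b2))
    obtain ⟨u, v, hu, hv, mu, mv, s⟩ := isOpen_prod_iff.1 cl.isOpen_compl m₀ (p, q)
      fun t => h ⟨m₀, h1, t⟩
    obtain ⟨U, hU, s'⟩ := isOpen_pi_iff'.1 hu m₀ mu
    filter_upwards [hv.mem_nhds mv, eventually_all.2 fun k => (BMan_tend i.2 j.2 p q k).eventually
      (RR_clo (fack k) (hp k) (hq k) (hU k).1 fun m a b =>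
        (h1 k).uniq (fack k) a ((h2 k).symm.trans b) ▸ (hU k).2)] with x x1 x2
    rintro ⟨m, a, b⟩
    exact s (mk_mem_prod (s' fun k _ => x2 k _ (a k) (b k).1) x1) b
  · obtain ⟨k, hk⟩ := not_forall.1 e
    filter_upwards [(BMan_tend i.2 j.2 p q k).eventually (RR_clo (fack k) (hp k) (hq k) isOpen_empty
      fun m a b => hk ⟨m, a, b⟩)] with x x1
    rintro ⟨m, a, b⟩
    exact x1 _ (a k) (b k).1

theorem PM_good : PM.Good := by
  refine ⟨inferInstanceAs (Finite Jx), isOpen_W, fun ⟨_, h⟩ => h.mem.1,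
    fun hy => ⟨fun _ => 1, fun k => RR_refl (fack k) (hy k), TR_refl _ _⟩,
    fun ⟨m, h⟩ => ⟨fun k => (m k)⁻¹, fun k => ?_, h.2.symm h.ne⟩,
    fun ⟨m, h⟩ ⟨m', h'⟩ => ⟨fun k => m' k * m k, fun k => ?_, h.2.trans h'.2⟩,
    fun ⟨_, h⟩ => ?_, PM_inj, PM_clo⟩
  · rw [(h.2 k).1]
    exact (h.1 k).symm (fack k)
  · exact (h.1 k).trans (fack k) ((h.2 k).1 ▸ h'.1 k)
  · obtain ⟨γ, μ, h1, h2⟩ := exists_HL h
    exact ⟨γ, h1, h2.lift⟩

theorem lift_HL (h : Lift (sl PM.r i j) p γ) : ∃ μ, HL i j p γ μ := by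
  obtain ⟨m, hm⟩ := h.self
  obtain ⟨γ', μ, h1, h2⟩ := exists_HL hm
  have e : γ' =ᶠ[𝓝 p] γ := PM_good.smap.lift_eq PM_good h2.lift h h1
  refine ⟨μ, h2.1.congr e, h2.2.1, h2.2.2.1, ?_⟩
  filter_upwards [e, h2.2.2.2] with x a1 a2
  exact a1 ▸ a2

theorem HL.ev (h : HL i j p γ μ) : ∀ᶠ x in 𝓝 p, HL i j x γ μ := by
  filter_upwards [h.1.eventually_analyticAt, h.2.2.2.eventually_nhds,
    eventually_all.2 fun k => (analyticAt_tP i.2 k p).continuousAt.eventually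
      ((h.2.1 k).eventually_analyticAt.and (h.2.2.1 k).eventually_nhds)] with x a1 a2 a3
  exact ⟨a1, fun k => (a3 k).1, fun k => (a3 k).2, a2⟩

theorem W_DC (hp : p ∈ PM.W i) : tP i.2 p 0 ∈ DC ∧ tP i.2 p 1 ∈ DC := by
  have a0 : tP i.2 p 0 ∈ Dm WC (i.1 0) := hp 0
  have a1 : tP i.2 p 1 ∈ Dm WC (i.1 1) := hp 1
  rw [DmC] at a0 a1
  exact ⟨a0.2, a1.2⟩

theorem BMan_scal {u v a b : E3 → ℂ} (hu : AnalyticAt ℂ u p) (ha : AnalyticAt ℂ a p) (h0 : a p ≠ 0)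
    (h : ∀ᶠ x in 𝓝 p, ∃ c, c ≠ 0 ∧ u x = c * a x ∧ v x = c * b x) :
    ∃ c : E3 → ℂ, AnalyticAt ℂ c p ∧ c p ≠ 0 ∧ ∀ᶠ x in 𝓝 p, u x = c x * a x ∧ v x = c x * b x := by
  refine ⟨fun x => u x / a x, hu.div ha h0, ?_, ?_⟩
  · obtain ⟨c, c1, c2, -⟩ := h.self_of_nhds
    exact div_ne_zero (c2 ▸ mul_ne_zero c1 h0) h0
  · filter_upwards [h, ha.continuousAt.eventually_ne h0] with x ⟨c, _, c2, c3⟩ hx
    rw [c2, mul_div_cancel_right₀ _ hx]
    exact ⟨rfl, c3⟩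

theorem HL.scal (h : HL i j p γ μ) (k : Fin 3) : ∃ c : E3 → ℂ, AnalyticAt ℂ c p ∧ c p ≠ 0 ∧
    ∀ᶠ x in 𝓝 p, tu j.2 (γ x) k = c x * (μ k (tP i.2 x k) * tu i.2 x k) ∧
      tv j.2 (γ x) k = c x * (μ (k + 1) (tP i.2 x (k + 1)) * μ (k + 2) (tP i.2 x (k + 2)) * tv i.2 x k) := by
  have hμ : ∀ k, AnalyticAt ℂ (fun x => μ k (tP i.2 x k)) p := fun k =>
    (h.2.1 k).comp_of_eq (analyticAt_tP i.2 k p) rfl
  have h0 := h.2.2.2.self_of_nhds.ne
  have hs := h.2.2.2.mono fun x hx => hx.2.scal hx.ne k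
  rcases tuv_ne i.2 p k with e | e
  · exact BMan_scal ((analyticAt_tu j.2 k _).comp_of_eq h.1 rfl)
      ((hμ k).mul (analyticAt_tu i.2 k p)) (mul_ne_zero (h0 k) e) hs
  · obtain ⟨c, c1, c2, c3⟩ := BMan_scal ((analyticAt_tv j.2 k _).comp_of_eq h.1 rfl)
      (((hμ (k + 1)).mul (hμ (k + 2))).mul (analyticAt_tv i.2 k p))
      (mul_ne_zero (mul_ne_zero (h0 _) (h0 _)) e)
      (hs.mono fun x ⟨c, a1, a2, a3⟩ => ⟨c, a1, a3, a2⟩)
    exact ⟨c, c1, c2, c3.mono fun x hx => hx.symm⟩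

end Pool.Agent.Work.MP_bf98aa_gt.Ki
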