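import Pool.Agent.Work.MP_bf98aa_gt.Ki.BKap

/-!
The Thom form.

PLAN. `The_gc`: `lH_sm`, `N_mul`, `lH_mul`, `ddc_inv`, `lam_gc`. `The_far`: near `p`, `lH = log ‖tu‖ ^ 2 + lw (tP 2) + c0` (`lH_far`, `tu ≠ 0`), `ddc_log`. `zone_small`: `tu_sq` gives
`Na * (‖P0‖ wt P0) * (‖P1‖ wt P1) = Nb * (‖P2‖ wt P2)`, then `wt_le`, `wt_small`. `The_near`: `tv ≠ 0`; near `p`, `lH = log ‖tv‖ ^ 2 + lw P0 + lw P1 + kk rr`, `lam 2 = 0` (`lam_eq`, `deriv_psi_zero`).
If `rr p < 1 / 20000` then `kk rr = 0` nearby and `psi`, `deriv psi` vanish. Else `rr p > 0`, `tu ≠ 0`, `log rr = log ‖tu‖ ^ 2 - log ‖tv‖ ^ 2 - lw P0 - lw P1` nearby (`lw_zero`), `ddc_comp`, `ddc_of_log`, `mul_deriv_kk`, `kk_lap`.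
`The_eq`: cases `Nb / 10000 < Na` (then `gg = gg' = 0`) or not. `The_zero`: `crs = 0` gives `tv = 0` (`dy_eq`, `crs_smul`, `tor_crs`), the condition of `The_far` is open.
`exists_pt`: chart `(fun _ => (false, false), 2)`, `p = (a, a, t)` with `a = sqrt r`, `t = sqrt r * wt a`, `r` from `exists_mid`; near `p`, `rr x = ‖x.2.2‖ ^ 2 / (wt x.1 * wt x.2.1)`; `crs = (0, 0, Yd a ^ 2)` (`tor_crs_two`) with `Yd a` a positive real.
-/

set_option autoImplicit false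

noncomputable section

open scoped ContDiff Topology
open Set Filter

namespace Pool.Agent.Work.MP_bf98aa_gt.Ki

open Pool.Agent.Work.MP_bf98aa_gt.Th Pool.Agent.Work.MP_bf98aa_gt.Cp

variable {i j : Jx} {p q : E3}

theorem BTh_lw (k : Fin 3) (i : Jx) (p : E3) : ContDiffAt ℝ ∞ (fun x => lw (tP i.2 x k)) p :=
  contDiff_lw.contDiffAt.comp p (an_sm (analyticAt_tP i.2 k p))

theorem BTh_logb (h : tv i.2 p 2 ≠ 0) :
    ddc (fun x => Real.log (Nb 2 i x)) p = lam 0 i p + lam 1 i p := by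
  have hv := analyticAt_tv i.2 2 p
  have e : (fun x => Real.log (Nb 2 i x)) =ᶠ[𝓝 p] fun x => Real.log (‖tv i.2 x 2‖ ^ 2) +
      (lw (tP i.2 x 0) + lw (tP i.2 x 1)) := by
    filter_upwards [hv.continuousAt.eventually_ne h] with x hx
    rw [Nb, Real.log_mul (pow_ne_zero _ (norm_ne_zero_iff.2 hx))
      (mul_pos (wt_pos _) (wt_pos _)).ne', Real.log_mul (wt_pos _).ne' (wt_pos _).ne', wt, wt,
      Real.log_exp, Real.log_exp]
    rfl
  rw [ddc_congr e, ddc_add (log_sm hv h) ((BTh_lw 0 i p).add (BTh_lw 1 i p)), ddc_log hv h,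
    ddc_add (BTh_lw 0 i p) (BTh_lw 1 i p), zero_add]
  rfl

theorem BTh_loga (h : tu i.2 p 2 ≠ 0) : ddc (fun x => Real.log (Na 2 i x)) p = lam 2 i p := by
  have hu := analyticAt_tu i.2 2 p
  have e : (fun x => Real.log (Na 2 i x)) =ᶠ[𝓝 p] fun x => Real.log (‖tu i.2 x 2‖ ^ 2) +
      lw (tP i.2 x 2) := by
    filter_upwards [hu.continuousAt.eventually_ne h] with x hx
    rw [Na, Real.log_mul (pow_ne_zero _ (norm_ne_zero_iff.2 hx)) (wt_pos _).ne', wt, Real.log_exp]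
  rw [ddc_congr e, ddc_add (log_sm hu h) (BTh_lw 2 i p), ddc_log hu h, zero_add]
  rfl

theorem BTh_sm (i : Jx) (p : E3) : ContDiffAt ℝ ∞ (fun x => lH (Na 2 i x) (Nb 2 i x)) p :=
  lH_sm (Na_sm 2 i p).1 (Na_sm 2 i p).2 (fun y => (N_pos 2 i y).2.1) (N_pos 2 i p).2.2

theorem The_gc : PM.GC The := by
  have h : PM.GC fun i : Jx => ddc fun x => lH (Na 2 i x) (Nb 2 i x) := by
    refine ⟨fun i => cl_ddc (isOpen_W i) fun p _ => (BTh_sm i p).contDiffWithinAt,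
      fun i j p γ hγ => ?_⟩
    obtain ⟨μ, hμ⟩ := lift_HL hγ
    obtain ⟨c, c1, c2, c3⟩ := N_mul hμ 2
    refine ddc_inv hμ.1 (BTh_sm i p) (BTh_sm j _) c1 c2 ?_
    filter_upwards [c3, c1.continuousAt.eventually_ne c2] with x hx h0
    rw [hx.1, hx.2, lH_mul (pow_pos (norm_pos_iff.2 h0) 2)
      ((N_pos 2 i x).2.2.imp ne_of_gt ne_of_gt)]
  refine gc_congr (h.add PM_good ((lam_gc 2).smul PM_good (-1))) fun i y _ => ?_
  exact (sub_eq_add_neg _ _).trans (congrArg _ (neg_one_smul ℝ _).symm)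

theorem The_far (h : Nb 2 i p / 10000 < Na 2 i p) : The i p = 0 := by
  obtain ⟨sa, sb⟩ := Na_sm 2 i p
  have ha : Na 2 i p ≠ 0 := (show 0 < Na 2 i p by linarith [(N_pos 2 i p).2.1]).ne'
  have hu : tu i.2 p 2 ≠ 0 := fun e => ha (by simp [Na, e])
  have e : (fun x => lH (Na 2 i x) (Nb 2 i x)) =ᶠ[𝓝 p] fun x => Real.log (Na 2 i x) + c0 := by
    filter_upwards [(sb.continuousAt.div_const 10000).eventually_lt sa.continuousAt h] with x hx
    exact lH_far (N_pos 2 i x).2.1 hx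
  rw [The, ddc_congr e, ddc_add (sa.log ha) contDiffAt_const, ddc_const, BTh_loga hu, add_zero,
    sub_self]

theorem zone_small (h : Na 2 i p < Nb 2 i p / 5000) : ‖tP i.2 p 2‖ ^ 2 < 1 / 20000 := by
  have a0 := (N_pos 2 i p).1
  have hb : 0 < Nb 2 i p := by linarith
  have e := congrArg norm (tu_sq i.2 p)
  simp only [norm_mul, norm_pow] at e
  have e2 : Nb 2 i p * (‖tP i.2 p 2‖ * wt (tP i.2 p 2)) = Na 2 i p *
      (‖tP i.2 p 0‖ * wt (tP i.2 p 0) * (‖tP i.2 p 1‖ * wt (tP i.2 p 1))) := by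
    have : Nb 2 i p = ‖tv i.2 p 2‖ ^ 2 * (wt (tP i.2 p 0) * wt (tP i.2 p 1)) := rfl
    rw [this, Na]
    linear_combination -(wt (tP i.2 p 0) * wt (tP i.2 p 1) * wt (tP i.2 p 2)) * e
  have h0 := wt_le (tP i.2 p 0)
  have h1 := wt_le (tP i.2 p 1)
  have h2 := (wt_pos (tP i.2 p 1)).le
  refine wt_small (lt_of_mul_lt_mul_left (a := Nb 2 i p) ?_ hb.le)
  rw [e2]
  calc _ ≤ Na 2 i p * (1 / 100 * (1 / 100)) := by gcongr
    _ < _ := by linarith

theorem The_near (h : Na 2 i p < Nb 2 i p / 5000) :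
    The i p = gg i p • sqF (fderiv ℝ (rr i) p) + gg' i p • rho i p := by
  have hb : Nb 2 i p ≠ 0 := (show 0 < Nb 2 i p by linarith [(N_pos 2 i p).1]).ne'
  have hv : tv i.2 p 2 ≠ 0 := fun e => hb (by simp [Nb, e])
  obtain ⟨sa, sb⟩ := Na_sm 2 i p
  have sr : ContDiffAt ℝ ∞ (rr i) p := sa.div sb hb
  have l2 : lam 2 i p = 0 := by
    rw [lam_eq, deriv_psi_zero (Or.inl (zone_small h))]
    simp
  have e : (fun x => lH (Na 2 i x) (Nb 2 i x)) =ᶠ[𝓝 p]
      fun x => Real.log (Nb 2 i x) + kk (rr i x) := by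
    filter_upwards [sb.continuousAt.eventually_ne hb] with x hx
    exact if_neg hx
  have e4 : ∀ c : ℝ, (4 * Real.pi * c) • rho i p = c • (lam 0 i p + lam 1 i p) := fun c => by
    rw [rho, smul_smul]
    congr 1
    field_simp
  have sk : ContDiffAt ℝ ∞ (fun x => kk (rr i x)) p := contDiff_kk.contDiffAt.comp p sr
  rw [The, l2, sub_zero, ddc_congr e, ddc_add (sb.log hb) sk, BTh_logb hv,
    gg, gg', if_neg hb, if_neg hb, e4]
  by_cases h0 : rr i p = 0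
  · have z : (fun x => kk (rr i x)) =ᶠ[𝓝 p] fun _ => 0 := by
      filter_upwards [sr.continuousAt.eventually_lt continuousAt_const
        (show rr i p < 1 / 20000 by rw [h0]; norm_num)] with x hx
      exact kk_zero hx.le
    rw [ddc_congr z, ddc_const, h0, ← mul_deriv_kk]
    simp
  have ha : Na 2 i p ≠ 0 := fun e => h0 (by rw [rr, e, zero_div])
  have hu : tu i.2 p 2 ≠ 0 := fun e => ha (by simp [Na, e])
  have e2 : (fun x => Real.log (rr i x)) =ᶠ[𝓝 p]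
      fun x => Real.log (Na 2 i x) - Real.log (Nb 2 i x) := by
    filter_upwards [sa.continuousAt.eventually_ne ha, sb.continuousAt.eventually_ne hb] with x h1 h2
    exact Real.log_div h1 h2
  rw [ddc_comp sr contDiff_kk.contDiffAt, ddc_of_log sr h0, ddc_congr e2,
    ddc_sub (sa.log ha) (sb.log hb), BTh_loga hu, BTh_logb hv, l2, ← kk_lap, ← mul_deriv_kk,
    add_div, mul_div_cancel_left₀ _ h0, div_eq_mul_inv]
  module

theorem The_eq (i : Jx) (p : E3) :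
    The i p = gg i p • sqF (fderiv ℝ (rr i) p) + gg' i p • rho i p := by
  obtain ⟨a0, b0, ab⟩ := N_pos 2 i p
  by_cases h : Nb 2 i p / 10000 < Na 2 i p
  · rw [The_far h, gg, gg']
    split_ifs with hb
    · simp
    · have : 1 / 10000 < rr i p := by
        rw [rr, lt_div_iff₀ (lt_of_le_of_ne b0 (Ne.symm hb))]
        linarith
      rw [deriv_psi_zero (Or.inr this), psi_one this.le]
      simp
  · refine The_near ?_
    rcases ab with ab | ab <;> linarith [not_lt.1 h]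

theorem gg_ge (i : Jx) (p : E3) : 0 ≤ gg i p ∧ 0 ≤ gg' i p := by
  rw [gg, gg']
  split_ifs
  · exact ⟨le_rfl, le_rfl⟩
  · exact ⟨div_nonneg (deriv_psi_nonneg _) (div_nonneg (N_pos 2 i p).1 (N_pos 2 i p).2.1),
      mul_nonneg (by positivity) (sub_nonneg.2 (psi_mem _).2)⟩

theorem The_zero (hp : p ∈ PM.W i) (h : crs (dy 0 i p) (dy 1 i p) = 0) :
    ∀ᶠ x in 𝓝 p, The i x = 0 := by
  have s0 : ∀ b, sg b ≠ 0 := fun b => norm_ne_zero_iff.1 (by rw [norm_sg]; exact one_ne_zero)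
  have hv : tv i.2 p 2 = 0 := by
    by_contra hv
    rw [dy_eq (by decide) hp, dy_eq (by decide) hp, crs_smul] at h
    exact smul_ne_zero (mul_ne_zero (mul_ne_zero (s0 _) (Yd_ne (W_DC hp).1.1))
      (mul_ne_zero (s0 _) (Yd_ne (W_DC hp).2.1))) (tor_crs i.2 hv) h
  have hb : Nb 2 i p = 0 := by simp [Nb, hv]
  have ha : Nb 2 i p / 10000 < Na 2 i p := by
    rcases (N_pos 2 i p).2.2 with k | k <;> linarith
  filter_upwards [((Na_sm 2 i p).2.continuousAt.div_const 10000).eventually_lt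
    (Na_sm 2 i p).1.continuousAt ha] with x hx
  exact The_far hx

theorem exists_pt : ∃ i : Jx, ∃ y ∈ PM.W i, fd (tP i.2 y 0) < 0 ∧ fd (tP i.2 y 1) < 0 ∧ 0 < gg i y ∧
    0 < gg' i y ∧ fderiv ℝ (rr i) y (crs (dy 0 i y) (dy 1 i y)) ≠ 0 := by
  obtain ⟨r, r0, r1, r2, r3⟩ := exists_mid
  obtain ⟨a, a0, rfl⟩ : ∃ a : ℝ, 0 < a ∧ a ^ 2 = r :=
    ⟨√r, Real.sqrt_pos.2 (by linarith), Real.sq_sqrt (by linarith)⟩
  have a1 : a ≤ 1 / 100 := by nlinarith
  have na : ‖(a : ℂ)‖ = a := by rw [Complex.norm_real, Real.norm_of_nonneg a0.le]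
  have w0 := wt_pos a
  have w1 : a * wt a ≤ 1 / 100 := by simpa only [na] using wt_le a
  set t : ℝ := a * wt a with ht
  have t0' : 0 < t := mul_pos a0 w0
  have nt : ‖(t : ℂ)‖ = t := by rw [Complex.norm_real, Real.norm_of_nonneg t0'.le]
  let i : Jx := (fun _ => (false, false), 2)
  let y : E3 := (a, a, t)
  have hD := (DC_small (na.trans_le a1)).1
  have n2 : ‖tP 2 y 2‖ ≤ 1 / 200 := by
    change ‖(t : ℂ) ^ 2 * a * a‖ ≤ _
    rw [norm_mul, norm_mul, norm_pow, na, nt]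
    calc _ ≤ (1 / 100 : ℝ) ^ 2 * (1 / 100) * (1 / 100) := by gcongr
      _ ≤ _ := by norm_num
  have hy : y ∈ PM.W i := fun k => by
    fin_cases k
    · exact (DmC _).ge ⟨rfl, hD⟩
    · exact (DmC _).ge ⟨rfl, hD⟩
    · exact (DmE _).ge (mem_ball_zero_iff.2 (n2.trans_lt (by norm_num)))
  have e : ∀ᶠ x in 𝓝 y, rr i x = ‖x.2.2‖ ^ 2 / (wt x.1 * wt x.2.1) := by
    filter_upwards [((analyticAt_tP 2 2 y).continuousAt.norm.pow 2).eventually_lt
      continuousAt_const (show ‖tP 2 y 2‖ ^ 2 < 1 / 20000 by nlinarith [norm_nonneg (tP 2 y 2)])]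
      with x hx
    change ‖x.2.2‖ ^ 2 * wt (tP 2 x 2) / (‖(1 : ℂ)‖ ^ 2 * (wt x.1 * wt x.2.1)) = _
    rw [wt, lw_zero hx.le]
    simp
  have er : rr i y = a ^ 2 := by
    rw [e.self_of_nhds]
    change ‖(t : ℂ)‖ ^ 2 / (wt a * wt a) = _
    rw [nt, ht]
    field_simp
  have hb : Nb 2 i y ≠ 0 := by
    change ‖(1 : ℂ)‖ ^ 2 * (wt a * wt a) ≠ 0
    simp [w0.ne']
  have hf : fd a < 0 := by
    have := norm_pos_iff.2 (Yd_ne hD.1)
    rw [fd, na, neg_lt_zero]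
    positivity
  refine ⟨i, y, hy, hf, hf, by rw [gg, if_neg hb, er]; positivity,
    by rw [gg', if_neg hb, er]; exact mul_pos (by positivity) (sub_pos.2 r3), ?_⟩
  obtain ⟨s, s0, hs⟩ : ∃ s : ℝ, 0 < s ∧ crs (dy 0 i y) (dy 1 i y) = (0, 0, (s : ℂ)) := by
    have : 0 < 1 - a := by linarith
    refine ⟨(1 / (5 * (1 - a) ^ 2)) ^ 2, by positivity, ?_⟩
    rw [dy_eq (by decide) hy, dy_eq (by decide) hy, crs_smul, dP, dP, tor_crs_two]
    change (sg false * Yd a * (sg false * Yd a)) • _ = _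
    simp [sg, Yd, sq]
  have sr : DifferentiableAt ℝ (rr i) y :=
    ((Na_sm 2 i y).1.div (Na_sm 2 i y).2 hb).differentiableAt (by simp)
  have c1 : HasDerivAt (fun z : ℝ => y + z • ((0, 0, (s : ℂ)) : E3)) (0, 0, (s : ℂ)) 0 := by
    simpa using ((hasDerivAt_id (0 : ℝ)).smul_const ((0, 0, (s : ℂ)) : E3)).const_add y
  have d1 := sr.hasFDerivAt.comp_hasDerivAt_of_eq (0 : ℝ) c1 (by simp)
  have d2 : HasDerivAt (fun z : ℝ => (t + z * s) ^ 2 / (wt a * wt a))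
      (2 * t * s / (wt a * wt a)) 0 := by
    simpa using (((((hasDerivAt_id (0 : ℝ)).mul_const s).const_add t).pow 2).div_const
      (wt a * wt a))
  have e3 : (rr i ∘ fun z : ℝ => y + z • ((0, 0, (s : ℂ)) : E3)) =ᶠ[𝓝 0]
      fun z : ℝ => (t + z * s) ^ 2 / (wt a * wt a) := by
    have c2 := c1.continuousAt.tendsto
    rw [zero_smul, add_zero] at c2
    filter_upwards [c2.eventually e] with z hz
    refine hz.trans ?_
    have : (y + z • ((0, 0, (s : ℂ)) : E3)).2.2 = ((t + z * s : ℝ) : ℂ) := by simp [y]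
    rw [this, Complex.norm_real, Real.norm_eq_abs, sq_abs]
    simp [y]
  rw [hs, d1.unique (d2.congr_of_eventuallyEq e3)]
  positivity

end Pool.Agent.Work.MP_bf98aa_gt.Ki
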