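import Pool.Agent.Work.MP_bf98aa_gt.Ki.BJac
import Pool.Agent.Work.MP_bf98aa_gt.Cp.PForm
import Pool.Agent.Work.MP_bf98aa_gt.Ki.APoi

/-!
Forms which come from the base torus.

PLAN. `yk_ev`: `lift_HL`, `RR_C`, `La_ev`. `Per.gs`: smoothness by `Sm.pb`/`PForm_at`; along a lift `yk k j (γ x) = yk k i x - l` near `p`, so `pb γ (pb (yk k j) w) p = pb (fun x => yk k i x - l) w p`
(`pb_comp`, `pb_congr`) and the derivative of `x ↦ yk k i x - l` is that of `yk k i`. `Per.gc`: `extDeriv_pb`. `extDeriv_top`: an alternating 3-form on `ℂ` vanishes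
(`AlternatingMap.map_linearDependent`, `finrank ℝ ℂ = 2`, or `alt_ext_three` and expansion in `1, I`). `per_sq`, `per_re`, `per_im`: if `y - z = m + n I` with `m ≠ 0` then `|y.re|, |z.re| > 1 / 5`.
`FF_sm`: `fd (Yi y)` vanishes near every `y` with `‖Yi y‖ > 1 / 100` or `10 y + 1 = 0` (`deriv_psi_zero`; near `y = -1 / 10` the norm of `Yi` is large off the point, and `fd (Yi (-1 / 10)) = fd 0 = 0`), also near `Yi y = 1`.
`FF_yk`: `Yi_Yf`, `Yi_neg`, `DC_norm`. `exists_exact`: `planar` (Ki/APoi) for `FF`; `a 0 = pb (yk 0 i) (c g(re) d re)`, `a 1 = pb (yk 0 i) (g(im) d im)`, the same with `yk 1`, `ξ = pb (yk 0 i) ξ₀ + pb (yk 1 i) ξ₀`.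
-/

set_option autoImplicit false

noncomputable section

open scoped ContDiff Topology
open Set Filter

namespace Pool.Agent.Work.MP_bf98aa_gt.Ki

open Pool.Agent.Work.MP_bf98aa_gt.Th Pool.Agent.Work.MP_bf98aa_gt.Cp

variable {i j : Jx} {p q : E3} {γ : E3 → E3} {k : Fin 3} {n : ℕ}

theorem BTr_DC (hk : k ≠ 2) (hp : p ∈ PM.W i) : tP i.2 p k ∈ DC := by
  fin_cases k
  exacts [(W_DC hp).1, (W_DC hp).2, absurd rfl hk]

theorem yk_an (hk : k ≠ 2) (hp : p ∈ PM.W i) : AnalyticAt ℂ (yk k i) p ∧ ‖yk k i p‖ < 4 / 5 := by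
  have h := BTr_DC hk hp
  refine ⟨analyticAt_const.mul ((analyticAt_Yf h.1).fun_comp (f := fun x => tP i.2 x k)
    (analyticAt_tP i.2 k p)), ?_⟩
  rw [yk, norm_mul, norm_sg, one_mul]
  exact h.2.1

theorem dy_eq (hk : k ≠ 2) (hp : p ∈ PM.W i) :
    dy k i p = (sg (i.1 k).1 * Yd (tP i.2 p k)) • dP k i p := by
  exact (((hasDerivAt_Yf (BTr_DC hk hp).1).const_mul (sg (i.1 k).1)).comp_hasFDerivAt
    (f := fun x => tP i.2 x k) p (analyticAt_tP i.2 k p).differentiableAt.hasFDerivAt).fderiv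

theorem BTr_La (hk : k ≠ 2) (h : PM.r i p j q) : La (yk k i p - yk k j q) := by
  obtain ⟨m, h1, h2⟩ := h
  have e : rk k = rC := by
    fin_cases k
    exacts [rfl, rfl, absurd rfl hk]
  have h3 := h1 k
  rw [e] at h3
  rw [yk, yk, (h2 k).1]
  exact RR_C h3

theorem yk_ev (hk : k ≠ 2) (h : Lift (sl PM.r i j) p γ) :
    ∃ l, La l ∧ ∀ᶠ x in 𝓝 p, yk k j (γ x) = yk k i x - l := by
  have hc : ContinuousAt (fun x => yk k i x - yk k j (γ x)) p :=
    (yk_an hk (PM_good.mem h.self)).1.continuousAt.sub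
      ((yk_an hk (PM_good.mem' h.self)).1.continuousAt.comp h.1.continuousAt)
  refine ⟨yk k i p - yk k j (γ p), BTr_La hk h.self, ?_⟩
  filter_upwards [La_ev hc (h.2.mono fun x hx => BTr_La hk hx)] with x hx
  rw [← hx, sub_sub_cancel]

theorem Per.gs {w : Fm ℂ n} (h : Per w) (hk : k ≠ 2) : PM.GS fun i => pb (yk k i) w := by
  refine ⟨fun i p hp => (PForm_at (an_sm (yk_an hk hp).1) h.1.contDiffAt).contDiffWithinAt,
    fun i j p γ hl => ?_⟩
  have hp := yk_an hk (PM_good.mem hl.self)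
  have hq := yk_an hk (PM_good.mem' hl.self)
  obtain ⟨l, h1, h2⟩ := yk_ev hk hl
  refine Eq.trans ?_ ((pb_congr w h2).symm.trans
    (pb_comp w hl.diff.self_of_nhds ((an_sm hq.1).differentiableAt (by simp))))
  simp only [pb, fderiv_sub_const]
  rw [h.2 _ (yk k i p - l) (by rwa [sub_sub_cancel]) hp.2 (h2.self_of_nhds ▸ hq.2)]

theorem Per.gc {w : Fm ℂ n} (h : Per w) (hk : k ≠ 2) (hw : ∀ z, extDeriv w z = 0) :
    PM.GC fun i => pb (yk k i) w := by
  refine ⟨fun i => ⟨(h.gs hk).1 i, fun p hp => ?_⟩, (h.gs hk).2⟩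
  rw [extDeriv_pb (h.1.differentiable (by simp) _) (an_sm (yk_an hk hp).1), pb, hw]
  rfl

theorem extDeriv_top (w : Fm ℂ 2) (z : ℂ) : extDeriv w z = 0 := by
  ext v
  refine (extDeriv w z).toAlternatingMap.map_linearDependent v fun hv => ?_
  have h := hv.fintype_card_le_finrank
  rw [Complex.finrank_real_complex] at h
  simp at h

theorem per_const (w : Alt ℂ n) : Per fun _ => w := by
  exact ⟨contDiff_const, fun _ _ _ _ _ => rfl⟩

theorem BTr_int {a b : ℝ} {m : ℤ} (h : a - b = m) (ha : |a| < 4 / 5) (hb : |b| < 4 / 5) :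
    a = b ∨ (3 / 20 < |a| ∧ 3 / 20 < |b|) := by
  rcases eq_or_ne m 0 with rfl | hm
  · exact Or.inl (sub_eq_zero.1 (h.trans Int.cast_zero))
  · have h1 : (1 : ℝ) ≤ |a - b| := by
      rw [h]
      exact_mod_cast Int.one_le_abs hm
    have h2 := abs_sub a b
    exact Or.inr ⟨by linarith, by linarith⟩

theorem BTr_far {y z : ℂ} (h : La (y - z)) (hy : ‖y‖ < 4 / 5) (hz : ‖z‖ < 4 / 5) :
    (y.re = z.re ∨ (3 / 20 < |y.re| ∧ 3 / 20 < |z.re|)) ∧
      (y.im = z.im ∨ (3 / 20 < |y.im| ∧ 3 / 20 < |z.im|)) := by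
  obtain ⟨m, n, e⟩ := h
  exact ⟨BTr_int (m := m) (by simpa using congrArg Complex.re e)
      ((Complex.abs_re_le_norm y).trans_lt hy) ((Complex.abs_re_le_norm z).trans_lt hz),
    BTr_int (m := n) (by simpa using congrArg Complex.im e)
      ((Complex.abs_im_le_norm y).trans_lt hy) ((Complex.abs_im_le_norm z).trans_lt hz)⟩

theorem per_sq {w : Fm ℂ n} (h : ContDiff ℝ ∞ w)
    (h0 : ∀ z : ℂ, 3 / 20 < |z.re| ∨ 3 / 20 < |z.im| → w z = 0) : Per w := by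
  refine ⟨h, fun y z hl hy hz => ?_⟩
  obtain ⟨h1 | h1, h2 | h2⟩ := BTr_far hl hy hz
  · rw [Complex.ext h1 h2]
  · rw [h0 y (Or.inr h2.1), h0 z (Or.inr h2.2)]
  · rw [h0 y (Or.inl h1.1), h0 z (Or.inl h1.2)]
  · rw [h0 y (Or.inl h1.1), h0 z (Or.inl h1.2)]

theorem BTr_cl {g : ℝ → ℝ} (h : ContDiff ℝ ∞ g) (L : ℂ →L[ℝ] ℝ) (z : ℂ) :
    extDeriv (fun z : ℂ => g (L z) • alt1 L) z = 0 := by
  have h1 : HasFDerivAt (fun z : ℂ => g (L z)) (deriv g (L z) • L) z :=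
    (h.differentiable (by simp) (L z)).hasDerivAt.comp_hasFDerivAt z L.hasFDerivAt
  have h2 := h1.smul_const (alt1 L)
  refine alt_ext_two fun u v => ?_
  rw [extDeriv_one_apply h2.differentiableAt, h2.fderiv]
  simp only [ContinuousLinearMap.smulRight_apply, smul_apply,
    ContinuousAlternatingMap.smul_apply, alt1_apply, smul_eq_mul, Matrix.cons_val_zero,
    ContinuousAlternatingMap.coe_zero, Pi.zero_apply]
  ring

theorem per_re {g : ℝ → ℝ} (h : ContDiff ℝ ∞ g) (h0 : ∀ t, 3 / 20 < |t| → g t = 0) :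
    Per (fun z => g z.re • alt1 Complex.reCLM) ∧
      ∀ z, extDeriv (fun z : ℂ => g z.re • alt1 Complex.reCLM) z = 0 := by
  refine ⟨⟨(h.comp Complex.reCLM.contDiff).smul contDiff_const, fun y z hl hy hz => ?_⟩,
    BTr_cl h Complex.reCLM⟩
  obtain h1 | h1 := (BTr_far hl hy hz).1
  · simp only [h1]
  · simp only [h0 _ h1.1, h0 _ h1.2]

theorem per_im {g : ℝ → ℝ} (h : ContDiff ℝ ∞ g) (h0 : ∀ t, 3 / 20 < |t| → g t = 0) :
    Per (fun z => g z.im • alt1 Complex.imCLM) ∧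
      ∀ z, extDeriv (fun z : ℂ => g z.im • alt1 Complex.imCLM) z = 0 := by
  refine ⟨⟨(h.comp Complex.imCLM.contDiff).smul contDiff_const, fun y z hl hy hz => ?_⟩,
    BTr_cl h Complex.imCLM⟩
  obtain h1 | h1 := (BTr_far hl hy hz).2
  · simp only [h1]
  · simp only [h0 _ h1.1, h0 _ h1.2]

theorem BTr_fd0 {P : ℂ} (h : ‖P‖ ^ 2 < 1 / 20000 ∨ 1 / 10000 < ‖P‖ ^ 2) : fd P = 0 := by
  simp [fd, deriv_psi_zero h]

theorem BTr_fdz : fd 0 = 0 := BTr_fd0 (Or.inl (by norm_num))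

theorem BTr_fdsm : ContDiff ℝ ∞ fd := by
  have e : fd = fun P => -(deriv psi (‖P‖ ^ 2) * (25 * (‖1 - P‖ ^ 2) ^ 2 * (2 * Real.pi)⁻¹)) := by
    funext P
    have h5 : ‖(5 : ℂ)‖ = 5 := by simp
    rw [fd, Yd, norm_div, norm_one, norm_mul, norm_pow, h5, div_eq_mul_inv, mul_inv, div_pow,
      one_pow, one_div, inv_inv]
    ring
  rw [e]
  have h1 : ContDiff ℝ ∞ (deriv psi) := (contDiff_infty_iff_deriv.mp contDiff_psi).2
  have h2 : ContDiff ℝ ∞ fun P : ℂ => ‖P‖ ^ 2 := contDiff_norm_sq ℂ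
  have h3 : ContDiff ℝ ∞ fun P : ℂ => ‖1 - P‖ ^ 2 := (contDiff_const.sub contDiff_id).norm_sq ℂ
  exact ((h1.comp h2).mul ((contDiff_const.mul (h3.pow 2)).mul contDiff_const)).neg

theorem BTr_G0 {y : ℂ} (h : y.re < 0 ∨ 3 / 20 < |y.re| ∨ 3 / 20 < |y.im|) : fd (Yi y) = 0 := by
  by_cases h0 : 10 * y + 1 = 0
  · rw [Yi, h0, div_zero, BTr_fdz]
  refine BTr_fd0 (Or.inr ?_)
  have hp : 0 < ‖10 * y + 1‖ ^ 2 := pow_pos (norm_pos_iff.mpr h0) 2
  rw [Yi, norm_div, div_pow, lt_div_iff₀ hp, Complex.sq_norm, Complex.sq_norm,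
    Complex.normSq_apply, Complex.normSq_apply]
  have e1 : (10 * y + 1).re = 10 * y.re + 1 := by simp
  have e2 : (10 * y + 1).im = 10 * y.im := by simp
  have e3 : (10 * y - 1).re = 10 * y.re - 1 := by simp
  have e4 : (10 * y - 1).im = 10 * y.im := by simp
  rw [e1, e2, e3, e4]
  have hb := mul_self_nonneg y.im
  rcases h with h | h | h
  · nlinarith [mul_self_nonneg y.re]
  · rcases lt_abs.mp h with h | h
    · nlinarith
    · nlinarith
  · have : 9 / 400 < y.im * y.im := by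
      rw [← abs_mul_abs_self]
      nlinarith
    nlinarith [mul_self_nonneg (10 * y.re - 10001 / 9999)]

theorem BTr_Gsm : ContDiff ℝ ∞ fun y => fd (Yi y) := by
  refine contDiff_iff_contDiffAt.mpr fun y => ?_
  by_cases h : y.re < 0
  · refine (contDiffAt_const (c := (0 : ℝ))).congr_of_eventuallyEq ?_
    filter_upwards [(isOpen_lt Complex.continuous_re continuous_const).mem_nhds h] with z hz
    exact BTr_G0 (Or.inl hz)
  · have h0 : 10 * y + 1 ≠ 0 := fun e => by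
      have := congrArg Complex.re e
      simp at this
      linarith
    have h1 : AnalyticAt ℂ Yi y :=
      AnalyticAt.fun_div (f := fun y : ℂ => 10 * y - 1) (g := fun y : ℂ => 10 * y + 1)
        (by fun_prop) (by fun_prop) h0
    exact BTr_fdsm.contDiffAt.comp y (an_sm h1)

theorem FF_sm : ContDiff ℝ ∞ FF := by
  exact BTr_Gsm.add (BTr_Gsm.comp contDiff_neg)

theorem FF_supp (z : ℂ) (h : 3 / 20 < |z.re| ∨ 3 / 20 < |z.im|) : FF z = 0 := by
  rw [FF, BTr_G0 (Or.inr h), BTr_G0 (Or.inr (by simpa using h)), add_zero]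

theorem BTr_FF {P : ℂ} (h : P ∈ DC) : FF (Yf P) = fd P ∧ FF (-Yf P) = fd P := by
  have h1 : fd P⁻¹ = 0 := by
    by_cases h0 : P = 0
    · rw [h0, inv_zero, BTr_fdz]
    refine BTr_fd0 (Or.inr ?_)
    have hp := norm_pos_iff.mpr h0
    have h2 := DC_norm h
    rw [norm_inv, inv_pow, one_div]
    exact inv_strictAnti₀ (pow_pos hp 2) (by nlinarith)
  simp only [FF, neg_neg, Yi_neg, Yi_Yf h.1, h1, add_zero, zero_add, and_self]

theorem FF_yk (hk : k ≠ 2) (hp : p ∈ PM.W i) : FF (yk k i p) = fd (tP i.2 p k) := by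
  have h : tP i.2 p k ∈ DC := by
    fin_cases k
    · exact (W_DC hp).1
    · exact (W_DC hp).2
    · exact absurd rfl hk
  rw [yk, sg]
  split_ifs
  · rw [neg_one_mul, (BTr_FF h).2]
  · rw [one_mul, (BTr_FF h).1]

theorem BTr_pb1 (hk : k ≠ 2) (hp : p ∈ PM.W i) (s : ℂ → ℝ) (l : ℂ →L[ℝ] ℝ) (v : E3) :
    pb (yk k i) (fun z => s z • alt1 l) p ![v] = s (yk k i p) * l (dy k i p v) := by
  rw [dy, ← an_fderiv (yk_an hk hp).1]
  simp [pb, alt1_apply]

theorem exists_b : ∃ b : Fin 4 → Jx → Fm E3 1, (∀ s, PM.GC (b s)) ∧ ∀ i, ∀ y ∈ PM.W i, ∀ v,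
    b 0 i y ![v] = (dy 0 i y v).re ∧ b 1 i y ![v] = (dy 0 i y v).im ∧
      b 2 i y ![v] = (dy 1 i y v).re ∧ b 3 i y ![v] = (dy 1 i y v).im := by
  have g : ∀ (k : Fin 3), k ≠ 2 → ∀ l : ℂ →L[ℝ] ℝ,
      PM.GC fun i => pb (yk k i) fun _ => (1 : ℝ) • alt1 l := fun k hk l =>
    (per_const _).gc hk fun z => extDeriv_const _ z
  refine ⟨![fun i => pb (yk 0 i) fun _ => (1 : ℝ) • alt1 Complex.reCLM,
    fun i => pb (yk 0 i) fun _ => (1 : ℝ) • alt1 Complex.imCLM,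
    fun i => pb (yk 1 i) fun _ => (1 : ℝ) • alt1 Complex.reCLM,
    fun i => pb (yk 1 i) fun _ => (1 : ℝ) • alt1 Complex.imCLM], fun s => ?_, fun i y hy v => ?_⟩
  · fin_cases s
    exacts [g 0 (by decide) _, g 0 (by decide) _, g 1 (by decide) _, g 1 (by decide) _]
  · have e := fun (k : Fin 3) (hk : k ≠ 2) l =>
      (BTr_pb1 hk hy (fun _ => 1) l v).trans (one_mul _)
    exact ⟨e 0 (by decide) _, e 0 (by decide) _, e 1 (by decide) _, e 1 (by decide) _⟩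

theorem BTr_key {g : ℝ → ℝ} {c : ℝ} {ξ : Fm ℂ 1} (hξ : ContDiff ℝ ∞ ξ)
    (hd : ∀ z : ℂ, extDeriv ξ z = (FF z - c * g z.re * g z.im) • ar) (hk : k ≠ 2)
    (hp : p ∈ PM.W i) (u v : E3) :
    extDeriv (pb (yk k i) ξ) p ![u, v] = (fd (tP i.2 p k) • arC (dy k i p)) ![u, v] -
      (pb (yk k i) (fun z => (c * g z.re) • alt1 Complex.reCLM) p ![u] *
          pb (yk k i) (fun z => g z.im • alt1 Complex.imCLM) p ![v] -
        pb (yk k i) (fun z => (c * g z.re) • alt1 Complex.reCLM) p ![v] *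
          pb (yk k i) (fun z => g z.im • alt1 Complex.imCLM) p ![u]) := by
  have ha := (yk_an hk hp).1
  rw [extDeriv_pb (hξ.differentiable (by simp) _) (an_sm ha), funext hd, pb_ar ha,
    FF_yk hk hp, BTr_pb1 hk hp, BTr_pb1 hk hp, BTr_pb1 hk hp, BTr_pb1 hk hp]
  simp only [ContinuousAlternatingMap.smul_apply, arC_apply, dy, smul_eq_mul,
    Complex.reCLM_apply, Complex.imCLM_apply]
  ring

theorem exists_exact : ∃ (a : Fin 4 → Jx → Fm E3 1) (ξ : Jx → Fm E3 1), (∀ s, PM.GC (a s)) ∧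
    PM.GS ξ ∧ ∀ i, ∀ y ∈ PM.W i, ∀ u v, extDeriv (ξ i) y ![u, v] =
      (fd (tP i.2 y 0) • arC (dy 0 i y) + fd (tP i.2 y 1) • arC (dy 1 i y)) ![u, v] -
        (a 0 i y ![u] * a 1 i y ![v] - a 0 i y ![v] * a 1 i y ![u] +
          (a 2 i y ![u] * a 3 i y ![v] - a 2 i y ![v] * a 3 i y ![u])) := by
  obtain ⟨g, c, ξ, hg, hg0, hξ, hξ0, hd⟩ := planar FF_sm FF_supp
  have h1 := per_re (g := fun t => c * g t) (contDiff_const.mul hg) fun t ht => by
    rw [hg0 t ht, mul_zero]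
  have h2 := per_im hg hg0
  have h3 := per_sq hξ hξ0
  have k0 : (0 : Fin 3) ≠ 2 := by decide
  have k1 : (1 : Fin 3) ≠ 2 := by decide
  refine ⟨![fun i => pb (yk 0 i) fun z => (c * g z.re) • alt1 Complex.reCLM,
    fun i => pb (yk 0 i) fun z => g z.im • alt1 Complex.imCLM,
    fun i => pb (yk 1 i) fun z => (c * g z.re) • alt1 Complex.reCLM,
    fun i => pb (yk 1 i) fun z => g z.im • alt1 Complex.imCLM],
    fun i y => pb (yk 0 i) ξ y + pb (yk 1 i) ξ y, fun s => ?_, (h3.gs k0).add (h3.gs k1),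
    fun i y hy u v => ?_⟩
  · fin_cases s
    exacts [h1.1.gc k0 h1.2, h2.1.gc k0 h2.2, h1.1.gc k1 h1.2, h2.1.gc k1 h2.2]
  · rw [extDeriv_fun_add (((h3.gs k0).1 i).diffAt (isOpen_W i) hy)
      (((h3.gs k1).1 i).diffAt (isOpen_W i) hy), ContinuousAlternatingMap.add_apply,
      ContinuousAlternatingMap.add_apply, BTr_key hξ hd k0 hy, BTr_key hξ hd k1 hy]
    exact (sub_add_sub_comm _ _ _ _).trans rfl

end Pool.Agent.Work.MP_bf98aa_gt.Ki
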