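import Pool.Agent.Work.MP_bf98aa_gt.Ki.BMain
import Pool.Agent.Work.MP_bf98aa_gt.Ki.T2

/-!
The statement with the first Chern class followed along the path.
-/

set_option autoImplicit false

open scoped Manifold ContDiff

namespace Pool.Agent.Work.MP_bf98aa_gt.Ki

open Pool.Agent.Work.MP_bf98aa_gt.Th Pool.Agent.Work.MP_bf98aa_gt.Cp

theorem res :
    ∃ (M : Type) (_ : TopologicalSpace M) (_ : T2Space M) (_ : CompactSpace M)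
      (_ : ConnectedSpace M) (_ : ChartedSpace (Sp (Fin 3)) M)
      (_ : IsManifold 𝓘(ℝ, Sp (Fin 3)) ∞ M)
      (η : Fin 3 → Form (Sp (Fin 3)) M 2) (w : ℝ → Form (Sp (Fin 3)) M 2)
      (J : Endo (Sp (Fin 3)) M) (ρ σ : Form (Sp (Fin 3)) M 2) (a : Fin 4 → Form (Sp (Fin 3)) M 1),
      (∀ i, (η i).Closed) ∧ (∀ s, w s = comb η ![1, s ^ 2, s]) ∧
      (∀ s ∈ Set.Icc (0 : ℝ) 1, (w s).Closed ∧ (w s).Nondeg ∧
        ∃ J', Tamed (w s) J' ∧ RepC1 J' ρ) ∧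
      Tamed (w 0) J ∧ (∀ x u v, w 0 x ![J x u, J x v] = w 0 x ![u, v]) ∧
      (∃ J₀, ∀ p, ∀ y ∈ (chartAt (Sp (Fin 3)) p).target, J.loc p y = J₀) ∧
      RepC1 J ρ ∧ (∀ i, (a i).Closed) ∧
      (∀ x u v, σ x ![u, v] = a 0 x ![u] * a 1 x ![v] - a 0 x ![v] * a 1 x ![u] +
        (a 2 x ![u] * a 3 x ![v] - a 2 x ![v] * a 3 x ![u])) ∧ (ρ.sub σ).Exact ∧
      (∃ c < 0, Integral (w 0) (coef2 ![ρ, w 0, w 0]) c) ∧
      (∃ c > 0, Integral (w 1) (coef2 ![ρ, w 1, w 1]) c) ∧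
      ∀ s ∈ Set.Icc (0 : ℝ) 1, ∃ c > 0, Integral (w s) (coef2 ![ρ, ρ, w s]) c := by
  obtain ⟨M, i1, i2, i3, i4, i5, i6, η, w, J, ρ, σ, a, h1, h2, h3, h4, h5, h6, h7, h8⟩ := goal
  refine ⟨M, i1, i2, i3, i4, i5, i6, η, w, J, ρ, σ, a, h1, h2, fun s hs => ⟨(h3 s hs).1, (h3 s hs).2, ?_⟩,
    h4, h5, h6, h7, h8⟩
  have hc : Continuous fun s : ℝ => (![1, s ^ 2, s] : Fin 3 → ℝ) := by
    refine continuous_pi fun i => ?_
    fin_cases i <;> simp <;> fun_prop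
  rw [h2 s]
  exact RepC1_path (n := 2) (fun i => (h1 i).1) hc
    (fun s hs => by rw [← h2 s]; exact ⟨(h3 s hs).1.1, (h3 s hs).2⟩) (by rw [← h2 0]; exact h4) h7 s hs

end Pool.Agent.Work.MP_bf98aa_gt.Ki
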